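import Pool.Agent.H403R3.Cert

namespace Pool.Agent.H403R3

/-- numerators of the example -/
def bG (j : Fin 5) (k : ℕ) : ℤ :=
  match k with
  | 0 => ![10, 0, 0, 4, 30] j
  | 1 => ![-5, 5, 5, -7, -35] j
  | 2 => ![-9, -1, -1, 7, 7] j
  | _ => 0

/-- poles of the example -/
def bR (j : Fin 5) (k : ℕ) : ℤ :=
  match k with
  | 0 => ![-7, -6, -5, -4, 3] j
  | 1 => ![-2, 7, 6, 1, 8] j
  | _ => 0

def N1 : Fin 10 → Fin 10 → ℤ :=
  ![![2431464, -1164324, 16746289, -26185649, -29897371, 33206411, -7025550, -1159350, 914592, 665328],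
    ![2586360, -748860, 52614485, -9439360, -74461415, 3309040, 7964250, -2266500, -325920, 427920],
    ![-373800, 829500, -32662175, 43175125, 46882325, -71152375, 32261250, -2456250, 789600, -474000],
    ![-1113000, -48300, -319204375, 10512950, 448328125, -24270050, 31841250, -2055000, 924000, 27600],
    ![-1482600, -1413300, -115187975, -308691425, 162848525, 424058075, 31631250, 13856250, 991200, 807600],
    ![-97981800, 52544100, 4008563825, -423879400, -5564891675, 586906600, 236591250, 216127500, 24309600, 33478800],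
    ![-2733696, 458136, -44477496, 472311, 55596744, 7831971, -11944800, 2037150, 266112, -261792],
    ![-181440, -1141560, 82978560, -44005185, -116907840, 63428715, -26082000, 654750, -544320, 652320],
    ![-831600, -756000, 285393150, 38973375, -399227850, -53479125, -472500, -3476250, 151200, 432000],
    ![23662800, -15195600, -775917450, 324366525, 1075085550, -452706975, -51502500, -30678750, -5745600, -7192800]]

def N2 : Fin 10 → Fin 10 → ℤ :=
  ![![0, 0, 0, 0, 0, 0, 0, 1209600, 0, 0],
    ![0, 0, 0, 0, 0, 0, 0, 0, 1209600, 0],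
    ![0, 0, 0, 0, 0, 0, 0, 0, 0, 1209600],
    ![0, 0, 11550, 0, -26250, 0, 0, -24192000, 22982400, 2419200],
    ![2016, 101136, -42105, -29960, 78195, 42872, 1680, -6048000, 7257600, -1209600],
    ![6048, 310968, -132330, -94160, 246270, 134576, 5280, -6048000, 7257600, -1209600],
    ![50400, 2508240, -1074855, -759000, 1996845, 1085160, 42480, -54432000, 101606400, -18144000],
    ![-20160, -963480, 395925, 279640, -734775, -400360, -15600, 48384000, -94348800, 16934400],
    ![0, 60480, -81450, -41360, 142350, 58160, 2400, 48384000, -94348800, 16934400],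
    ![310464, 15164184, -6368955, -4458920, 11774745, 6378968, 246480, -532224000, 1146700800, -208051200]]

lemma M1_mul : ∀ i j, (M1 bG (fun j => dcf (bR j)) * Matrix.of N1) i j =
    if i = j then 1111320000 else 0 := by
  decide +kernel

lemma M2_mul : ∀ i j, (M2 bG (fun j => dcf (bR j)) * Matrix.of N2) i j =
    if i = j then 1209600 else 0 := by
  decide +kernel

lemma det_ne_of {m : ℕ} {A B : Matrix (Fin m) (Fin m) ℤ} {d : ℤ} (hd : d ≠ 0)
    (h : ∀ i j, (A * B) i j = if i = j then d else 0) : A.det ≠ 0 := by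
  have h1 : A * B = d • (1 : Matrix (Fin m) (Fin m) ℤ) := by
    ext i j
    rw [h, Matrix.smul_apply, Matrix.one_apply]
    split <;> simp
  have h2 := congrArg Matrix.det h1
  rw [Matrix.det_mul, Matrix.det_smul, Matrix.det_one, mul_one] at h2
  intro h3
  rw [h3, zero_mul] at h2
  exact (pow_ne_zero _ hd) h2.symm

lemma M1_det : (M1 bG (fun j => dcf (bR j))).det ≠ 0 := det_ne_of (by norm_num) M1_mul

lemma M2_det : (M2 bG (fun j => dcf (bR j))).det ≠ 0 := det_ne_of (by norm_num) M2_mul

lemma M3_det : ∀ i : Fin 3, (M3 bG (fun j => dcf (bR j))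
    (![2, -3, 0] i) (![-1, 4, 5] i)).det ≠ 0 := by
  decide +kernel

end Pool.Agent.H403R3
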