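import Mathlib

/-!
# (-1)-curves on blow-ups of projective spaces at points

Everything is over the field `ℂ` of complex numbers.

Let `p 1, …, p s ∈ ℂ^{n+1}` be homogeneous coordinates of `s` distinct points of `ℙⁿ`.  The blow-up
`X` of `ℙⁿ` at these points is the closed subvariety

  `X = {(x, ℓ 1, …, ℓ s) | ℓ i is a line through p i, and x ∈ ℓ i for all i}`

of `ℙⁿ × ∏ i, ℙ(ℂ^{n+1} / ⟨p i⟩)` (the second factors are the spaces of the lines through `p i`).
We write `ℓ i = ⟨w i, p i⟩` with `w i ∈ ℂ^{n+1}` not in `⟨p i⟩`.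
-/

open MvPolynomial

namespace Pool.Agent.H403R3

/-- The vector space `ℂ^{n+1}`; the points of `ℙⁿ` are its lines through the origin. -/
abbrev Vec (n : ℕ) : Type := Fin (n + 1) → ℂ

/-- `(x, w)` are homogeneous coordinates of a point of the blow-up `X` of `ℙⁿ` at the points
`p i`: the point `(x, ⟨w 1, p 1⟩, …, ⟨w s, p s⟩)`. -/
structure IsPoint {n s : ℕ} (p : Fin s → Vec n) (x : Vec n) (w : Fin s → Vec n) : Prop where
  /-- `x` is the coordinate vector of a point of `ℙⁿ` -/
  ne_zero : x ≠ 0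
  /-- `⟨w i, p i⟩` is a line through the point `p i` -/
  notMem : ∀ i, w i ∉ Submodule.span ℂ {p i}
  /-- the point `x` lies on the line `⟨w i, p i⟩` -/
  mem : ∀ i, x ∈ Submodule.span ℂ {w i, p i}

/-- The coordinates `(x, w)` and `(x', w')` of points of `X` are coordinates of the same point. -/
def SamePoint {n s : ℕ} (p : Fin s → Vec n) (x : Vec n) (w : Fin s → Vec n) (x' : Vec n)
    (w' : Fin s → Vec n) : Prop :=
  x' ∈ Submodule.span ℂ {x} ∧ ∀ i, w' i ∈ Submodule.span ℂ {w i, p i}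

/-- `(x + ε ξ, w + ε η)` satisfies, over the dual numbers `ℂ[ε]`, the equations of `X`, i.e.
`x + ε ξ ∈ ⟨w i + ε η i, p i⟩` for all `i`.  As
`(a + ε a') (w i + ε η i) + (b + ε b') p i = (a w i + b p i) + ε (a η i + a' w i + b' p i)`, this
means that `ξ - a η i ∈ ⟨w i, p i⟩`, where `x = a w i + b p i`.  The tangent space of `X` at the
point `(x, w)` is the space of these `(ξ, η)` modulo those which satisfy `IsVertical`. -/
def IsTangent {n s : ℕ} (p : Fin s → Vec n) (x : Vec n) (w : Fin s → Vec n)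
    (ξ : Vec n) (η : Fin s → Vec n) : Prop :=
  ∀ i, ∀ a b : ℂ, x = a • w i + b • p i → ξ - a • η i ∈ Submodule.span ℂ {w i, p i}

/-- `(x + ε ξ, w + ε η)` are coordinates of the same point over `ℂ[ε]` as `(x, w)`: `ξ ∈ ⟨x⟩`, and
`η i ∈ ⟨w i, p i⟩` for all `i`. -/
def IsVertical {n s : ℕ} (p : Fin s → Vec n) (x : Vec n) (w : Fin s → Vec n)
    (ξ : Vec n) (η : Fin s → Vec n) : Prop :=
  ξ ∈ Submodule.span ℂ {x} ∧ ∀ i, η i ∈ Submodule.span ℂ {w i, p i}

/-- The linear combination `∑ m, c m • v m` of vectors. -/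
def comb {n r : ℕ} (c : Fin r → ℂ) (v : Fin r → Vec n) : Vec n := fun j => ∑ m, c m * v m j

/-- A morphism `γ : ℙ¹ → X`, given by binary forms: the point `γ(a)`, `0 ≠ a ∈ ℂ²`, has the
coordinates `(f(a), w(a))`, where the coordinates of `f` are binary forms of the same degree `δ`
and those of `w i` are binary forms of the same degree `e i`. -/
structure RatCurve {n s : ℕ} (p : Fin s → Vec n) where
  /-- the degree of `f : ℙ¹ → ℙⁿ` -/
  δ : ℕ
  /-- the degree of `w i : ℙ¹ → ℙ(ℂ^{n+1} / ⟨p i⟩)` -/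
  e : Fin s → ℕ
  /-- the forms giving `f : ℙ¹ → ℙⁿ` -/
  f : Fin (n + 1) → MvPolynomial (Fin 2) ℂ
  /-- the forms giving `w i : ℙ¹ → ℙ(ℂ^{n+1} / ⟨p i⟩)` -/
  w : Fin s → Fin (n + 1) → MvPolynomial (Fin 2) ℂ
  f_hom : ∀ j, (f j).IsHomogeneous δ
  w_hom : ∀ i j, (w i j).IsHomogeneous (e i)
  isPoint : ∀ a : Fin 2 → ℂ, a ≠ 0 → IsPoint p (fun j => eval a (f j)) (fun i j => eval a (w i j))

namespace RatCurve

variable {n s : ℕ} {p : Fin s → Vec n} (γ : RatCurve p)

/-- The coordinate vector in `ℂ^{n+1}` of the image in `ℙⁿ` of `γ(a)`. -/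
noncomputable def x (a : Fin 2 → ℂ) : Vec n := fun j => eval a (γ.f j)

/-- The vectors giving the lines through `p i` that correspond to `γ(a)`. -/
noncomputable def dir (a : Fin 2 → ℂ) : Fin s → Vec n := fun i j => eval a (γ.w i j)

/-- The `k`-th partial derivative of `f` at `a`. -/
noncomputable def dx (a : Fin 2 → ℂ) (k : Fin 2) : Vec n := fun j => eval a (pderiv k (γ.f j))

/-- The `k`-th partial derivatives of the `w i` at `a`. -/
noncomputable def ddir (a : Fin 2 → ℂ) (k : Fin 2) : Fin s → Vec n :=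
  fun i j => eval a (pderiv k (γ.w i j))

/-- `(ξ, η)` gives a tangent vector of the curve at `γ(a)`: it is, up to vectors which satisfy
`IsVertical`, a linear combination of the two partial derivatives of `(f, w)` at `a`. -/
def IsAlong (a : Fin 2 → ℂ) (ξ : Vec n) (η : Fin s → Vec n) : Prop :=
  ∃ c : Fin 2 → ℂ, IsVertical p (γ.x a) (γ.dir a) (ξ - comb c (γ.dx a))
    (fun i => η i - comb c (fun k => γ.ddir a k i))

/-- `γ : ℙ¹ → X` is an embedding: it is injective, and its differential is injective at every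
point (i.e. not both partial derivatives of `(f, w)` satisfy `IsVertical`). -/
def IsEmbedding : Prop :=
  (∀ a b : Fin 2 → ℂ, a ≠ 0 → b ≠ 0 → SamePoint p (γ.x a) (γ.dir a) (γ.x b) (γ.dir b) →
    ∃ c : ℂ, b = c • a) ∧
  ∀ a : Fin 2 → ℂ, a ≠ 0 → ∃ k, ¬ IsVertical p (γ.x a) (γ.dir a) (γ.dx a k) (γ.ddir a k)

/-- The tangent vectors `(ξ m, η m)`, `m = 1, …, r`, of `X` at `γ(a)` give a basis of the fibre at
`γ(a)` of the normal bundle of the curve, which is the tangent space of `X` modulo the tangent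
vectors of the curve: they are tangent vectors, linearly independent modulo the tangent vectors of
the curve, and generate all tangent vectors modulo those of the curve. -/
def IsNormalBasis (a : Fin 2 → ℂ) {r : ℕ} (ξ : Fin r → Vec n) (η : Fin r → Fin s → Vec n) : Prop :=
  (∀ m, IsTangent p (γ.x a) (γ.dir a) (ξ m) (η m)) ∧
  (∀ c : Fin r → ℂ, γ.IsAlong a (comb c ξ) (fun i => comb c (fun m => η m i)) → c = 0) ∧
  ∀ ζ θ, IsTangent p (γ.x a) (γ.dir a) ζ θ →
    ∃ c : Fin r → ℂ, γ.IsAlong a (ζ - comb c ξ) (fun i => θ i - comb c (fun m => η m i))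

/-- The normal bundle `N` of the embedded curve `γ(ℙ¹) ⊆ X` is isomorphic to
`𝒪(-1) ⊕ … ⊕ 𝒪(-1)` (`n - 1` summands): there are `n - 1` sections `(ξ m, η m)` of the twist by
`𝒪(1)` of the restriction to the curve of the tangent bundle of `X` (given by binary forms of
degrees `δ + 1` and `e i + 1`), the images of which in the fibre of the normal bundle at `γ(a)` form
a basis of this fibre, for every point `a` of `ℙ¹`; i.e. they induce an isomorphism
`𝒪^{n-1} → N ⊗ 𝒪(1)`. -/
def NormalBundleIsMinusOne : Prop :=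
  ∃ (ξ : Fin (n - 1) → Fin (n + 1) → MvPolynomial (Fin 2) ℂ)
    (η : Fin (n - 1) → Fin s → Fin (n + 1) → MvPolynomial (Fin 2) ℂ),
    (∀ m j, (ξ m j).IsHomogeneous (γ.δ + 1)) ∧
    (∀ m i j, (η m i j).IsHomogeneous (γ.e i + 1)) ∧
    ∀ a : Fin 2 → ℂ, a ≠ 0 →
      γ.IsNormalBasis a (fun m j => eval a (ξ m j)) (fun m i j => eval a (η m i j))

/-- `γ` is the inclusion of a (-1)-curve `C ⊆ X`: a smooth rational curve with normal bundle
isomorphic to `𝒪(-1)^{n-1}`. -/
def IsMinusOneCurve : Prop := γ.IsEmbedding ∧ γ.NormalBundleIsMinusOne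

/-- The class `δ h - ∑ μ i e i` of the curve, as the pair `(δ, μ)`.  Here `δ` is the degree of the
pull-back of `𝒪(1)` from `ℙⁿ`, and `μ i = E i · C` is determined by
`(H - E i) · C = δ - μ i = e i`, the degree of the pull-back of `𝒪(1)` from the space
`ℙ(ℂ^{n+1} / ⟨p i⟩)` of lines through `p i`. -/
def cls : ℤ × (Fin s → ℤ) := (γ.δ, fun i => γ.δ - γ.e i)

end RatCurve

/-- The standard Cremona transformation based at the points indexed by `Γ`, on the classes
`δ h - ∑ μ i e i` of curves, written as `(δ, μ)`: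
`(δ + (n - 1) t) h - ∑_{i ∈ Γ} (μ i + t) e i - ∑_{i ∉ Γ} μ i e i`, where
`t = δ - ∑_{i ∈ Γ} μ i`. -/
def cremona (n : ℕ) {s : ℕ} (Γ : Finset (Fin s)) (c : ℤ × (Fin s → ℤ)) : ℤ × (Fin s → ℤ) :=
  (c.1 + (n - 1) * (c.1 - ∑ i ∈ Γ, c.2 i),
    fun i => if i ∈ Γ then c.2 i + (c.1 - ∑ j ∈ Γ, c.2 j) else c.2 i)

/-- The classes in the orbits of the classes `h - e i - e j` under the Weyl group, which is
generated by the (involutive) standard Cremona transformations.  The (-1)-Weyl lines are the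
effective classes among them. -/
inductive InWeylOrbit (n s : ℕ) : ℤ × (Fin s → ℤ) → Prop
  | line (i j : Fin s) : i ≠ j →
      InWeylOrbit n s (1, fun k => if k = i ∨ k = j then 1 else 0)
  | cremona (Γ : Finset (Fin s)) (c : ℤ × (Fin s → ℤ)) : Γ.card = n + 1 →
      InWeylOrbit n s c → InWeylOrbit n s (cremona n Γ c)

/-- The `p i` are coordinate vectors of pairwise distinct points of `ℙⁿ` (if `s ≥ 2`). -/
def Distinct {n s : ℕ} (p : Fin s → Vec n) : Prop :=
  ∀ i j, i ≠ j → p j ∉ Submodule.span ℂ {p i}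

/-- The property `A` holds for general `s` points of `ℙⁿ`: for all `p 1, …, p s` for which some
fixed nonzero polynomial `F` in their homogeneous coordinates does not vanish. -/
def Generally (n s : ℕ) (A : (Fin s → Vec n) → Prop) : Prop :=
  ∃ F : MvPolynomial (Fin s × Fin (n + 1)) ℂ, F ≠ 0 ∧
    ∀ p : Fin s → Vec n, eval (fun q => p q.1 q.2) F ≠ 0 → A p

end Pool.Agent.H403R3
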