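import Pool.Agent.H403R3.Norm

/-!
# Polynomial conditions for normalised data
-/

open Finset

namespace Pool.Agent.H403R3

/-- the index type of the unknowns -/
abbrev RR (n : ℕ) : Type :=
  (Σ m : Fin (n + 1), Fin (mu n m + 1)) ⊕ ((Σ m : Fin (n + 1), Fin (mu n m)) ⊕ (Fin 7 ⊕ Fin 7))

section Defs

variable {R : Type*} [CommRing R] {n : ℕ}

def gc (z : RR n → R) (m : Fin (n + 1)) (k : ℕ) : R :=
  if h : k < mu n m + 1 then z (Sum.inl ⟨m, ⟨k, h⟩⟩) else 0

def rc (z : RR n → R) (m : Fin (n + 1)) (k : ℕ) : R :=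
  if h : k < mu n m then z (Sum.inr (Sum.inl ⟨m, ⟨k, h⟩⟩)) else 0

def ta (z : RR n → R) (l : Fin 7) : R := z (Sum.inr (Sum.inr (Sum.inl l)))

def lm (z : RR n → R) (l : Fin 7) : R := z (Sum.inr (Sum.inr (Sum.inr l)))

def Gev (z : RR n → R) (m : Fin (n + 1)) (x : R) : R := ∑ k ∈ range (mu n m + 1), gc z m k * x ^ k

def Dev (z : RR n → R) (m : Fin (n + 1)) (x : R) : R := ∏ k ∈ range (mu n m), (x - rc z m k)

/-- the equations -/
def EE (P : Fin 4 × Fin (n + 1) → R) (z : RR n → R) (q : Fin 7 × Fin (n + 1)) : R :=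
  Gev z q.2 (ta z q.1) - lm z q.1 * P (ix q.1, q.2) * Dev z q.2 (ta z q.1)

def dcf (r : ℕ → R) (c : ℕ) : R :=
  match c with
  | 0 => r 0 * r 1
  | 1 => -(r 0 + r 1)
  | 2 => 1
  | _ => 0

def conv (a b : ℕ → R) (c : ℕ) : R :=
  match c with
  | 0 => a 0 * b 0
  | 1 => a 0 * b 1 + a 1 * b 0
  | 2 => a 0 * b 2 + a 1 * b 1 + a 2 * b 0
  | 3 => a 1 * b 2 + a 2 * b 1
  | 4 => a 2 * b 2
  | _ => 0

def wcf (g d : ℕ → R) (c : ℕ) : R :=
  match c with
  | 0 => g 1 * d 0 - g 0 * d 1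
  | 1 => 2 * (g 2 * d 0 - g 0 * d 2)
  | 2 => g 2 * d 1 - g 1 * d 2
  | _ => 0

def shf (φ : ℕ → R) (k c : ℕ) : R := if k ≤ c then φ (c - k) else 0

def M1 (g d : Fin 5 → ℕ → R) : Matrix (Fin 10) (Fin 10) R := Matrix.of fun i c =>
  if (c : ℕ) < 6 then shf (conv (g ⟨i / 2, by omega⟩) (d ⟨i / 2, by omega⟩)) (i % 2) c
  else shf (wcf (g ⟨i / 2, by omega⟩) (d ⟨i / 2, by omega⟩)) (i % 2) (c - 6)

def prs : Fin 10 → ℕ × ℕ :=
  ![(0, 1), (0, 2), (0, 3), (0, 4), (1, 2), (1, 3), (1, 4), (2, 3), (2, 4), (3, 4)]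

def rws : Fin 7 → Fin 5 × Fin 5 := ![(0, 2), (1, 2), (1, 3), (1, 4), (2, 3), (2, 4), (3, 4)]

def kap (K K' : ℕ → R) (c : Fin 10) : R :=
  K (prs c).1 * K' (prs c).2 - K (prs c).2 * K' (prs c).1

def M2 (g d : Fin 5 → ℕ → R) : Matrix (Fin 10) (Fin 10) R := Matrix.of fun i c =>
  if h : (i : ℕ) < 7 then
    kap (conv (g (rws ⟨i, h⟩).1) (d (rws ⟨i, h⟩).2)) (conv (d (rws ⟨i, h⟩).1) (g (rws ⟨i, h⟩).2)) c
  else if (c : ℕ) + 7 = i then 1 else 0

def qe (a : ℕ → R) (x : R) : R := a 0 + a 1 * x + a 2 * x ^ 2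

def tr : Fin 3 → Fin 5 := ![0, 3, 4]

def M3 (g d : Fin 5 → ℕ → R) (s t : R) : Matrix (Fin 3) (Fin 3) R := Matrix.of fun i j =>
  if i = 0 then qe (wcf (g (tr j)) (d (tr j))) s * qe (d (tr j)) t ^ 2
  else if i = 1 then qe (wcf (g (tr j)) (d (tr j))) t * qe (d (tr j)) s ^ 2
  else qe (g (tr j)) t * qe (d (tr j)) t * qe (d (tr j)) s ^ 2

/-- the product of the numbers which have to be different from zero -/
def DeltaZ (hn : 4 ≤ n) (z : RR n → R) : R :=
  (∏ l, ∏ l' ∈ univ.erase l, (ta z l - ta z l')) * (∏ l, lm z l) *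
  (∏ s : (Σ m : Fin (n + 1), Fin (mu n m)), ∏ l, (z (Sum.inr (Sum.inl s)) - ta z l)) *
  (∏ s : (Σ m : Fin (n + 1), Fin (mu n m)), ∏ s' ∈ univ.erase s,
    (z (Sum.inr (Sum.inl s)) - z (Sum.inr (Sum.inl s')))) *
  (∏ s : (Σ m : Fin (n + 1), Fin (mu n m)), Gev z s.1 (z (Sum.inr (Sum.inl s)))) *
  gc z (e5 hn 0) 2 *
  (M1 (fun j => gc z (e5 hn j)) (fun j => dcf (rc z (e5 hn j)))).det *
  (M2 (fun j => gc z (e5 hn j)) (fun j => dcf (rc z (e5 hn j)))).det *
  ∏ i, (M3 (fun j => gc z (e5 hn j)) (fun j => dcf (rc z (e5 hn j)))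
    (ta z (la i)) (ta z (lb i))).det

end Defs

/-! ### Functoriality -/

section Map

variable {R S : Type*} [CommRing R] [CommRing S] (φ : R →+* S) {n : ℕ}

lemma map_gc (z : RR n → R) (m : Fin (n + 1)) (k : ℕ) : gc (fun s => φ (z s)) m k = φ (gc z m k) := by
  unfold gc; split <;> simp

lemma map_rc (z : RR n → R) (m : Fin (n + 1)) (k : ℕ) : rc (fun s => φ (z s)) m k = φ (rc z m k) := by
  unfold rc; split <;> simp

lemma map_ta (z : RR n → R) (l : Fin 7) : ta (fun s => φ (z s)) l = φ (ta z l) := rfl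

lemma map_lm (z : RR n → R) (l : Fin 7) : lm (fun s => φ (z s)) l = φ (lm z l) := rfl

lemma map_Gev (z : RR n → R) (m : Fin (n + 1)) (x : R) :
    Gev (fun s => φ (z s)) m (φ x) = φ (Gev z m x) := by
  unfold Gev
  simp only [map_sum, map_mul, map_pow, map_gc]

lemma map_Dev (z : RR n → R) (m : Fin (n + 1)) (x : R) :
    Dev (fun s => φ (z s)) m (φ x) = φ (Dev z m x) := by
  unfold Dev
  simp only [map_prod, map_sub, map_rc]

lemma map_EE (P : Fin 4 × Fin (n + 1) → R) (z : RR n → R) (q : Fin 7 × Fin (n + 1)) :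
    EE (fun s => φ (P s)) (fun s => φ (z s)) q = φ (EE P z q) := by
  unfold EE
  simp only [map_sub, map_mul, map_ta, map_lm, map_Gev, map_Dev]

lemma map_dcf (r : ℕ → R) (c : ℕ) : dcf (fun k => φ (r k)) c = φ (dcf r c) := by
  unfold dcf; split <;> simp

lemma map_conv (a b : ℕ → R) (c : ℕ) :
    conv (fun k => φ (a k)) (fun k => φ (b k)) c = φ (conv a b c) := by
  unfold conv; split <;> simp

lemma map_wcf (a b : ℕ → R) (c : ℕ) :
    wcf (fun k => φ (a k)) (fun k => φ (b k)) c = φ (wcf a b c) := by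
  unfold wcf; split <;> simp [map_ofNat φ 2]

lemma map_shf (a : ℕ → R) (k c : ℕ) :
    shf (fun k => φ (a k)) k c = φ (shf a k c) := by
  unfold shf; split <;> simp

lemma map_kap (a b : ℕ → R) (c : Fin 10) :
    kap (fun k => φ (a k)) (fun k => φ (b k)) c = φ (kap a b c) := by
  unfold kap; simp

lemma map_qe (a : ℕ → R) (x : R) : qe (fun k => φ (a k)) (φ x) = φ (qe a x) := by
  unfold qe; simp

lemma map_M1 (g d : Fin 5 → ℕ → R) :
    M1 (fun j k => φ (g j k)) (fun j k => φ (d j k)) = φ.mapMatrix (M1 g d) := by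
  ext i c
  simp only [M1, Matrix.of_apply, RingHom.mapMatrix_apply, Matrix.map_apply]
  split
  · rw [← map_shf]
    congr 1
    funext k
    exact map_conv φ _ _ k
  · rw [← map_shf]
    congr 1
    funext k
    exact map_wcf φ _ _ k

lemma map_M2 (g d : Fin 5 → ℕ → R) :
    M2 (fun j k => φ (g j k)) (fun j k => φ (d j k)) = φ.mapMatrix (M2 g d) := by
  ext i c
  simp only [M2, Matrix.of_apply, RingHom.mapMatrix_apply, Matrix.map_apply]
  split
  · rw [← map_kap]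
    congr 1
    · funext k
      exact map_conv φ _ _ k
    · funext k
      exact map_conv φ _ _ k
  · split <;> simp

lemma map_M3 (g d : Fin 5 → ℕ → R) (s t : R) :
    M3 (fun j k => φ (g j k)) (fun j k => φ (d j k)) (φ s) (φ t) = φ.mapMatrix (M3 g d s t) := by
  have hw : ∀ j : Fin 5, wcf (fun k => φ (g j k)) (fun k => φ (d j k)) =
      fun k => φ (wcf (g j) (d j) k) := fun j => funext fun k => map_wcf φ _ _ k
  ext i j
  simp only [M3, Matrix.of_apply, RingHom.mapMatrix_apply, Matrix.map_apply, hw, map_qe]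
  split
  · simp
  · split <;> simp

lemma map_DeltaZ (hn : 4 ≤ n) (z : RR n → R) :
    DeltaZ hn (fun s => φ (z s)) = φ (DeltaZ hn z) := by
  unfold DeltaZ
  have hg : (fun j => gc (fun s => φ (z s)) (e5 hn j)) = fun j k => φ (gc z (e5 hn j) k) := by
    funext j k; exact map_gc φ z _ k
  have hd : (fun j => dcf (rc (fun s => φ (z s)) (e5 hn j))) =
      fun j k => φ (dcf (rc z (e5 hn j)) k) := by
    funext j k
    rw [← map_dcf]
    congr 1
    funext k
    exact map_rc φ z _ k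
  rw [hg, hd]
  simp only [map_mul, map_prod, map_sub, map_ta, map_lm, map_gc, map_M1, map_M2, map_M3,
    map_Gev, RingHom.map_det]

end Map

end Pool.Agent.H403R3
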