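import Mathlib

/-!
# Binary forms and polynomials in one variable
-/

open Polynomial

namespace Pool.Agent.H403R3

/-- The value at `a` of the binary form of degree `d` with dehomogenisation `φ`. -/
noncomputable def hev (d : ℕ) (φ : ℂ[X]) (a : Fin 2 → ℂ) : ℂ :=
  ∑ k ∈ Finset.range (d + 1), φ.coeff k * (a 0 ^ (d - k) * a 1 ^ k)

/-- The binary form of degree `d` with dehomogenisation `φ` (of degree `≤ d`). -/
noncomputable def homog (d : ℕ) (φ : ℂ[X]) : MvPolynomial (Fin 2) ℂ :=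
  ∑ k ∈ Finset.range (d + 1),
    MvPolynomial.C (φ.coeff k) * (MvPolynomial.X 0 ^ (d - k) * MvPolynomial.X 1 ^ k)

lemma homog_isHomogeneous (d : ℕ) (φ : ℂ[X]) : (homog d φ).IsHomogeneous d := by
  refine MvPolynomial.IsHomogeneous.sum _ _ _ fun k hk => ?_
  have hk' : k ≤ d := Nat.lt_succ_iff.mp (Finset.mem_range.mp hk)
  have h := (MvPolynomial.isHomogeneous_C (Fin 2) (φ.coeff k)).mul
    (((MvPolynomial.isHomogeneous_X ℂ (0 : Fin 2)).pow (d - k)).mul
      ((MvPolynomial.isHomogeneous_X ℂ (1 : Fin 2)).pow k))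
  convert h using 1
  omega

lemma eval_homog (d : ℕ) (φ : ℂ[X]) (a : Fin 2 → ℂ) :
    MvPolynomial.eval a (homog d φ) = hev d φ a := by
  simp [homog, hev]

lemma hev_add (d : ℕ) (φ ψ : ℂ[X]) (a : Fin 2 → ℂ) :
    hev d (φ + ψ) a = hev d φ a + hev d ψ a := by
  simp [hev, add_mul, Finset.sum_add_distrib]

lemma hev_sub (d : ℕ) (φ ψ : ℂ[X]) (a : Fin 2 → ℂ) :
    hev d (φ - ψ) a = hev d φ a - hev d ψ a := by
  simp [hev, sub_mul, Finset.sum_sub_distrib]

lemma hev_C_mul (d : ℕ) (c : ℂ) (φ : ℂ[X]) (a : Fin 2 → ℂ) :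
    hev d (C c * φ) a = c * hev d φ a := by
  simp [hev, Finset.mul_sum, mul_assoc]

lemma hev_zero (d : ℕ) (a : Fin 2 → ℂ) : hev d 0 a = 0 := by simp [hev]

lemma hev_sum {ι : Type*} (s : Finset ι) (d : ℕ) (φ : ι → ℂ[X]) (a : Fin 2 → ℂ) :
    hev d (∑ i ∈ s, φ i) a = ∑ i ∈ s, hev d (φ i) a := by
  classical
  induction s using Finset.induction_on with
  | empty => simp [hev_zero]
  | insert i s hi ih => rw [Finset.sum_insert hi, Finset.sum_insert hi, hev_add, ih]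

lemma hev_of_ne {d : ℕ} {φ : ℂ[X]} (h : φ.natDegree ≤ d) {a : Fin 2 → ℂ} (ha : a 0 ≠ 0) :
    hev d φ a = a 0 ^ d * φ.eval (a 1 / a 0) := by
  rw [eval_eq_sum_range' (Nat.lt_succ_iff.mpr h), hev, Finset.mul_sum]
  refine Finset.sum_congr rfl fun k hk => ?_
  have hk' : k ≤ d := Nat.lt_succ_iff.mp (Finset.mem_range.mp hk)
  have : a 0 ^ d = a 0 ^ (d - k) * a 0 ^ k := by rw [← pow_add]; congr 1; omega
  rw [this, div_pow]
  field_simp

lemma hev_of_eq {d : ℕ} {φ : ℂ[X]} {a : Fin 2 → ℂ} (ha : a 0 = 0) :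
    hev d φ a = φ.coeff d * a 1 ^ d := by
  rw [hev, Finset.sum_eq_single d]
  · simp
  · intro k hk hkd
    have hk' : k < d := lt_of_le_of_ne (Nat.lt_succ_iff.mp (Finset.mem_range.mp hk)) hkd
    rw [ha, zero_pow (by omega)]; ring
  · simp

lemma a1_ne {a : Fin 2 → ℂ} (ha : a ≠ 0) (h : a 0 = 0) : a 1 ≠ 0 := by
  intro h1
  apply ha
  funext i
  fin_cases i <;> simp [h, h1]

lemma hev_mul {d e : ℕ} {φ ψ : ℂ[X]} (hφ : φ.natDegree ≤ d) (hψ : ψ.natDegree ≤ e)
    (a : Fin 2 → ℂ) : hev (d + e) (φ * ψ) a = hev d φ a * hev e ψ a := by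
  by_cases ha : a 0 = 0
  · rw [hev_of_eq ha, hev_of_eq ha, hev_of_eq ha, coeff_mul_add_eq_of_natDegree_le hφ hψ, pow_add]
    ring
  · rw [hev_of_ne hφ ha, hev_of_ne hψ ha, hev_of_ne (natDegree_mul_le_of_le hφ hψ) ha, eval_mul,
      pow_add]
    ring

lemma hev_mul' {d e k : ℕ} (hk : d + e = k) {φ ψ : ℂ[X]} (hφ : φ.natDegree ≤ d)
    (hψ : ψ.natDegree ≤ e) (a : Fin 2 → ℂ) : hev k (φ * ψ) a = hev d φ a * hev e ψ a := by
  subst hk; exact hev_mul hφ hψ a

/-- Division by a linear form. -/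
lemma exists_factor {d : ℕ} {φ : ℂ[X]} (hφ : φ.natDegree ≤ d + 1) {a : Fin 2 → ℂ} (ha : a ≠ 0)
    (h : hev (d + 1) φ a = 0) :
    ∃ ψ : ℂ[X], ψ.natDegree ≤ d ∧ φ = (C (a 0) * X - C (a 1)) * ψ := by
  by_cases h0 : a 0 = 0
  · have h1 := a1_ne ha h0
    rw [hev_of_eq h0] at h
    have hc : φ.coeff (d + 1) = 0 := by
      rcases mul_eq_zero.mp h with h | h
      · exact h
      · exact absurd h (pow_ne_zero _ h1)
    refine ⟨C (-(a 1)⁻¹) * φ, ?_, ?_⟩
    · refine (natDegree_C_mul_le _ _).trans ?_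
      rw [natDegree_le_iff_coeff_eq_zero] at hφ ⊢
      intro k hk
      rcases Nat.lt_or_ge (d + 1) k with hk' | hk'
      · exact hφ k hk'
      · have : k = d + 1 := by omega
        rw [this, hc]
    · rw [h0, map_zero, zero_mul, zero_sub, map_neg]
      have : C (a 1) * (C (a 1)⁻¹ * φ) = φ := by
        rw [← mul_assoc, ← C_mul, mul_inv_cancel₀ h1, C_1, one_mul]
      linear_combination -this
  · rw [hev_of_ne hφ h0] at h
    have hr : φ.eval (a 1 / a 0) = 0 := by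
      rcases mul_eq_zero.mp h with h | h
      · exact absurd h (pow_ne_zero _ h0)
      · exact h
    obtain ⟨ψ, hψ⟩ := dvd_iff_isRoot.mpr hr
    refine ⟨C (a 0)⁻¹ * ψ, ?_, ?_⟩
    · refine (natDegree_C_mul_le _ _).trans ?_
      by_cases hψ0 : ψ = 0
      · simp [hψ0]
      · have h1 : φ.natDegree = 1 + ψ.natDegree := by
          rw [hψ, natDegree_mul (X_sub_C_ne_zero _) hψ0, natDegree_X_sub_C]
        omega
    · rw [hψ]
      have : C (a 0) * (C (a 0)⁻¹ : ℂ[X]) = 1 := by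
        rw [← C_mul, mul_inv_cancel₀ h0, C_1]
      have h2 : C (a 1) = C (a 0) * C (a 1 / a 0) := by
        rw [← C_mul, mul_div_cancel₀ _ h0]
      rw [h2]
      linear_combination (-(X - C (a 1 / a 0)) * ψ) * this

/-- There are forms with prescribed value at a point. -/
lemma exists_hev_eq (d : ℕ) {a : Fin 2 → ℂ} (ha : a ≠ 0) (c : ℂ) :
    ∃ φ : ℂ[X], φ.natDegree ≤ d ∧ hev d φ a = c := by
  by_cases h0 : a 0 = 0
  · have h1 := a1_ne ha h0
    refine ⟨C (c / a 1 ^ d) * X ^ d, natDegree_C_mul_X_pow_le _ _, ?_⟩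
    rw [hev_of_eq h0]
    simp [div_mul_cancel₀ _ (pow_ne_zero d h1)]
  · refine ⟨C (c / a 0 ^ d), by simp, ?_⟩
    rw [hev_of_ne (by simp) h0, eval_C, mul_div_cancel₀ _ (pow_ne_zero _ h0)]

/-- The dehomogenised partial derivatives of a form of degree `d`. -/
noncomputable def der0 (d : ℕ) (φ : ℂ[X]) : ℂ[X] := C (d : ℂ) * φ - X * derivative φ

lemma natDegree_der0 {d : ℕ} {φ : ℂ[X]} (hφ : φ.natDegree ≤ d) :
    (der0 d φ).natDegree ≤ d - 1 := by
  rw [natDegree_le_iff_coeff_eq_zero]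
  intro k hk
  unfold der0
  rcases Nat.lt_or_ge d k with h | h
  · have h1 : φ.coeff k = 0 := coeff_eq_zero_of_natDegree_lt (lt_of_le_of_lt hφ h)
    obtain ⟨k, rfl⟩ : ∃ j, k = j + 1 := ⟨k - 1, by omega⟩
    rw [coeff_sub, coeff_C_mul, coeff_X_mul, coeff_derivative, h1]
    ring
  · rcases Nat.eq_zero_or_pos k with rfl | hk0
    · omega
    · have hkd : k = d := by omega
      subst hkd
      obtain ⟨k, rfl⟩ : ∃ j, k = j + 1 := ⟨k - 1, by omega⟩
      rw [coeff_sub, coeff_C_mul, coeff_X_mul, coeff_derivative]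
      push_cast; ring

lemma pderiv_one_homog (d : ℕ) (φ : ℂ[X]) :
    MvPolynomial.pderiv 1 (homog (d + 1) φ) = homog d (derivative φ) := by
  unfold homog
  rw [map_sum, Finset.sum_range_succ']
  simp only [Derivation.leibniz, Derivation.leibniz_pow, MvPolynomial.pderiv_C,
    MvPolynomial.pderiv_X_self, MvPolynomial.pderiv_X_of_ne (show (0 : Fin 2) ≠ 1 by decide),
    smul_eq_mul, coeff_derivative]
  simp only [pow_zero, mul_one, zero_smul, smul_zero, add_zero, mul_zero, nsmul_eq_mul,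
    Nat.cast_zero, zero_mul]
  refine Finset.sum_congr rfl fun k hk => ?_
  have : d + 1 - (k + 1) = d - k := by omega
  rw [this]
  have e : k + 1 - 1 = k := by omega
  rw [e]
  push_cast
  rw [map_mul, map_add, map_one]
  simp only [map_natCast]
  ring

lemma pderiv_zero_homog (d : ℕ) (φ : ℂ[X]) :
    MvPolynomial.pderiv 0 (homog (d + 1) φ) = homog d (der0 (d + 1) φ) := by
  unfold homog
  rw [map_sum, Finset.sum_range_succ]
  simp only [Derivation.leibniz, Derivation.leibniz_pow, MvPolynomial.pderiv_C,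
    MvPolynomial.pderiv_X_self, MvPolynomial.pderiv_X_of_ne (show (1 : Fin 2) ≠ 0 by decide),
    smul_eq_mul]
  simp only [pow_zero, mul_one, zero_smul, smul_zero, add_zero, mul_zero, nsmul_eq_mul,
    Nat.cast_zero, zero_mul, Nat.sub_self]
  refine Finset.sum_congr rfl fun k hk => ?_
  have hk' : k ≤ d := Nat.lt_succ_iff.mp (Finset.mem_range.mp hk)
  have h1 : (der0 (d + 1) φ).coeff k = ((d + 1 - k : ℕ) : ℂ) * φ.coeff k := by
    unfold der0
    rw [coeff_sub, coeff_C_mul]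
    rcases k with _ | k
    · simp
    · rw [coeff_X_mul, coeff_derivative, Nat.cast_sub (by omega)]
      push_cast; ring
  rw [h1]
  have : d + 1 - k - 1 = d - k := by omega
  rw [this, map_mul, map_natCast]
  ring

end Pool.Agent.H403R3
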