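import Pool.Agent.H403R3.Defs
import Pool.Agent.H403R3.Hom

/-!
# Contact data of a rational curve in `ℙⁿ`
-/

open Polynomial

namespace Pool.Agent.H403R3

/-- the value at `a` of a vector of forms of degree `d` -/
noncomputable def vhev {n : ℕ} (d : ℕ) (f : Fin (n + 1) → ℂ[X]) (a : Fin 2 → ℂ) : Vec n :=
  fun j => hev d (f j) a

/-- the value at `t` of a vector of polynomials -/
noncomputable def vev {n : ℕ} (f : Fin (n + 1) → ℂ[X]) (t : ℂ) : Vec n :=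
  fun j => (f j).eval t

/-- the contact data of a rational curve -/
structure CurveData {n s : ℕ} (p : Fin s → Vec n) (Q : Type) [Fintype Q] [DecidableEq Q]
    (pt : Q → Fin s) (δ : ℕ) where
  f : Fin (n + 1) → ℂ[X]
  t : Q → ℂ
  u : Q → ℂ
  deg : ∀ j, (f j).natDegree ≤ δ
  t_inj : Function.Injective t
  contact : ∀ q, vev f (t q) = u q • p (pt q)
  surj : Function.Surjective pt
  mult_lt : ∀ i, (Finset.univ.filter (fun q => pt q = i)).card < δ
  imm : ∀ a : Fin 2 → ℂ, a ≠ 0 → ∀ c₀ c₁ : ℂ,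
    c₀ • vhev (δ - 1) (fun j => der0 δ (f j)) a +
      c₁ • vhev (δ - 1) (fun j => derivative (f j)) a = 0 → c₀ = 0 ∧ c₁ = 0
  inj : ∀ a b : Fin 2 → ℂ, a ≠ 0 → b ≠ 0 → vhev δ f b ∈ Submodule.span ℂ {vhev δ f a} →
    (∃ c : ℂ, b = c • a) ∨ ∃ q q' : Q, q ≠ q' ∧ pt q = pt q' ∧
      (∃ c : ℂ, a = c • ![1, t q]) ∧ ∃ c : ℂ, b = c • ![1, t q']
  dir : ∀ q q', q ≠ q' → pt q = pt q' → vev (fun j => derivative (f j)) (t q') ∉
    Submodule.span ℂ {vev (fun j => derivative (f j)) (t q), p (pt q)}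
  H0 : ∀ ξ : Fin (n + 1) → ℂ[X], (∀ j, (ξ j).natDegree ≤ δ) →
    (∀ q, vev ξ (t q) ∈ Submodule.span ℂ {vev f (t q), vev (fun j => derivative (f j)) (t q)}) →
    ∃ B₀ B₁ : ℂ[X], B₀.natDegree ≤ 1 ∧ B₁.natDegree ≤ 1 ∧
      ∀ j, ξ j = B₀ * der0 δ (f j) + B₁ * derivative (f j)
  num : (n + 1) * (δ + 2) = (n - 1) * Fintype.card Q + n + 5
  hn : 1 ≤ n

/-! ### General lemmas -/

lemma vhev_one {n : ℕ} {d : ℕ} {f : Fin (n + 1) → ℂ[X]} (hf : ∀ j, (f j).natDegree ≤ d) (t : ℂ) :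
    vhev d f ![1, t] = vev f t := by
  funext j
  simp only [vhev, vev]
  rw [hev_of_ne (hf j) (by simp)]
  simp

lemma hev_smul_arg {d : ℕ} {φ : ℂ[X]} (c : ℂ) (a : Fin 2 → ℂ) :
    hev d φ (c • a) = c ^ d * hev d φ a := by
  simp only [hev, Pi.smul_apply, smul_eq_mul, Finset.mul_sum]
  refine Finset.sum_congr rfl fun k hk => ?_
  have hk' : k ≤ d := Nat.lt_succ_iff.mp (Finset.mem_range.mp hk)
  have : c ^ d = c ^ (d - k) * c ^ k := by rw [← pow_add]; congr 1; omega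
  rw [this, mul_pow, mul_pow]
  ring

lemma vhev_smul_arg {n : ℕ} {d : ℕ} {f : Fin (n + 1) → ℂ[X]} (c : ℂ) (a : Fin 2 → ℂ) :
    vhev d f (c • a) = c ^ d • vhev d f a := by
  funext j
  simp only [vhev, Pi.smul_apply, smul_eq_mul, hev_smul_arg]

lemma pair_ne_zero (t : ℂ) : (![1, t] : Fin 2 → ℂ) ≠ 0 := by
  intro h
  have := congrFun h 0
  simp at this

/-- Euler's identity -/
lemma euler {δ : ℕ} (hδ : 1 ≤ δ) {φ : ℂ[X]} (hφ : φ.natDegree ≤ δ) (a : Fin 2 → ℂ) :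
    (δ : ℂ) * hev δ φ a = a 0 * hev (δ - 1) (der0 δ φ) a +
      a 1 * hev (δ - 1) (derivative φ) a := by
  obtain ⟨d, rfl⟩ : ∃ d, δ = d + 1 := ⟨δ - 1, by omega⟩
  have e : d + 1 - 1 = d := rfl
  rw [e]
  have hd0 : (der0 (d + 1) φ).natDegree ≤ d := natDegree_der0 hφ
  have hd1 : (derivative φ).natDegree ≤ d := (natDegree_derivative_le _).trans (by omega)
  by_cases h : a 0 = 0
  · rw [hev_of_eq h, hev_of_eq (φ := derivative φ) h, h, coeff_derivative]
    push_cast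
    ring
  · rw [hev_of_ne hφ h, hev_of_ne hd0 h, hev_of_ne hd1 h]
    unfold der0
    rw [eval_sub, eval_mul, eval_mul, eval_C, eval_X]
    field_simp
    push_cast
    ring

/-- interpolation and division at a finite set of simple nodes -/
lemma exists_div {Q : Type} [Fintype Q] [DecidableEq Q] (S : Finset Q) {t : Q → ℂ}
    (ht : Function.Injective t) {φ : ℂ[X]} {d : ℕ} (hφ : φ.natDegree ≤ d + S.card)
    (h : ∀ q ∈ S, φ.eval (t q) = 0) :
    ∃ ψ : ℂ[X], ψ.natDegree ≤ d ∧ φ = (∏ q ∈ S, (X - C (t q))) * ψ := by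
  have h1 : (∏ q ∈ S, (X - C (t q))) ∣ φ := by
    refine Finset.prod_dvd_of_coprime (fun q _ q' _ hqq' => ?_)
      (fun q hq => dvd_iff_isRoot.mpr (h q hq))
    exact pairwise_coprime_X_sub_C ht hqq'
  obtain ⟨ψ, hψ⟩ := h1
  refine ⟨ψ, ?_, hψ⟩
  have hm : (∏ q ∈ S, (X - C (t q))).Monic := monic_prod_of_monic _ _ fun q _ => monic_X_sub_C _
  have hd : (∏ q ∈ S, (X - C (t q))).natDegree = S.card := by
    rw [natDegree_prod_of_monic _ _ fun q _ => monic_X_sub_C _]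
    simp
  by_cases h0 : ψ = 0
  · simp [h0]
  · have := hm.natDegree_mul' h0
    rw [← hψ, hd] at this
    omega

lemma natDegree_nodes {Q : Type} [DecidableEq Q] (S : Finset Q) (t : Q → ℂ) :
    (∏ q ∈ S, (X - C (t q)) : ℂ[X]).natDegree = S.card := by
  rw [natDegree_prod_of_monic _ _ fun q _ => monic_X_sub_C _]
  simp

lemma exists_interp {Q : Type} [Fintype Q] [DecidableEq Q] (S : Finset Q) {t : Q → ℂ}
    (ht : Function.Injective t) (u : Q → ℂ) :
    ∃ U : ℂ[X], U.natDegree ≤ S.card ∧ ∀ q ∈ S, U.eval (t q) = u q := by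
  refine ⟨Lagrange.interpolate S t u, ?_, fun q hq =>
    Lagrange.eval_interpolate_at_node u (ht.injOn) hq⟩
  have := Lagrange.degree_interpolate_lt (s := S) u (ht.injOn)
  exact natDegree_le_of_degree_le this.le

end Pool.Agent.H403R3
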