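import Pool.Agent.H403R3.BlowUp

/-!
# Auxiliary spaces
-/

open MvPolynomial

namespace Pool.Agent.H403R3

section

variable {n s : ℕ} {p : Fin s → Vec n} {x : Vec n} {w : Fin s → Vec n}
  {u v : Vec n × (Fin s → Vec n)}

lemma isTangent_add (hu : IsTangent p x w u.1 u.2) (hv : IsTangent p x w v.1 v.2) :
    IsTangent p x w (u + v).1 (u + v).2 := by
  intro i a b h
  have := Submodule.add_mem _ (hu i a b h) (hv i a b h)
  convert this using 1
  simp only [Prod.fst_add, Prod.snd_add, Pi.add_apply, smul_add]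
  abel

lemma isTangent_zero :
    IsTangent p x w (0 : Vec n × (Fin s → Vec n)).1 (0 : Vec n × (Fin s → Vec n)).2 := by
  intro i a b h
  simp

lemma isTangent_smul (c : ℂ) (hv : IsTangent p x w v.1 v.2) :
    IsTangent p x w (c • v).1 (c • v).2 := by
  intro i a b h
  have := Submodule.smul_mem _ c (hv i a b h)
  convert this using 1
  simp only [Prod.smul_fst, Prod.smul_snd, Pi.smul_apply, smul_sub, smul_comm a c]

end

/-- The space of the vectors satisfying `IsTangent`. -/
def tangentCone {n s : ℕ} (p : Fin s → Vec n) (x : Vec n) (w : Fin s → Vec n) :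
    Submodule ℂ (Vec n × (Fin s → Vec n)) where
  carrier := {v | IsTangent p x w v.1 v.2}
  add_mem' := isTangent_add
  zero_mem' := isTangent_zero
  smul_mem' := fun c _ => isTangent_smul c

/-- The space of the vectors satisfying `IsVertical`. -/
def vertical {n s : ℕ} (p : Fin s → Vec n) (x : Vec n) (w : Fin s → Vec n) :
    Submodule ℂ (Vec n × (Fin s → Vec n)) where
  carrier := {v | IsVertical p x w v.1 v.2}
  add_mem' := fun hu hv => ⟨Submodule.add_mem _ hu.1 hv.1,
    fun i => Submodule.add_mem _ (hu.2 i) (hv.2 i)⟩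
  zero_mem' := ⟨Submodule.zero_mem _, fun _ => Submodule.zero_mem _⟩
  smul_mem' := fun c _ hv => ⟨Submodule.smul_mem _ c hv.1,
    fun i => Submodule.smul_mem _ c (hv.2 i)⟩

namespace RatCurve

variable {n s : ℕ} {p : Fin s → Vec n} (γ : RatCurve p)

/-- The partial derivatives of the coordinates `(f, w)` of `γ` at `a`. -/
noncomputable def deriv (k : Fin 2) (a : Fin 2 → ℂ) : Vec n × (Fin s → Vec n) :=
  (γ.dx a k, γ.ddir a k)

/-- The vectors `(ξ, η)` which give tangent vectors of the curve at `γ(a)`. -/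
noncomputable def tangentLine (a : Fin 2 → ℂ) : Submodule ℂ (Vec n × (Fin s → Vec n)) :=
  vertical p (γ.x a) (γ.dir a) ⊔ Submodule.span ℂ (Set.range fun k => γ.deriv k a)

lemma mem_vertical {p : Fin s → Vec n} {x : Vec n} {w : Fin s → Vec n}
    {v : Vec n × (Fin s → Vec n)} : v ∈ vertical p x w ↔ IsVertical p x w v.1 v.2 := Iff.rfl

lemma comb_eq {r : ℕ} (c : Fin r → ℂ) (v : Fin r → Vec n) : comb c v = ∑ m, c m • v m := by
  funext j
  simp [comb, Finset.sum_apply]

lemma isAlong_iff (a : Fin 2 → ℂ) (v : Vec n × (Fin s → Vec n)) :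
    γ.IsAlong a v.1 v.2 ↔ v ∈ γ.tangentLine a := by
  unfold tangentLine IsAlong
  rw [Submodule.mem_sup]
  constructor
  · rintro ⟨c, hc⟩
    refine ⟨v - ∑ k, c k • γ.deriv k a, ?_, ∑ k, c k • γ.deriv k a, ?_, by abel⟩
    · rw [mem_vertical]
      have h1 : (v - ∑ k, c k • γ.deriv k a).1 = v.1 - comb c (γ.dx a) := by
        rw [comb_eq]
        simp [deriv, Prod.fst_sum]
      have h2 : (v - ∑ k, c k • γ.deriv k a).2 =
          fun i => v.2 i - comb c (fun k => γ.ddir a k i) := by
        funext i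
        rw [comb_eq]
        simp [deriv, Prod.snd_sum, Finset.sum_apply]
      rw [h1, h2]
      exact hc
    · exact Submodule.sum_mem _ fun k _ => Submodule.smul_mem _ _ (Submodule.subset_span ⟨k, rfl⟩)
  · rintro ⟨y, hy, z, hz, rfl⟩
    rw [Submodule.mem_span_range_iff_exists_fun] at hz
    obtain ⟨c, rfl⟩ := hz
    refine ⟨c, ?_⟩
    have h1 : (y + ∑ k, c k • γ.deriv k a).1 - comb c (γ.dx a) = y.1 := by
      rw [comb_eq]
      simp [deriv, Prod.fst_sum]
    have h2 : (fun i => (y + ∑ k, c k • γ.deriv k a).2 i - comb c (fun k => γ.ddir a k i)) =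
        y.2 := by
      funext i
      rw [comb_eq]
      simp [deriv, Prod.snd_sum, Finset.sum_apply]
    rw [h1, h2]
    exact hy

end RatCurve

end Pool.Agent.H403R3
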