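import Mathlib

namespace Pool.Agent.H403R3

/-- coefficients of a family of numerators -/
def gf (t : ℤ) (k : ℕ) : ℤ :=
  match k with
  | 0 => (576) * t ^ 2 + (2592) * t ^ 3 + (4032) * t ^ 4 + (2592) * t ^ 5 + (576) * t ^ 6
  | 1 => 34560 + (64224) * t + (10008) * t ^ 2 + (-7132) * t ^ 3 + (-7050) * t ^ 4 + (-2625) * t ^ 5 + (-336) * t ^ 6 + (-30) * t ^ 7 + (-30) * t ^ 8 + (-5) * t ^ 9
  | 2 => (-24192) + (-38160) * t + (-25116) * t ^ 2 + (8348) * t ^ 3 + (6405) * t ^ 4 + (369) * t ^ 5 + (-318) * t ^ 6 + (66) * t ^ 7 + (21) * t ^ 8 + (1) * t ^ 9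
  | 3 => 3456 + (5616) * t + (5844) * t ^ 2 + (-1488) * t ^ 3 + (-1575) * t ^ 4 + (204) * t ^ 5 + (54) * t ^ 6 + (-12) * t ^ 7 + (-3) * t ^ 8
  | _ => 0

def Df (t x : ℤ) : ℤ := (x - t) * (x - (t + 1)) * (x - (t + 2))

def Gf (t x : ℤ) : ℤ := gf t 0 + gf t 1 * x + gf t 2 * x ^ 2 + gf t 3 * x ^ 3

lemma gf_rel0 (t : ℤ) : Gf t 2 * (1 * Df t (-1)) = Gf t (-1) * (-1 * Df t 2) := by
  simp only [Gf, gf, Df]; ring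

lemma gf_rel1 (t : ℤ) : Gf t (-3) * (1 * Df t 4) = Gf t 4 * (-6 * Df t (-3)) := by
  simp only [Gf, gf, Df]; ring

lemma gf_rel2 (t : ℤ) : Gf t 0 * (-4 * Df t 5) = Gf t 5 * (1 * Df t 0) := by
  simp only [Gf, gf, Df]; ring

lemma gf_ne0 (s : ℕ) : gf ((s : ℤ) + 11) 0 + gf ((s : ℤ) + 11) 1 * ((s : ℤ) + 11 + 0) +
    gf ((s : ℤ) + 11) 2 * ((s : ℤ) + 11 + 0) ^ 2 + gf ((s : ℤ) + 11) 3 * ((s : ℤ) + 11 + 0) ^ 3 ≠ 0 := by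
  have hpos : (0 : ℤ) < 309281753088 + (340889665536) * (s : ℤ) + (169266981888) * (s : ℤ) ^ 2 + (49993369728) * (s : ℤ) ^ 3 + (9760800440) * (s : ℤ) ^ 4 + (1323006400) * (s : ℤ) ^ 5 + (127054062) * (s : ℤ) ^ 6 + (8646354) * (s : ℤ) ^ 7 + (408684) * (s : ℤ) ^ 8 + (12780) * (s : ℤ) ^ 9 + (238) * (s : ℤ) ^ 10 + (2) * (s : ℤ) ^ 11 := by positivity
  have h : gf ((s : ℤ) + 11) 0 + gf ((s : ℤ) + 11) 1 * ((s : ℤ) + 11 + 0) +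
      gf ((s : ℤ) + 11) 2 * ((s : ℤ) + 11 + 0) ^ 2 + gf ((s : ℤ) + 11) 3 * ((s : ℤ) + 11 + 0) ^ 3 =
      -(309281753088 + (340889665536) * (s : ℤ) + (169266981888) * (s : ℤ) ^ 2 + (49993369728) * (s : ℤ) ^ 3 + (9760800440) * (s : ℤ) ^ 4 + (1323006400) * (s : ℤ) ^ 5 + (127054062) * (s : ℤ) ^ 6 + (8646354) * (s : ℤ) ^ 7 + (408684) * (s : ℤ) ^ 8 + (12780) * (s : ℤ) ^ 9 + (238) * (s : ℤ) ^ 10 + (2) * (s : ℤ) ^ 11) := by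
    simp only [gf]; ring
  rw [h]
  exact neg_ne_zero.mpr hpos.ne'

lemma gf_ne1 (s : ℕ) : gf ((s : ℤ) + 11) 0 + gf ((s : ℤ) + 11) 1 * ((s : ℤ) + 11 + 1) +
    gf ((s : ℤ) + 11) 2 * ((s : ℤ) + 11 + 1) ^ 2 + gf ((s : ℤ) + 11) 3 * ((s : ℤ) + 11 + 1) ^ 3 ≠ 0 := by
  have hpos : (0 : ℤ) < 457874726400 + (482677617600) * (s : ℤ) + (229783068576) * (s : ℤ) ^ 2 + (65205338388) * (s : ℤ) ^ 3 + (12254478088) * (s : ℤ) ^ 4 + (1601527009) * (s : ℤ) ^ 5 + (148517013) * (s : ℤ) ^ 6 + (9773076) * (s : ℤ) ^ 7 + (447246) * (s : ℤ) ^ 8 + (13557) * (s : ℤ) ^ 9 + (245) * (s : ℤ) ^ 10 + (2) * (s : ℤ) ^ 11 := by positivity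
  have h : gf ((s : ℤ) + 11) 0 + gf ((s : ℤ) + 11) 1 * ((s : ℤ) + 11 + 1) +
      gf ((s : ℤ) + 11) 2 * ((s : ℤ) + 11 + 1) ^ 2 + gf ((s : ℤ) + 11) 3 * ((s : ℤ) + 11 + 1) ^ 3 =
      -(457874726400 + (482677617600) * (s : ℤ) + (229783068576) * (s : ℤ) ^ 2 + (65205338388) * (s : ℤ) ^ 3 + (12254478088) * (s : ℤ) ^ 4 + (1601527009) * (s : ℤ) ^ 5 + (148517013) * (s : ℤ) ^ 6 + (9773076) * (s : ℤ) ^ 7 + (447246) * (s : ℤ) ^ 8 + (13557) * (s : ℤ) ^ 9 + (245) * (s : ℤ) ^ 10 + (2) * (s : ℤ) ^ 11) := by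
    simp only [gf]; ring
  rw [h]
  exact neg_ne_zero.mpr hpos.ne'

lemma gf_ne2 (s : ℕ) : gf ((s : ℤ) + 11) 0 + gf ((s : ℤ) + 11) 1 * ((s : ℤ) + 11 + 2) +
    gf ((s : ℤ) + 11) 2 * ((s : ℤ) + 11 + 2) ^ 2 + gf ((s : ℤ) + 11) 3 * ((s : ℤ) + 11 + 2) ^ 3 ≠ 0 := by
  have hpos : (0 : ℤ) < 646613839872 + (657734964480) * (s : ℤ) + (302508015264) * (s : ℤ) ^ 2 + (83019400280) * (s : ℤ) ^ 3 + (15102901800) * (s : ℤ) ^ 4 + (1912113154) * (s : ℤ) ^ 5 + (171900972) * (s : ℤ) ^ 6 + (10973334) * (s : ℤ) ^ 7 + (487440) * (s : ℤ) ^ 8 + (14350) * (s : ℤ) ^ 9 + (252) * (s : ℤ) ^ 10 + (2) * (s : ℤ) ^ 11 := by positivity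
  have h : gf ((s : ℤ) + 11) 0 + gf ((s : ℤ) + 11) 1 * ((s : ℤ) + 11 + 2) +
      gf ((s : ℤ) + 11) 2 * ((s : ℤ) + 11 + 2) ^ 2 + gf ((s : ℤ) + 11) 3 * ((s : ℤ) + 11 + 2) ^ 3 =
      -(646613839872 + (657734964480) * (s : ℤ) + (302508015264) * (s : ℤ) ^ 2 + (83019400280) * (s : ℤ) ^ 3 + (15102901800) * (s : ℤ) ^ 4 + (1912113154) * (s : ℤ) ^ 5 + (171900972) * (s : ℤ) ^ 6 + (10973334) * (s : ℤ) ^ 7 + (487440) * (s : ℤ) ^ 8 + (14350) * (s : ℤ) ^ 9 + (252) * (s : ℤ) ^ 10 + (2) * (s : ℤ) ^ 11) := by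
    simp only [gf]; ring
  rw [h]
  exact neg_ne_zero.mpr hpos.ne'

end Pool.Agent.H403R3
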