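import Pool.Agent.H403R3.IFT
import Pool.Agent.H403R3.BaseEx
import Pool.Agent.H403R3.FamEx

/-!
# An example for every dimension
-/

namespace Pool.Agent.H403R3

def gz (m k : ℕ) : ℤ := if h : m < 5 then bG ⟨m, h⟩ k else gf (3 * m) k

def rz (m k : ℕ) : ℤ := if h : m < 5 then bR ⟨m, h⟩ k else 3 * m + k

def t0 : Fin 7 → ℤ := ![2, -1, -3, 4, 0, 5, 9]

def l0 : Fin 7 → ℤ := ![-1, 1, -6, 1, 1, -4, 1]

def z0 (n : ℕ) : RR n → ℤ :=
  Sum.elim (fun s => gz s.1 s.2) (Sum.elim (fun s => rz s.1 s.2) (Sum.elim t0 l0))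

variable {n : ℕ}

lemma gc_z0_lt {m : Fin (n + 1)} {k : ℕ} (h : k < mu n m + 1) : gc (z0 n) m k = gz m k := by
  unfold gc; rw [dif_pos h]; rfl

lemma rc_z0_lt {m : Fin (n + 1)} {k : ℕ} (h : k < mu n m) : rc (z0 n) m k = rz m k := by
  unfold rc; rw [dif_pos h]; rfl

lemma val_e5 (hn : 4 ≤ n) (j : Fin 5) : ((e5 hn j : Fin (n + 1)) : ℕ) = j := rfl

lemma gc_e5 (hn : 4 ≤ n) (j : Fin 5) : gc (z0 n) (e5 hn j) = bG j := by
  funext k
  by_cases h : k < 3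
  · rw [gc_z0_lt (by rw [mu_e5]; exact h), gz, dif_pos (by rw [val_e5]; exact j.2)]
    rfl
  · unfold gc
    rw [dif_neg (by rw [mu_e5]; exact h)]
    obtain ⟨i, rfl⟩ : ∃ i, k = i + 3 := ⟨k - 3, by omega⟩
    rfl

lemma rc_e5 (hn : 4 ≤ n) (j : Fin 5) : rc (z0 n) (e5 hn j) = bR j := by
  funext k
  by_cases h : k < 2
  · rw [rc_z0_lt (by rw [mu_e5]; exact h), rz, dif_pos (by rw [val_e5]; exact j.2)]
    rfl
  · unfold rc
    rw [dif_neg (by rw [mu_e5]; exact h)]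
    obtain ⟨i, rfl⟩ : ∃ i, k = i + 2 := ⟨k - 2, by omega⟩
    rfl

lemma lt_or_ge (hn : 4 ≤ n) (m : Fin (n + 1)) : (∃ j, m = e5 hn j) ∨ 5 ≤ (m : ℕ) := by
  by_cases h : (m : ℕ) < 5
  · exact Or.inl ⟨⟨m, h⟩, Fin.ext rfl⟩
  · exact Or.inr (by omega)

lemma mu_ge {m : Fin (n + 1)} (h : 5 ≤ (m : ℕ)) : mu n m = 3 := by
  unfold mu; rw [if_neg (by omega)]

lemma Gev_e5 (hn : 4 ≤ n) (j : Fin 5) (x : ℤ) : Gev (z0 n) (e5 hn j) x =
    bG j 0 + bG j 1 * x + bG j 2 * x ^ 2 := by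
  unfold Gev
  rw [mu_e5, gc_e5]
  simp [Finset.sum_range_succ]

lemma Dev_e5 (hn : 4 ≤ n) (j : Fin 5) (x : ℤ) : Dev (z0 n) (e5 hn j) x =
    (x - bR j 0) * (x - bR j 1) := by
  unfold Dev
  rw [mu_e5, rc_e5]
  simp [Finset.prod_range_succ]

lemma gz_ge {m k : ℕ} (h : 5 ≤ m) : gz m k = gf (3 * m) k := by
  unfold gz; rw [dif_neg (by omega)]

lemma rz_ge {m k : ℕ} (h : 5 ≤ m) : rz m k = 3 * m + k := by
  unfold rz; rw [dif_neg (by omega)]

lemma Gev_ge {m : Fin (n + 1)} (h : 5 ≤ (m : ℕ)) (x : ℤ) : Gev (z0 n) m x =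
    Gf (3 * (m : ℕ)) x := by
  unfold Gev
  rw [Finset.sum_congr rfl fun k hk => by
    rw [gc_z0_lt (Finset.mem_range.mp hk), gz_ge h], mu_ge h]
  simp [Finset.sum_range_succ, Gf]

lemma Dev_ge {m : Fin (n + 1)} (h : 5 ≤ (m : ℕ)) (x : ℤ) : Dev (z0 n) m x =
    Df (3 * (m : ℕ)) x := by
  unfold Dev
  rw [Finset.prod_congr rfl fun k hk => by
    rw [rc_z0_lt (Finset.mem_range.mp hk), rz_ge h], mu_ge h]
  simp [Finset.prod_range_succ, Df]

lemma rel (hn : 4 ≤ n) (m : Fin (n + 1)) (i : Fin 3) :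
    Gev (z0 n) m (t0 (la i)) * (l0 (lb i) * Dev (z0 n) m (t0 (lb i))) =
      Gev (z0 n) m (t0 (lb i)) * (l0 (la i) * Dev (z0 n) m (t0 (la i))) := by
  rcases lt_or_ge hn m with ⟨j, rfl⟩ | h
  · rw [Gev_e5, Gev_e5, Dev_e5, Dev_e5]
    revert i j
    decide
  · rw [Gev_ge h, Gev_ge h, Dev_ge h, Dev_ge h]
    fin_cases i
    · exact gf_rel0 _
    · exact gf_rel1 _
    · exact gf_rel2 _

lemma t0_le (l : Fin 7) : t0 l ≤ 9 := by revert l; decide

lemma bR_le (j : Fin 5) (k : ℕ) (hk : k < 2) : bR j k ≤ 8 := by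
  rcases k with _ | _ | k
  · revert j; decide
  · revert j; decide
  · omega

lemma zr_eq (s : Σ m : Fin (n + 1), Fin (mu n m)) :
    z0 n (Sum.inr (Sum.inl s)) = rz s.1 s.2 := rfl

lemma z_cases (hn : 4 ≤ n) (s : Σ m : Fin (n + 1), Fin (mu n m)) :
    (∃ (j : Fin 5) (k : Fin 2), (s.1 : ℕ) = j ∧ (s.2 : ℕ) = k ∧
      z0 n (Sum.inr (Sum.inl s)) = bR j k) ∨
    (5 ≤ (s.1 : ℕ) ∧ (s.2 : ℕ) < 3 ∧ z0 n (Sum.inr (Sum.inl s)) = 3 * (s.1 : ℕ) + (s.2 : ℕ)) := by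
  obtain ⟨m, k⟩ := s
  rcases lt_or_ge hn m with ⟨j, rfl⟩ | h
  · left
    have hk : (k : ℕ) < 2 := lt_of_lt_of_eq k.2 (mu_e5 hn j)
    refine ⟨j, ⟨k, hk⟩, rfl, rfl, ?_⟩
    rw [zr_eq, rz, dif_pos (by rw [val_e5]; exact j.2)]
    rfl
  · right
    have hk : (k : ℕ) < 3 := lt_of_lt_of_eq k.2 (mu_ge h)
    refine ⟨h, hk, ?_⟩
    rw [zr_eq, rz_ge h]

lemma fst_lt_five {s : Σ m : Fin (n + 1), Fin (mu n m)} {s' : Σ m : Fin (n + 1), Fin (mu n m)}
    (h1 : (s.1 : ℕ) = s'.1) (h2 : (s.2 : ℕ) = s'.2) : s = s' := by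
  obtain ⟨m, k⟩ := s
  obtain ⟨m', k'⟩ := s'
  have : m = m' := Fin.ext h1
  subst this
  have : k = k' := Fin.ext h2
  subst this
  rfl

lemma DeltaZ_ne (hn : 4 ≤ n) : DeltaZ hn (z0 n) ≠ 0 := by
  unfold DeltaZ
  have hd : (fun j => dcf (rc (z0 n) (e5 hn j))) = fun j => dcf (bR j) := by
    funext j; rw [rc_e5]
  have hg : (fun j => gc (z0 n) (e5 hn j)) = bG := by
    funext j; rw [gc_e5]
  rw [hd, hg]
  refine mul_ne_zero (mul_ne_zero (mul_ne_zero (mul_ne_zero (mul_ne_zero (mul_ne_zero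
    (mul_ne_zero (mul_ne_zero ?_ ?_) ?_) ?_) ?_) ?_) ?_) ?_) ?_
  · have : ∀ l, ∀ l' ∈ Finset.univ.erase l, t0 l - t0 l' ≠ 0 := by decide
    exact Finset.prod_ne_zero_iff.mpr fun l _ => Finset.prod_ne_zero_iff.mpr (this l)
  · have : ∀ l, l0 l ≠ 0 := by decide
    exact Finset.prod_ne_zero_iff.mpr fun l _ => this l
  · refine Finset.prod_ne_zero_iff.mpr fun s _ => Finset.prod_ne_zero_iff.mpr fun l _ => ?_
    have hta : ta (z0 n) l = t0 l := rfl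
    rw [hta]
    rcases z_cases hn s with ⟨j, k, -, -, h⟩ | ⟨h1, h2, h⟩
    · rw [h]
      have : ∀ (j : Fin 5) (k : Fin 2) (l : Fin 7), bR j k - t0 l ≠ 0 := by decide
      exact this j k l
    · rw [h]
      have := t0_le l
      omega
  · refine Finset.prod_ne_zero_iff.mpr fun s _ => Finset.prod_ne_zero_iff.mpr fun s' hs' => ?_
    have hne : s' ≠ s := (Finset.mem_erase.mp hs').1
    rcases z_cases hn s with ⟨j, k, e1, e2, h⟩ | ⟨h1, h2, h⟩
    · rcases z_cases hn s' with ⟨j', k', e1', e2', h'⟩ | ⟨h1', h2', h'⟩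
      · rw [h, h']
        have : ∀ (j : Fin 5) (k : Fin 2) (j' : Fin 5) (k' : Fin 2), bR j k - bR j' k' = 0 →
          j' = j ∧ k' = k := by decide
        intro h0
        obtain ⟨a1, a2⟩ := this j k j' k' h0
        apply hne
        apply fst_lt_five
        · rw [e1, e1', a1]
        · rw [e2, e2', a2]
      · rw [h, h']
        have := bR_le j k k.2
        omega
    · rcases z_cases hn s' with ⟨j', k', e1', e2', h'⟩ | ⟨h1', h2', h'⟩
      · rw [h, h']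
        have := bR_le j' k' k'.2
        omega
      · rw [h, h']
        intro h0
        apply hne
        apply fst_lt_five
        · omega
        · omega
  · refine Finset.prod_ne_zero_iff.mpr fun s _ => ?_
    obtain ⟨m, k⟩ := s
    rcases lt_or_ge hn m with ⟨j, rfl⟩ | h
    · rw [Gev_e5]
      rcases z_cases hn ⟨e5 hn j, k⟩ with ⟨j', k', e1, e2, h⟩ | ⟨h1, h2, h⟩
      · rw [h]
        have hjj : j = j' := Fin.ext e1
        subst hjj
        have : ∀ (j : Fin 5) (k : Fin 2),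
          bG j 0 + bG j 1 * bR j k + bG j 2 * bR j k ^ 2 ≠ 0 := by decide
        exact this j k'
      · exfalso
        have : ((e5 hn j : Fin (n + 1)) : ℕ) < 5 := j.2
        simp only at h1
        omega
    · rw [Gev_ge h]
      rcases z_cases hn ⟨m, k⟩ with ⟨j', k', e1, e2, h'⟩ | ⟨h1, h2, h'⟩
      · exfalso
        have := j'.2
        simp only at e1
        omega
      · rw [h']
        simp only at h1 h2 ⊢
        obtain ⟨s, hs⟩ : ∃ s : ℕ, 3 * ((m : ℕ) : ℤ) = (s : ℤ) + 11 := ⟨3 * (m : ℕ) - 11, by omega⟩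
        have hk : (k : ℕ) = 0 ∨ (k : ℕ) = 1 ∨ (k : ℕ) = 2 := by omega
        rw [hs]
        unfold Gf
        rcases hk with hk | hk | hk
        · rw [hk]; exact gf_ne0 s
        · rw [hk]; exact gf_ne1 s
        · rw [hk]; exact gf_ne2 s
  · rw [gc_e5]; decide
  · exact M1_det
  · exact M2_det
  · exact Finset.prod_ne_zero_iff.mpr fun i _ => by
      have := M3_det i
      have h1 : ∀ i, t0 (la i) = ![2, -3, 0] i := by decide
      have h2 : ∀ i, t0 (lb i) = ![-1, 4, 5] i := by decide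
      have h3 : ta (z0 n) (la i) = ![2, -3, 0] i := h1 i
      have h4 : ta (z0 n) (lb i) = ![-1, 4, 5] i := h2 i
      rw [h3, h4]
      exact this

/-- the example over the complex numbers -/
def zc (n : ℕ) : RR n → ℂ := fun s => Int.castRingHom ℂ (z0 n s)

lemma good_zc (hn : 4 ≤ n) : Good hn (zc n) := by
  rw [good_iff]
  unfold zc
  rw [map_DeltaZ (Int.castRingHom ℂ) hn (z0 n)]
  simpa using DeltaZ_ne hn

def ll : Fin 4 → Fin 7 := ![0, 2, 4, 6]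

/-- the points of the example -/
noncomputable def P0 (n : ℕ) : Fin 4 × Fin (n + 1) → ℂ := fun s => Phi (zc n) (ll s.1, s.2)

lemma Phi_la_lb (hn : 4 ≤ n) (m : Fin (n + 1)) (i : Fin 3) :
    Phi (zc n) (lb i, m) = Phi (zc n) (la i, m) := by
  unfold Phi
  rw [div_eq_div_iff (den_ne (good_zc hn) (lb i, m)) (den_ne (good_zc hn) (la i, m))]
  have h := congrArg (Int.castRingHom ℂ) (rel hn m i)
  rw [map_mul, map_mul, map_mul, map_mul, ← map_Gev, ← map_Gev, ← map_Dev, ← map_Dev] at h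
  exact h.symm

lemma EE_zc (hn : 4 ≤ n) (q : Fin 7 × Fin (n + 1)) : EE (P0 n) (zc n) q = 0 := by
  rw [EE_iff (good_zc hn)]
  obtain ⟨l, m⟩ := q
  unfold P0
  fin_cases l
  · rfl
  · exact Phi_la_lb hn m 0
  · rfl
  · exact Phi_la_lb hn m 1
  · rfl
  · exact Phi_la_lb hn m 2
  · rfl

end Pool.Agent.H403R3
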