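import Pool.Agent.H403R3.CurveData

/-!
# The strict transform
-/

open Polynomial

namespace Pool.Agent.H403R3

section LocalLemmas

variable {n : ℕ}

lemma leib0 {m e δ : ℕ} (hm : m + e = δ) (h w : ℂ[X]) :
    der0 δ (h * w) = der0 m h * w + h * der0 e w := by
  subst hm
  unfold der0
  rw [derivative_mul]
  push_cast
  rw [C_add]
  ring

lemma der0_add (δ : ℕ) (φ ψ : ℂ[X]) : der0 δ (φ + ψ) = der0 δ φ + der0 δ ψ := by
  unfold der0; rw [derivative_add]; ring

lemma der0_C_mul (δ : ℕ) (c : ℂ) (φ : ℂ[X]) : der0 δ (C c * φ) = C c * der0 δ φ := by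
  unfold der0; rw [derivative_C_mul]; ring

lemma vhev_comb {d : ℕ} {f w : Fin (n + 1) → ℂ[X]} {h U : ℂ[X]} {q : Vec n} {m e : ℕ}
    (hme : m + e = d) (hh : h.natDegree ≤ m) (hw : ∀ j, (w j).natDegree ≤ e)
    (heq : ∀ j, f j = h * w j + C (q j) * U) (a : Fin 2 → ℂ) :
    vhev d f a = hev m h a • vhev e w a + hev d U a • q := by
  funext j
  simp only [vhev, Pi.add_apply, Pi.smul_apply, smul_eq_mul]
  rw [heq j, hev_add, hev_C_mul, hev_mul' hme hh (hw j)]
  ring

lemma vhev_comb_der0 {d : ℕ} {f w : Fin (n + 1) → ℂ[X]} {h U : ℂ[X]} {q : Vec n} {m e : ℕ}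
    (hme : m + e = d) (hm : 1 ≤ m) (he : 1 ≤ e) (hh : h.natDegree ≤ m)
    (hw : ∀ j, (w j).natDegree ≤ e)
    (heq : ∀ j, f j = h * w j + C (q j) * U) (a : Fin 2 → ℂ) :
    vhev (d - 1) (fun j => der0 d (f j)) a = hev (m - 1) (der0 m h) a • vhev e w a +
      hev m h a • vhev (e - 1) (fun j => der0 e (w j)) a + hev (d - 1) (der0 d U) a • q := by
  funext j
  simp only [vhev, Pi.add_apply, Pi.smul_apply, smul_eq_mul]
  rw [heq j, der0_add, der0_C_mul, leib0 hme, hev_add, hev_add, hev_C_mul,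
    hev_mul' (show (m - 1) + e = d - 1 by omega) (natDegree_der0 hh) (hw j),
    hev_mul' (show m + (e - 1) = d - 1 by omega) hh (natDegree_der0 (hw j))]
  ring

lemma natDegree_derivative_le' {d : ℕ} {φ : ℂ[X]} (h : φ.natDegree ≤ d) :
    (derivative φ).natDegree ≤ d - 1 :=
  (natDegree_derivative_le _).trans (Nat.sub_le_sub_right h 1)

lemma vhev_comb_der1 {d : ℕ} {f w : Fin (n + 1) → ℂ[X]} {h U : ℂ[X]} {q : Vec n} {m e : ℕ}
    (hme : m + e = d) (hm : 1 ≤ m) (he : 1 ≤ e) (hh : h.natDegree ≤ m)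
    (hw : ∀ j, (w j).natDegree ≤ e)
    (heq : ∀ j, f j = h * w j + C (q j) * U) (a : Fin 2 → ℂ) :
    vhev (d - 1) (fun j => derivative (f j)) a = hev (m - 1) (derivative h) a • vhev e w a +
      hev m h a • vhev (e - 1) (fun j => derivative (w j)) a +
      hev (d - 1) (derivative U) a • q := by
  funext j
  simp only [vhev, Pi.add_apply, Pi.smul_apply, smul_eq_mul]
  rw [heq j, derivative_add, derivative_C_mul, derivative_mul, hev_add, hev_add, hev_C_mul,
    hev_mul' (show (m - 1) + e = d - 1 by omega) (natDegree_derivative_le' hh) (hw j),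
    hev_mul' (show m + (e - 1) = d - 1 by omega) hh (natDegree_derivative_le' (hw j))]
  ring

end LocalLemmas

variable {n s : ℕ} {p : Fin s → Vec n} {Q : Type} [Fintype Q] [DecidableEq Q] {pt : Q → Fin s}
  {δ : ℕ}

namespace CurveData

/-- the contact parameters of the `i`-th point -/
def nd (_ : CurveData p Q pt δ) (i : Fin s) : Finset Q := Finset.univ.filter (fun q => pt q = i)

/-- the polynomial with simple zeros at the contact parameters -/
noncomputable def h (c : CurveData p Q pt δ) (i : Fin s) : ℂ[X] :=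
  ∏ q ∈ c.nd i, (X - C (c.t q))

/-- the multiplicity of the `i`-th point -/
def m (c : CurveData p Q pt δ) (i : Fin s) : ℕ := (c.nd i).card

variable (c : CurveData p Q pt δ)

lemma m_lt (i : Fin s) : c.m i < δ := c.mult_lt i

lemma m_pos (i : Fin s) : 1 ≤ c.m i := by
  obtain ⟨q, hq⟩ := c.surj i
  exact Finset.card_pos.mpr ⟨q, by simp [nd, hq]⟩

lemma natDegree_h (i : Fin s) : (c.h i).natDegree = c.m i := natDegree_nodes _ _

lemma mem_nd {i : Fin s} {q : Q} : q ∈ c.nd i ↔ pt q = i := by simp [nd]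

lemma eval_h_nd {q : Q} : (c.h (pt q)).eval (c.t q) = 0 := by
  unfold h
  rw [eval_prod]
  exact Finset.prod_eq_zero (c.mem_nd.mpr rfl) (by simp)

lemma eval_h_eq_zero {i : Fin s} {x : ℂ} (hx : (c.h i).eval x = 0) : ∃ q, pt q = i ∧ x = c.t q := by
  unfold h at hx
  rw [eval_prod, Finset.prod_eq_zero_iff] at hx
  obtain ⟨q, hq, h0⟩ := hx
  exact ⟨q, c.mem_nd.mp hq, by simpa [sub_eq_zero] using h0⟩

lemma eval_derivative_h_nd (q : Q) : (derivative (c.h (pt q))).eval (c.t q) ≠ 0 := by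
  unfold h
  have hq : q ∈ c.nd (pt q) := c.mem_nd.mpr rfl
  rw [← Finset.mul_prod_erase _ _ hq, derivative_mul, eval_add, eval_mul, eval_mul]
  simp only [derivative_sub, derivative_X, derivative_C, sub_zero, eval_one, one_mul, eval_sub,
    eval_X, eval_C, sub_self, zero_mul, add_zero]
  rw [eval_prod, Finset.prod_ne_zero_iff]
  intro q' hq'
  simp only [eval_sub, eval_X, eval_C]
  rw [sub_ne_zero]
  exact fun h => (Finset.mem_erase.mp hq').1 (c.t_inj h).symm

/-- the polynomials giving the strict transform -/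
structure Ext (c : CurveData p Q pt δ) where
  U : Fin s → ℂ[X]
  w : Fin s → Fin (n + 1) → ℂ[X]
  hU : ∀ i, (U i).natDegree ≤ δ
  hw : ∀ i j, (w i j).natDegree ≤ δ - c.m i
  eq : ∀ i j, c.f j = c.h i * w i j + C (p i j) * U i

lemma exists_ext : Nonempty c.Ext := by
  have key : ∀ i, ∃ (U : ℂ[X]) (w : Fin (n + 1) → ℂ[X]), U.natDegree ≤ δ ∧
      (∀ j, (w j).natDegree ≤ δ - c.m i) ∧ ∀ j, c.f j = c.h i * w j + C (p i j) * U := by
    intro i
    obtain ⟨U, hU, hUe⟩ := exists_interp (c.nd i) c.t_inj c.u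
    have hUδ : U.natDegree ≤ δ := hU.trans (c.m_lt i).le
    have : ∀ j, ∃ ψ : ℂ[X], ψ.natDegree ≤ δ - c.m i ∧
        c.f j - C (p i j) * U = c.h i * ψ := by
      intro j
      refine exists_div (c.nd i) c.t_inj ?_ ?_
      · refine (natDegree_sub_le _ _).trans (max_le ?_ ?_)
        · have := c.m_lt i
          have h1 := c.deg j
          unfold m at *
          omega
        · refine (natDegree_C_mul_le _ _).trans ?_
          have := c.m_lt i
          unfold m at *
          omega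
      · intro q hq
        have hq' := c.mem_nd.mp hq
        have h1 := congrFun (c.contact q) j
        simp only [vev, Pi.smul_apply, smul_eq_mul, hq'] at h1
        rw [eval_sub, eval_mul, eval_C, hUe q hq, h1]
        ring
    choose w hw hw' using this
    exact ⟨U, w, hUδ, hw, fun j => by linear_combination hw' j⟩
  choose U w hU hw heq using key
  exact ⟨⟨U, w, hU, hw, heq⟩⟩

/-- the point of `ℂ^{n+1}` -/
noncomputable def F (a : Fin 2 → ℂ) : Vec n := vhev δ c.f a

noncomputable def dF0 (a : Fin 2 → ℂ) : Vec n := vhev (δ - 1) (fun j => der0 δ (c.f j)) a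

noncomputable def dF1 (a : Fin 2 → ℂ) : Vec n := vhev (δ - 1) (fun j => derivative (c.f j)) a

include c in
lemma δ_pos : 1 ≤ δ := by
  have := c.num
  have h1 := c.hn
  by_contra h
  have h0 : δ = 0 := by omega
  subst h0
  by_cases hs : Nonempty (Fin s)
  · obtain ⟨i⟩ := hs
    exact absurd (c.m_lt i) (by omega)
  · have hQ : Fintype.card Q = 0 := by
      rw [Fintype.card_eq_zero_iff]
      exact ⟨fun q => hs ⟨pt q⟩⟩
    rw [hQ] at this
    obtain ⟨f0, f1⟩ := c.imm ![1, 0] (pair_ne_zero 0) 1 0 (by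
      funext j
      have : (c.f j).natDegree ≤ 0 := c.deg j
      rw [natDegree_le_iff_degree_le] at this
      obtain ⟨x, hx⟩ : ∃ x, c.f j = C x := ⟨_, eq_C_of_degree_le_zero (by simpa using this)⟩
      simp [vhev, hev, der0, hx])
    exact one_ne_zero f0

lemma F_euler (a : Fin 2 → ℂ) : (δ : ℂ) • c.F a = a 0 • c.dF0 a + a 1 • c.dF1 a := by
  funext j
  simp only [F, dF0, dF1, vhev, Pi.smul_apply, Pi.add_apply, smul_eq_mul]
  exact euler c.δ_pos (c.deg j) a

lemma dF_indep {a : Fin 2 → ℂ} (ha : a ≠ 0) {c₀ c₁ : ℂ} (h : c₀ • c.dF0 a + c₁ • c.dF1 a = 0) :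
    c₀ = 0 ∧ c₁ = 0 := c.imm a ha c₀ c₁ h

lemma F_ne_zero {a : Fin 2 → ℂ} (ha : a ≠ 0) : c.F a ≠ 0 := by
  intro h
  have := c.F_euler a
  rw [h, smul_zero] at this
  obtain ⟨h0, h1⟩ := c.dF_indep ha this.symm
  exact ha (by funext i; fin_cases i <;> simp [h0, h1])

lemma F_one (t : ℂ) : c.F ![1, t] = vev c.f t := vhev_one c.deg t

lemma dF1_one (t : ℂ) : c.dF1 ![1, t] = vev (fun j => derivative (c.f j)) t :=
  vhev_one (fun j => natDegree_derivative_le' (c.deg j)) t

lemma dF0_one (t : ℂ) : c.dF0 ![1, t] = (δ : ℂ) • vev c.f t -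
    t • vev (fun j => derivative (c.f j)) t := by
  have := c.F_euler ![1, t]
  simp only [Matrix.cons_val_zero, Matrix.cons_val_one, one_smul] at this
  rw [c.F_one, c.dF1_one] at this
  rw [this]; abel

/-- `f(t)` and `f'(t)` are linearly independent -/
lemma indep_one (t : ℂ) {x y : ℂ}
    (h : x • vev c.f t + y • vev (fun j => derivative (c.f j)) t = 0) : x = 0 ∧ y = 0 := by
  have hδ : (δ : ℂ) ≠ 0 := by
    have := c.δ_pos
    exact_mod_cast (by omega : δ ≠ 0)
  have h1 : x • c.dF0 ![1, t] + (x * t + δ * y) • c.dF1 ![1, t] = 0 := by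
    rw [c.dF0_one, c.dF1_one]
    have : (δ : ℂ) • (x • vev c.f t + y • vev (fun j => derivative (c.f j)) t) = 0 := by
      rw [h, smul_zero]
    rw [← this]
    module
  obtain ⟨h2, h3⟩ := c.dF_indep (pair_ne_zero t) h1
  refine ⟨h2, ?_⟩
  rw [h2, zero_mul, zero_add] at h3
  exact (mul_eq_zero.mp h3).resolve_left hδ

lemma u_ne (q : Q) : c.u q ≠ 0 := by
  intro h
  have h1 := c.contact q
  rw [h, zero_smul] at h1
  have := c.indep_one (c.t q) (x := 1) (y := 0) (by rw [h1]; simp)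
  exact one_ne_zero this.1

lemma p_mem (q : Q) : p (pt q) = (c.u q)⁻¹ • vev c.f (c.t q) := by
  rw [c.contact, smul_smul, inv_mul_cancel₀ (c.u_ne q), one_smul]

include c in
lemma p_ne_zero (i : Fin s) : p i ≠ 0 := by
  obtain ⟨q, rfl⟩ := c.surj i
  intro h
  have h1 := c.contact q
  rw [h, smul_zero] at h1
  have := c.indep_one (c.t q) (x := 1) (y := 0) (by rw [h1]; simp)
  exact one_ne_zero this.1

/-- if `f(a)` is the point `p i` then `a` is one of the contact parameters -/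
lemma mem_span_p {a : Fin 2 → ℂ} (ha : a ≠ 0) {i : Fin s}
    (h : c.F a ∈ Submodule.span ℂ {p i}) :
    ∃ q, pt q = i ∧ ∃ x : ℂ, x ≠ 0 ∧ a = x • ![1, c.t q] := by
  obtain ⟨q₀, hq₀⟩ := c.surj i
  have h1 : c.F a ∈ Submodule.span ℂ {c.F ![1, c.t q₀]} := by
    rw [Submodule.mem_span_singleton] at h ⊢
    obtain ⟨x, hx⟩ := h
    refine ⟨x * (c.u q₀)⁻¹, ?_⟩
    rw [c.F_one, ← smul_smul, ← c.p_mem, hq₀, hx]
  have ne : ∀ x : ℂ, ∀ b : Fin 2 → ℂ, a = x • b → x ≠ 0 := by
    rintro x b hb rfl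
    exact ha (by rw [hb, zero_smul])
  rcases c.inj _ _ (pair_ne_zero _) ha h1 with ⟨x, hx⟩ | ⟨q, q', hqq, hpt, ⟨x, hx⟩, ⟨y, hy⟩⟩
  · exact ⟨q₀, hq₀, x, ne x _ hx, hx⟩
  · have hx0 := congrFun hx 0
    have hx1 := congrFun hx 1
    simp only [Pi.smul_apply, Matrix.cons_val_zero, Matrix.cons_val_one, smul_eq_mul,
      mul_one] at hx0 hx1
    rw [← hx0, one_mul] at hx1
    have hq := c.t_inj hx1
    exact ⟨q', by rw [← hpt, ← hq, hq₀], y, ne y _ hy, hy⟩

lemma F_mem_span_p_of {q : Q} {i : Fin s} (hq : pt q = i) {x : ℂ} {a : Fin 2 → ℂ}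
    (ha : a = x • ![1, c.t q]) : c.F a ∈ Submodule.span ℂ {p i} := by
  rw [ha]
  unfold F
  rw [vhev_smul_arg, vhev_one c.deg, c.contact, hq]
  exact Submodule.smul_mem _ _ (Submodule.smul_mem _ _ (Submodule.mem_span_singleton_self _))


include c in
lemma p_distinct {i j : Fin s} (hij : i ≠ j) : p j ∉ Submodule.span ℂ {p i} := by
  intro h
  obtain ⟨q, hq⟩ := c.surj j
  have h1 : c.F ![1, c.t q] ∈ Submodule.span ℂ {p i} := by
    rw [c.F_one, c.contact, hq]
    exact Submodule.smul_mem _ _ h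
  obtain ⟨q', hq', x, hx, hxe⟩ := c.mem_span_p (pair_ne_zero _) h1
  have hx0 := congrFun hxe 0
  have hx1 := congrFun hxe 1
  simp only [Pi.smul_apply, Matrix.cons_val_zero, Matrix.cons_val_one, smul_eq_mul,
    mul_one] at hx0 hx1
  rw [← hx0, one_mul] at hx1
  have := c.t_inj hx1
  apply hij
  rw [← hq', ← this, hq]

end CurveData

end Pool.Agent.H403R3
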