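import Mathlib

open Module

namespace Pool.Agent.H403R3

lemma exists_indep {M N U : Type} [AddCommGroup M] [Module ℂ M] [AddCommGroup N] [Module ℂ N]
    [AddCommGroup U] [Module ℂ U] [FiniteDimensional ℂ M] [FiniteDimensional ℂ N]
    [FiniteDimensional ℂ U] (Λ : M →ₗ[ℂ] N) (T : U →ₗ[ℂ] M) (r : ℕ)
    (h : finrank ℂ N + finrank ℂ U + r ≤ finrank ℂ M) :
    ∃ v : Fin r → M, (∀ j, Λ (v j) = 0) ∧
      ∀ x : Fin r → ℂ, ∑ j, x j • v j ∈ LinearMap.range T → x = 0 := by
  let K := LinearMap.ker Λ
  let g : K →ₗ[ℂ] M ⧸ LinearMap.range T := (LinearMap.range T).mkQ ∘ₗ K.subtype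
  have h1 : finrank ℂ (LinearMap.range Λ) + finrank ℂ K = finrank ℂ M :=
    Λ.finrank_range_add_finrank_ker
  have h2 : finrank ℂ (LinearMap.range Λ) ≤ finrank ℂ N := Submodule.finrank_le _
  have h3 : finrank ℂ (LinearMap.range g) + finrank ℂ (LinearMap.ker g) = finrank ℂ K :=
    g.finrank_range_add_finrank_ker
  have h4 : finrank ℂ (LinearMap.ker g) ≤ finrank ℂ U := by
    have e : (LinearMap.ker g).map K.subtype ≤ LinearMap.range T := by
      rintro _ ⟨y, hy, rfl⟩
      have : g y = 0 := hy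
      simpa [g] using this
    calc finrank ℂ (LinearMap.ker g) = finrank ℂ ((LinearMap.ker g).map K.subtype) :=
          (Submodule.finrank_map_subtype_eq _ _).symm
      _ ≤ finrank ℂ (LinearMap.range T) := Submodule.finrank_mono e
      _ ≤ finrank ℂ U := LinearMap.finrank_range_le T
  have h5 : r ≤ finrank ℂ (LinearMap.range g) := by omega
  let b := finBasis ℂ (LinearMap.range g)
  have hb : ∀ j : Fin r, ∃ k : K, g k = (b (Fin.castLE h5 j) : M ⧸ LinearMap.range T) :=
    fun j => (b (Fin.castLE h5 j)).2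
  choose k hk using hb
  refine ⟨fun j => (k j : M), fun j => (k j).2, fun x hx => ?_⟩
  have h6 : g (∑ j, x j • k j) = 0 := by
    have : ((∑ j, x j • k j : K) : M) = ∑ j, x j • (k j : M) := by simp
    simp only [g, LinearMap.comp_apply, Submodule.subtype_apply, this]
    exact (Submodule.Quotient.mk_eq_zero _).mpr hx
  rw [map_sum] at h6
  simp only [map_smul, hk] at h6
  have h7 : ∑ j, x j • b (Fin.castLE h5 j) = 0 := by
    apply Subtype.ext
    simpa using h6
  have h8 : LinearIndependent ℂ (fun j : Fin r => b (Fin.castLE h5 j)) :=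
    b.linearIndependent.comp _ (Fin.castLE_injective h5)
  funext j
  exact Fintype.linearIndependent_iff.mp h8 x h7 j

end Pool.Agent.H403R3
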