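import Pool.Agent.H403R3.Strict
import Pool.Agent.H403R3.LinAlg

/-!
# Sections of the twisted normal bundle
-/

open Polynomial Module

namespace Pool.Agent.H403R3

variable {n s : ℕ} {p : Fin s → Vec n} {Q : Type} [Fintype Q] [DecidableEq Q] {pt : Q → Fin s}
  {δ : ℕ}

namespace CurveData

variable (c : CurveData p Q pt δ)

/-- the tangent plane at a contact point -/
noncomputable def Wq (q : Q) : Submodule ℂ (Vec n) :=
  Submodule.span ℂ {vev c.f (c.t q), vev (fun j => derivative (c.f j)) (c.t q)}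

lemma finrank_Wq (q : Q) : finrank ℂ (c.Wq q) = 2 := by
  have hli : LinearIndependent ℂ ![vev c.f (c.t q), vev (fun j => derivative (c.f j)) (c.t q)] := by
    rw [LinearIndependent.pair_iff]
    intro x y h
    exact c.indep_one _ h
  have h1 := finrank_span_eq_card hli
  have h2 : Set.range ![vev c.f (c.t q), vev (fun j => derivative (c.f j)) (c.t q)] =
      {vev c.f (c.t q), vev (fun j => derivative (c.f j)) (c.t q)} := by
    rw [Matrix.range_cons, Matrix.range_cons, Matrix.range_empty, Set.union_empty,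
      Set.singleton_union]
  rw [h2] at h1
  exact h1.trans (Fintype.card_fin 2)

lemma finrank_quot (q : Q) : finrank ℂ (Vec n ⧸ c.Wq q) = n - 1 := by
  have := Submodule.finrank_quotient_add_finrank (c.Wq q)
  rw [c.finrank_Wq q, finrank_pi, Fintype.card_fin] at this
  omega

/-- evaluation as a linear map -/
noncomputable def evL (d : ℕ) (t : ℂ) : degreeLT ℂ d →ₗ[ℂ] ℂ :=
  (leval t) ∘ₗ (degreeLT ℂ d).subtype

lemma evL_apply (d : ℕ) (t : ℂ) (φ : degreeLT ℂ d) : evL d t φ = (φ : ℂ[X]).eval t := rfl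

noncomputable def Lam : (Fin (n + 1) → degreeLT ℂ (δ + 2)) →ₗ[ℂ] ((q : Q) → Vec n ⧸ c.Wq q) :=
  LinearMap.pi fun q => (c.Wq q).mkQ ∘ₗ
    LinearMap.pi fun j => (evL (δ + 2) (c.t q)) ∘ₗ LinearMap.proj j

lemma mem_degreeLT' {d : ℕ} {φ : ℂ[X]} (h : φ.natDegree ≤ d) : φ ∈ degreeLT ℂ (d + 1) := by
  rw [mem_degreeLT]
  exact lt_of_le_of_lt (natDegree_le_iff_degree_le.mp h) (by exact_mod_cast Nat.lt_succ_self d)

lemma natDegree_of_degreeLT {d : ℕ} (φ : degreeLT ℂ (d + 1)) : (φ : ℂ[X]).natDegree ≤ d := by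
  have := mem_degreeLT.mp φ.2
  by_cases h : (φ : ℂ[X]) = 0
  · rw [h]; simp
  · exact Nat.lt_succ_iff.mp ((natDegree_lt_iff_degree_lt h).mpr this)

noncomputable def Tr : (degreeLT ℂ 3 × degreeLT ℂ 3) →ₗ[ℂ] (Fin (n + 1) → degreeLT ℂ (δ + 2)) where
  toFun B := fun j => ⟨B.1 * der0 δ (c.f j) + B.2 * derivative (c.f j), by
    apply mem_degreeLT'
    have h1 := natDegree_of_degreeLT B.1
    have h2 := natDegree_of_degreeLT B.2
    have hδ := c.δ_pos
    refine natDegree_add_le_of_degree_le ?_ ?_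
    · refine (natDegree_mul_le_of_le h1 (natDegree_der0 (c.deg j))).trans (by omega)
    · refine (natDegree_mul_le_of_le h2 (natDegree_derivative_le' (c.deg j))).trans (by omega)⟩
  map_add' B B' := by
    funext j
    apply Subtype.ext
    simp only [Prod.fst_add, Prod.snd_add, Submodule.coe_add, Pi.add_apply]
    ring
  map_smul' x B := by
    funext j
    apply Subtype.ext
    simp only [Prod.smul_fst, Prod.smul_snd, Submodule.coe_smul, Pi.smul_apply,
      RingHom.id_apply, smul_eq_C_mul]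
    ring

lemma finrank_degreeLT (d : ℕ) : finrank ℂ (degreeLT ℂ d) = d := by
  rw [LinearEquiv.finrank_eq (degreeLTEquiv ℂ d)]
  simp

instance (d : ℕ) : FiniteDimensional ℂ (degreeLT ℂ d) :=
  Module.Finite.equiv (degreeLTEquiv ℂ d).symm

/-- existence of sufficiently many twisted vector fields along the curve -/
lemma exists_fields : ∃ ξ : Fin (n - 1) → Fin (n + 1) → ℂ[X],
    (∀ m j, (ξ m j).natDegree ≤ δ + 1) ∧
    (∀ m q, vev (ξ m) (c.t q) ∈ c.Wq q) ∧
    ∀ x : Fin (n - 1) → ℂ, (∃ B₀ B₁ : ℂ[X], B₀.natDegree ≤ 2 ∧ B₁.natDegree ≤ 2 ∧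
      ∀ j, ∑ m, C (x m) * ξ m j = B₀ * der0 δ (c.f j) + B₁ * derivative (c.f j)) → x = 0 := by
  obtain ⟨v, hv, hx⟩ := exists_indep c.Lam c.Tr (n - 1) (by
    rw [finrank_pi_fintype, finrank_prod, finrank_degreeLT]
    simp only [c.finrank_quot, finrank_pi_fintype, finrank_degreeLT, Finset.sum_const,
      Finset.card_univ, Fintype.card_fin, smul_eq_mul]
    have h1 := c.num
    have h2 := c.hn
    have h3 : Fintype.card Q * (n - 1) = (n - 1) * Fintype.card Q := Nat.mul_comm _ _
    omega)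
  refine ⟨fun m j => (v m j : ℂ[X]), fun m j => natDegree_of_degreeLT (v m j), fun m q => ?_,
    fun x hB => ?_⟩
  · have h1 := congrFun (hv m) q
    simp only [Lam, LinearMap.pi_apply, LinearMap.comp_apply, Pi.zero_apply] at h1
    rw [Submodule.mkQ_apply, Submodule.Quotient.mk_eq_zero] at h1
    exact h1
  · obtain ⟨B₀, B₁, h0, h1, hB⟩ := hB
    apply hx
    refine ⟨(⟨B₀, mem_degreeLT' h0⟩, ⟨B₁, mem_degreeLT' h1⟩), ?_⟩
    funext j
    apply Subtype.ext
    have := hB j
    simp only [Tr, LinearMap.coe_mk, AddHom.coe_mk, Finset.sum_apply, Pi.smul_apply,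
      Submodule.coe_sum, Submodule.coe_smul, smul_eq_C_mul]
    exact this.symm

namespace Ext

variable {c}
variable (E : c.Ext)

/-- the plane at a contact point in terms of the strict transform -/
lemma w_mem (q : Q) : E.W (pt q) ![1, c.t q] ∈ c.Wq q ∧ p (pt q) ∈ c.Wq q := by
  have hp : p (pt q) ∈ c.Wq q := by
    rw [c.p_mem]
    exact Submodule.smul_mem _ _ (Submodule.subset_span (Set.mem_insert _ _))
  refine ⟨?_, hp⟩
  have h5 : vev (fun j => derivative (c.f j)) (c.t q) =
      (derivative (c.h (pt q))).eval (c.t q) • E.W (pt q) ![1, c.t q] +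
        hev (δ - 1) (derivative (E.U (pt q))) ![1, c.t q] • p (pt q) := by
    rw [← c.dF1_one, E.dF1_eq (pt q), E.hh1_one, E.hh_one, c.eval_h_nd]
    module
  have hne := c.eval_derivative_h_nd q
  have h6 : (derivative (c.h (pt q))).eval (c.t q) • E.W (pt q) ![1, c.t q] ∈ c.Wq q := by
    have : (derivative (c.h (pt q))).eval (c.t q) • E.W (pt q) ![1, c.t q] =
        vev (fun j => derivative (c.f j)) (c.t q) -
          hev (δ - 1) (derivative (E.U (pt q))) ![1, c.t q] • p (pt q) := by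
      rw [h5]; abel
    rw [this]
    exact Submodule.sub_mem _ (Submodule.subset_span (Set.mem_insert_of_mem _ rfl))
      (Submodule.smul_mem _ _ hp)
  exact (Submodule.smul_mem_iff _ hne).mp h6

lemma W_one (i : Fin s) (t : ℂ) : E.W i ![1, t] = vev (E.w i) t := vhev_one (E.hw i) t

/-- elements of the plane in terms of the strict transform -/
lemma exists_of_mem {q : Q} {v : Vec n} (hv : v ∈ c.Wq q) :
    ∃ x y : ℂ, v = x • vev (E.w (pt q)) (c.t q) + y • p (pt q) := by
  unfold Wq at hv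
  rw [Submodule.mem_span_pair] at hv
  obtain ⟨x, y, rfl⟩ := hv
  have h5 : vev (fun j => derivative (c.f j)) (c.t q) =
      (derivative (c.h (pt q))).eval (c.t q) • vev (E.w (pt q)) (c.t q) +
        hev (δ - 1) (derivative (E.U (pt q))) ![1, c.t q] • p (pt q) := by
    rw [← E.W_one, ← c.dF1_one, E.dF1_eq (pt q), E.hh1_one, E.hh_one, c.eval_h_nd]
    module
  rw [h5, c.contact]
  refine ⟨y * (derivative (c.h (pt q))).eval (c.t q),
    x * c.u q + y * hev (δ - 1) (derivative (E.U (pt q))) ![1, c.t q], ?_⟩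
  module

/-- a section of the twisted tangent bundle of the blow-up along the curve -/
structure Sec (E : c.Ext) where
  ξ : Fin (n + 1) → ℂ[X]
  η : Fin s → Fin (n + 1) → ℂ[X]
  H : Fin s → ℂ[X]
  L : Fin s → ℂ[X]
  hξ : ∀ j, (ξ j).natDegree ≤ δ + 1
  hη : ∀ i j, (η i j).natDegree ≤ δ - c.m i + 1
  hH : ∀ i, (H i).natDegree ≤ c.m i + 1
  hL : ∀ i, (L i).natDegree ≤ δ + 1
  eq : ∀ i j, ξ j = c.h i * η i j + H i * E.w i j + C (p i j) * L i

lemma exists_sec (ξ : Fin (n + 1) → ℂ[X]) (hξ : ∀ j, (ξ j).natDegree ≤ δ + 1)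
    (hc : ∀ q, vev ξ (c.t q) ∈ c.Wq q) : ∃ S : E.Sec, S.ξ = ξ := by
  have key : ∀ i, ∃ (η : Fin (n + 1) → ℂ[X]) (H L : ℂ[X]),
      (∀ j, (η j).natDegree ≤ δ - c.m i + 1) ∧ H.natDegree ≤ c.m i + 1 ∧ L.natDegree ≤ δ + 1 ∧
      ∀ j, ξ j = c.h i * η j + H * E.w i j + C (p i j) * L := by
    intro i
    have : ∀ q, ∃ x y : ℂ, pt q = i → vev ξ (c.t q) = x • vev (E.w i) (c.t q) + y • p i := by
      intro q
      obtain ⟨x, y, h⟩ := E.exists_of_mem (hc q)
      exact ⟨x, y, fun hq => by rw [h, hq]⟩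
    choose x y hxy using this
    obtain ⟨H, hH, hHe⟩ := exists_interp (c.nd i) c.t_inj x
    obtain ⟨L, hL, hLe⟩ := exists_interp (c.nd i) c.t_inj y
    have hm := c.m_lt i
    have hmd : (c.nd i).card = c.m i := rfl
    have : ∀ j, ∃ ψ : ℂ[X], ψ.natDegree ≤ δ - c.m i + 1 ∧
        ξ j - (H * E.w i j + C (p i j) * L) = c.h i * ψ := by
      intro j
      refine exists_div (c.nd i) c.t_inj ?_ ?_
      · refine (natDegree_sub_le _ _).trans (max_le ?_ ?_)
        · have := hξ j; omega
        · refine natDegree_add_le_of_degree_le ?_ ?_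
          · refine (natDegree_mul_le_of_le hH (E.hw i j)).trans (by omega)
          · refine (natDegree_C_mul_le _ _).trans (by omega)
      · intro q hq
        have h1 := congrFun (hxy q (c.mem_nd.mp hq)) j
        simp only [vev, Pi.smul_apply, Pi.add_apply, smul_eq_mul] at h1
        rw [eval_sub, eval_add, eval_mul, eval_mul, eval_C, hHe q hq, hLe q hq, h1]
        ring
    choose η hη hη' using this
    exact ⟨η, H, L, hη, by omega, by omega, fun j => by linear_combination hη' j⟩
  choose η H L h1 h2 h3 h4 using key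
  exact ⟨⟨ξ, η, H, L, hξ, h1, h2, h3, h4⟩, rfl⟩

namespace Sec

variable {E}

/-- the value of a section at a point -/
noncomputable def val (S : E.Sec) (a : Fin 2 → ℂ) : Vec n × (Fin s → Vec n) :=
  (vhev (δ + 1) S.ξ a, fun i => vhev (δ - c.m i + 1) (S.η i) a)

lemma val_fst (S : E.Sec) (i : Fin s) (a : Fin 2 → ℂ) :
    (S.val a).1 = E.hh i a • (S.val a).2 i + hev (c.m i + 1) (S.H i) a • E.W i a +
      hev (δ + 1) (S.L i) a • p i := by
  funext j
  have hm := c.m_lt i
  simp only [val, vhev, Pi.add_apply, Pi.smul_apply, smul_eq_mul, hh, W]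
  rw [S.eq i j, hev_add, hev_add, hev_C_mul,
    hev_mul' (show c.m i + (δ - c.m i + 1) = δ + 1 by omega) (c.natDegree_h i).le (S.hη i j),
    hev_mul' (show (c.m i + 1) + (δ - c.m i) = δ + 1 by omega) (S.hH i) (E.hw i j)]
  ring

lemma val_mem (S : E.Sec) {a : Fin 2 → ℂ} (ha : a ≠ 0) :
    S.val a ∈ tangentCone p (E.curve.x a) (E.curve.dir a) := by
  intro i α β h
  rw [E.curve_x, E.curve_dir] at *
  simp only at h ⊢
  rw [E.F_eq i] at h
  have h1 := E.W_p_indep (i := i) ha (x := E.hh i a - α) (y := hev δ (E.U i) a - β) (by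
    have : (E.hh i a - α) • E.W i a + (hev δ (E.U i) a - β) • p i =
        (E.hh i a • E.W i a + hev δ (E.U i) a • p i) - (α • E.W i a + β • p i) := by module
    rw [this, h, sub_self])
  have h2 : α = E.hh i a := (sub_eq_zero.mp h1.1).symm
  rw [S.val_fst i a, h2]
  have : E.hh i a • (S.val a).2 i + hev (c.m i + 1) (S.H i) a • E.W i a +
      hev (δ + 1) (S.L i) a • p i - E.hh i a • (S.val a).2 i =
      hev (c.m i + 1) (S.H i) a • E.W i a + hev (δ + 1) (S.L i) a • p i := by module
  rw [this]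
  exact mem_pair _ _

lemma fst_mem_span_iff {V : Type*} [AddCommGroup V] [Module ℂ V] {u v : V} (z : V) :
    z ∈ Submodule.span ℂ {u, v} ↔ ∃ x y : ℂ, z = x • u + y • v := by
  rw [Submodule.mem_span_pair]
  exact ⟨fun ⟨x, y, h⟩ => ⟨x, y, h.symm⟩, fun ⟨x, y, h⟩ => ⟨x, y, h.symm⟩⟩

/-- the key lemma: a section whose value at some point is tangent to the curve is trivial -/
lemma trivial_of_mem (S : E.Sec) {a : Fin 2 → ℂ} (ha : a ≠ 0)
    (h : S.val a ∈ E.curve.tangentLine a) :
    ∃ B₀ B₁ : ℂ[X], B₀.natDegree ≤ 2 ∧ B₁.natDegree ≤ 2 ∧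
      ∀ j, S.ξ j = B₀ * der0 δ (c.f j) + B₁ * derivative (c.f j) := by
  unfold RatCurve.tangentLine at h
  rw [Submodule.mem_sup] at h
  obtain ⟨y, hy, z, hz, hyz⟩ := h
  have hz' : ∃ β₀ β₁ : ℂ, z = β₀ • E.curve.deriv 0 a + β₁ • E.curve.deriv 1 a := by
    rw [Submodule.mem_span_range_iff_exists_fun] at hz
    obtain ⟨c', hc'⟩ := hz
    exact ⟨c' 0, c' 1, by rw [← hc', Fin.sum_univ_two]⟩
  obtain ⟨β₀, β₁, rfl⟩ := hz'
  obtain ⟨hy1, hy2⟩ := hy
  rw [E.curve_x, Submodule.mem_span_singleton] at hy1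
  obtain ⟨α, hα⟩ := hy1
  have hy2' : ∀ i, ∃ κ lam : ℂ, y.2 i = κ • E.W i a + lam • p i := by
    intro i
    have := hy2 i
    rw [E.curve_dir] at this
    exact (fst_mem_span_iff _).mp this
  choose κ lam hκ using hy2'
  rw [E.curve_deriv0, E.curve_deriv1] at hyz
  have hδ := c.δ_pos
  -- the forms
  obtain ⟨B₀, hB₀, hB₀e⟩ := exists_hev_eq 2 ha β₀
  obtain ⟨B₁, hB₁, hB₁e⟩ := exists_hev_eq 2 ha β₁
  obtain ⟨A, hA, hAe⟩ := exists_hev_eq 1 ha α
  have hK : ∀ i, ∃ K : ℂ[X], K.natDegree ≤ 1 ∧ hev 1 K a = κ i :=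
    fun i => exists_hev_eq 1 ha (κ i)
  choose K hK hKe using hK
  have hM : ∀ i, ∃ M : ℂ[X], M.natDegree ≤ δ - c.m i + 1 ∧ hev (δ - c.m i + 1) M a = lam i :=
    fun i => exists_hev_eq _ ha (lam i)
  choose M hM hMe using hM
  -- first component
  have hfac1 : ∀ j, ∃ ψ : ℂ[X], ψ.natDegree ≤ δ ∧
      S.ξ j - (A * c.f j + B₀ * der0 δ (c.f j) + B₁ * derivative (c.f j)) =
        (C (a 0) * X - C (a 1)) * ψ := by
    intro j
    refine exists_factor ?_ ha ?_
    · refine (natDegree_sub_le _ _).trans (max_le (S.hξ j) ?_)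
      refine natDegree_add_le_of_degree_le (natDegree_add_le_of_degree_le ?_ ?_) ?_
      · refine (natDegree_mul_le_of_le hA (c.deg j)).trans (by omega)
      · refine (natDegree_mul_le_of_le hB₀ (natDegree_der0 (c.deg j))).trans (by omega)
      · refine (natDegree_mul_le_of_le hB₁ (natDegree_derivative_le' (c.deg j))).trans (by omega)
    · have h1 := congrFun (congrArg Prod.fst hyz) j
      simp only [Prod.fst_add, Prod.smul_fst, Pi.add_apply, Pi.smul_apply, smul_eq_mul,
        ← hα, val, vhev, F, dF0, dF1] at h1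
      rw [hev_sub, hev_add, hev_add,
        hev_mul' (show 1 + δ = δ + 1 by omega) hA (c.deg j),
        hev_mul' (show 2 + (δ - 1) = δ + 1 by omega) hB₀ (natDegree_der0 (c.deg j)),
        hev_mul' (show 2 + (δ - 1) = δ + 1 by omega) hB₁ (natDegree_derivative_le' (c.deg j)),
        hAe, hB₀e, hB₁e, ← h1]
      ring
  choose ξ' hξ' hξe using hfac1
  have hfac2 : ∀ i j, ∃ ψ : ℂ[X], ψ.natDegree ≤ δ - c.m i ∧
      S.η i j - (K i * E.w i j + C (p i j) * M i + B₀ * der0 (δ - c.m i) (E.w i j) +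
        B₁ * derivative (E.w i j)) = (C (a 0) * X - C (a 1)) * ψ := by
    intro i j
    have hm := c.m_lt i
    refine exists_factor ?_ ha ?_
    · refine (natDegree_sub_le _ _).trans (max_le (S.hη i j) ?_)
      refine natDegree_add_le_of_degree_le (natDegree_add_le_of_degree_le
        (natDegree_add_le_of_degree_le ?_ ?_) ?_) ?_
      · refine (natDegree_mul_le_of_le (hK i) (E.hw i j)).trans (by omega)
      · exact (natDegree_C_mul_le _ _).trans (hM i)
      · refine (natDegree_mul_le_of_le hB₀ (natDegree_der0 (E.hw i j))).trans (by omega)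
      · refine (natDegree_mul_le_of_le hB₁ (natDegree_derivative_le' (E.hw i j))).trans (by omega)
    · have h1 := congrFun (congrFun (congrArg Prod.snd hyz) i) j
      simp only [Prod.snd_add, Prod.smul_snd, Pi.add_apply, Pi.smul_apply, smul_eq_mul,
        hκ, val, vhev, W, dW0, dW1] at h1
      rw [hev_sub, hev_add, hev_add, hev_add, hev_C_mul,
        hev_mul' (show 1 + (δ - c.m i) = δ - c.m i + 1 by omega) (hK i) (E.hw i j),
        hev_mul' (show 2 + (δ - c.m i - 1) = δ - c.m i + 1 by omega) hB₀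
          (natDegree_der0 (E.hw i j)),
        hev_mul' (show 2 + (δ - c.m i - 1) = δ - c.m i + 1 by omega) hB₁
          (natDegree_derivative_le' (E.hw i j)),
        hKe, hMe, hB₀e, hB₁e, ← h1]
      ring
  choose η' hη' hηe using hfac2
  -- the contact conditions for `ξ'`
  have hcon : ∀ q, vev ξ' (c.t q) ∈ c.Wq q := by
    intro q
    set i := pt q with hi
    have hm := c.m_lt i
    have hme : c.m i + (δ - c.m i) = δ := by omega
    set H' : ℂ[X] := S.H i + c.h i * K i - A * c.h i - B₀ * der0 (c.m i) (c.h i) -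
      B₁ * derivative (c.h i) with hH'
    set L' : ℂ[X] := S.L i + c.h i * M i - A * E.U i - B₀ * der0 δ (E.U i) -
      B₁ * derivative (E.U i) with hL'
    have hid : ∀ j, (C (a 0) * X - C (a 1)) * (ξ' j - c.h i * η' i j) =
        H' * E.w i j + C (p i j) * L' := by
      intro j
      have e1 := hξe j
      have e2 := hηe i j
      have e3 : der0 δ (c.f j) = der0 (c.m i) (c.h i) * E.w i j +
          c.h i * der0 (δ - c.m i) (E.w i j) + C (p i j) * der0 δ (E.U i) := by
        rw [E.eq i j, der0_add, der0_C_mul, leib0 hme]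
      have e4 : derivative (c.f j) = derivative (c.h i) * E.w i j +
          c.h i * derivative (E.w i j) + C (p i j) * derivative (E.U i) := by
        rw [E.eq i j, derivative_add, derivative_C_mul, derivative_mul]
      have e5 := E.eq i j
      have e6 := S.eq i j
      rw [hH', hL']
      linear_combination (-1 : ℂ[X]) * e1 + c.h i * e2 + e6 - A * e5 - B₀ * e3 - B₁ * e4
    have hhq : (c.h i).eval (c.t q) = 0 := c.eval_h_nd
    obtain ⟨hw1, hw2⟩ := E.w_mem q
    rw [E.W_one] at hw1
    have hev1 : ∀ j, (a 0 * c.t q - a 1) * (ξ' j).eval (c.t q) =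
        H'.eval (c.t q) * (E.w i j).eval (c.t q) + p i j * L'.eval (c.t q) := by
      intro j
      have := congrArg (eval (c.t q)) (hid j)
      simp only [eval_mul, eval_sub, eval_add, eval_C, eval_X, hhq, zero_mul, sub_zero] at this
      exact this
    by_cases hl : a 0 * c.t q - a 1 = 0
    · have hzero := E.W_p_indep (i := i) (pair_ne_zero (c.t q)) (x := H'.eval (c.t q))
        (y := L'.eval (c.t q)) (by
          rw [E.W_one]
          funext j
          have := hev1 j
          rw [hl, zero_mul] at this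
          simp only [Pi.add_apply, Pi.smul_apply, smul_eq_mul, vev, Pi.zero_apply]
          rw [this]; ring)
      have ha0 : a 0 ≠ 0 := by
        intro h0
        rw [h0, zero_mul, zero_sub, neg_eq_zero] at hl
        exact a1_ne ha h0 hl
      have hev2 : ∀ j, a 0 * (ξ' j).eval (c.t q) =
          (derivative H').eval (c.t q) * (E.w i j).eval (c.t q) +
            p i j * (derivative L').eval (c.t q) := by
        intro j
        have := congrArg (fun φ => eval (c.t q) (derivative φ)) (hid j)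
        simp only [derivative_mul, derivative_sub, derivative_add, derivative_C, derivative_X,
          eval_mul, eval_sub, eval_add, eval_C, eval_X, hhq, hzero.1, hzero.2, eval_zero,
          eval_one, zero_mul, mul_zero, sub_zero, add_zero, zero_add, mul_one] at this
        rw [hl] at this
        simpa using this
      have : vev ξ' (c.t q) = (a 0)⁻¹ • ((derivative H').eval (c.t q) • vev (E.w i) (c.t q) +
          (derivative L').eval (c.t q) • p i) := by
        funext j
        simp only [vev, Pi.add_apply, Pi.smul_apply, smul_eq_mul]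
        have := hev2 j
        field_simp
        linear_combination this
      rw [this]
      exact Submodule.smul_mem _ _ (Submodule.add_mem _ (Submodule.smul_mem _ _ hw1)
        (Submodule.smul_mem _ _ hw2))
    · have : vev ξ' (c.t q) = (a 0 * c.t q - a 1)⁻¹ • (H'.eval (c.t q) • vev (E.w i) (c.t q) +
          L'.eval (c.t q) • p i) := by
        funext j
        simp only [vev, Pi.add_apply, Pi.smul_apply, smul_eq_mul]
        have := hev1 j
        field_simp
        linear_combination this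
      rw [this]
      exact Submodule.smul_mem _ _ (Submodule.add_mem _ (Submodule.smul_mem _ _ hw1)
        (Submodule.smul_mem _ _ hw2))
  obtain ⟨D₀, D₁, hD₀, hD₁, hD⟩ := c.H0 ξ' hξ' hcon
  have hlin : (C (a 0) * X - C (a 1) : ℂ[X]).natDegree ≤ 1 := by
    refine (natDegree_sub_le _ _).trans (max_le ?_ (by simp))
    exact (natDegree_C_mul_le _ _).trans natDegree_X_le
  have hδ0 : (δ : ℂ) ≠ 0 := by exact_mod_cast (by omega : δ ≠ 0)
  have hAδ : (C (δ : ℂ)⁻¹ * A).natDegree ≤ 1 := (natDegree_C_mul_le _ _).trans hA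
  refine ⟨C (δ : ℂ)⁻¹ * A + B₀ + (C (a 0) * X - C (a 1)) * D₀,
    X * (C (δ : ℂ)⁻¹ * A) + B₁ + (C (a 0) * X - C (a 1)) * D₁, ?_, ?_, fun j => ?_⟩
  · refine natDegree_add_le_of_degree_le (natDegree_add_le_of_degree_le (by omega) hB₀) ?_
    exact (natDegree_mul_le_of_le hlin hD₀)
  · refine natDegree_add_le_of_degree_le (natDegree_add_le_of_degree_le ?_ hB₁) ?_
    · exact natDegree_mul_le_of_le natDegree_X_le hAδ
    · exact natDegree_mul_le_of_le hlin hD₁
  · have e1 := hξe j
    have e2 := hD j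
    have e3 : A * c.f j = C (δ : ℂ)⁻¹ * A * der0 δ (c.f j) +
        X * (C (δ : ℂ)⁻¹ * A) * derivative (c.f j) := by
      unfold der0
      have : (C (δ : ℂ)⁻¹ * C (δ : ℂ) : ℂ[X]) = 1 := by
        rw [← C_mul, inv_mul_cancel₀ hδ0, C_1]
      linear_combination (-(A * c.f j)) * this
    linear_combination e1 + (C (a 0) * X - C (a 1)) * e2 + e3

end Sec

end Ext

end CurveData

end Pool.Agent.H403R3
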