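import Mathlib

namespace Pool.Agent.H403R3

/-- The multiplicities `2, 2, 2, 2, 2, 3, …, 3, 2, 2, 2, 1` at the points `p 0, …, p (n + 4)`: five
times `2`, then `n - 4` times `3`, then three times `2`, then `1`. -/
def mult (n : ℕ) (i : Fin (n + 5)) : ℤ :=
  if (i : ℕ) < 5 then 2 else if (i : ℕ) ≤ n then 3 else if (i : ℕ) ≤ n + 3 then 2 else 1

end Pool.Agent.H403R3
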