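import Pool.Agent.H403R3.Minus

/-!
# Coordinate changes of curve data
-/

open Polynomial

namespace Pool.Agent.H403R3

variable {n : ℕ}

/-- the action of a matrix on a vector of polynomials -/
noncomputable def Mf (g : Matrix (Fin (n + 1)) (Fin (n + 1)) ℂ) (f : Fin (n + 1) → ℂ[X]) :
    Fin (n + 1) → ℂ[X] := fun i => ∑ j, C (g i j) * f j

lemma vev_Mf (g : Matrix (Fin (n + 1)) (Fin (n + 1)) ℂ) (f : Fin (n + 1) → ℂ[X]) (t : ℂ) :
    vev (Mf g f) t = g.mulVec (vev f t) := by
  funext i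
  simp only [vev, Mf, Matrix.mulVec, dotProduct, eval_finsetSum, eval_mul, eval_C]

lemma vhev_Mf (d : ℕ) (g : Matrix (Fin (n + 1)) (Fin (n + 1)) ℂ) (f : Fin (n + 1) → ℂ[X])
    (a : Fin 2 → ℂ) : vhev d (Mf g f) a = g.mulVec (vhev d f a) := by
  funext i
  simp only [vhev, Mf, Matrix.mulVec, dotProduct, hev_sum, hev_C_mul]

lemma derivative_Mf (g : Matrix (Fin (n + 1)) (Fin (n + 1)) ℂ) (f : Fin (n + 1) → ℂ[X]) :
    (fun j => derivative (Mf g f j)) = Mf g (fun j => derivative (f j)) := by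
  funext i
  simp only [Mf, derivative_sum, derivative_C_mul]

lemma der0_Mf (d : ℕ) (g : Matrix (Fin (n + 1)) (Fin (n + 1)) ℂ) (f : Fin (n + 1) → ℂ[X]) :
    (fun j => der0 d (Mf g f j)) = Mf g (fun j => der0 d (f j)) := by
  funext i
  simp only [Mf, der0, derivative_sum, derivative_C_mul, Finset.mul_sum,
    ← Finset.sum_sub_distrib]
  refine Finset.sum_congr rfl fun j _ => ?_
  ring

lemma Mf_Mf (g g' : Matrix (Fin (n + 1)) (Fin (n + 1)) ℂ) (h : g * g' = 1)
    (f : Fin (n + 1) → ℂ[X]) : Mf g (Mf g' f) = f := by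
  funext i
  simp only [Mf, Finset.mul_sum]
  rw [Finset.sum_comm]
  have h1 : ∀ k, ∑ j, C (g i j) * (C (g' j k) * f k) = C ((g * g') i k) * f k := by
    intro k
    rw [Matrix.mul_apply, map_sum, Finset.sum_mul]
    refine Finset.sum_congr rfl fun j _ => ?_
    rw [C_mul]; ring
  simp only [h1, h]
  rw [Finset.sum_eq_single i]
  · simp
  · intro k _ hk
    simp [Matrix.one_apply_ne hk.symm]
  · intro h; exact absurd (Finset.mem_univ i) h

lemma Mf_add_mul (g : Matrix (Fin (n + 1)) (Fin (n + 1)) ℂ) (f f' : Fin (n + 1) → ℂ[X])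
    (A B : ℂ[X]) (i : Fin (n + 1)) :
    Mf g (fun j => A * f j + B * f' j) i = A * Mf g f i + B * Mf g f' i := by
  simp only [Mf, Finset.mul_sum, ← Finset.sum_add_distrib]
  refine Finset.sum_congr rfl fun j _ => ?_
  ring

lemma mulVec_inj {g g' : Matrix (Fin (n + 1)) (Fin (n + 1)) ℂ} (h : g' * g = 1) {v w : Vec n}
    (hvw : g.mulVec v = g.mulVec w) : v = w := by
  have := congrArg (g'.mulVec) hvw
  rwa [Matrix.mulVec_mulVec, Matrix.mulVec_mulVec, h, Matrix.one_mulVec,
    Matrix.one_mulVec] at this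

variable {s : ℕ} {p : Fin s → Vec n} {Q : Type} [Fintype Q] [DecidableEq Q] {pt : Q → Fin s}
  {δ : ℕ}

namespace CurveData

/-- coordinate changes -/
noncomputable def transport (c : CurveData p Q pt δ)
    {g g' : Matrix (Fin (n + 1)) (Fin (n + 1)) ℂ} (h : g * g' = 1) (h' : g' * g = 1) :
    CurveData (fun i => g.mulVec (p i)) Q pt δ where
  f := Mf g c.f
  t := c.t
  u := c.u
  deg := fun i => natDegree_sum_le_of_forall_le _ _ fun j _ =>
    (natDegree_C_mul_le _ _).trans (c.deg j)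
  t_inj := c.t_inj
  contact := fun q => by
    rw [vev_Mf, c.contact, Matrix.mulVec_smul]
  surj := c.surj
  mult_lt := c.mult_lt
  imm := by
    intro a ha c₀ c₁ hc
    rw [der0_Mf, derivative_Mf, vhev_Mf, vhev_Mf, ← Matrix.mulVec_smul, ← Matrix.mulVec_smul,
      ← Matrix.mulVec_add] at hc
    exact c.imm a ha c₀ c₁ (mulVec_inj h' (by rw [hc, Matrix.mulVec_zero]))
  inj := by
    intro a b ha hb hab
    refine c.inj a b ha hb ?_
    rw [vhev_Mf, vhev_Mf, Submodule.mem_span_singleton] at hab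
    obtain ⟨x, hx⟩ := hab
    rw [Submodule.mem_span_singleton]
    exact ⟨x, mulVec_inj h' (by rw [Matrix.mulVec_smul, hx])⟩
  dir := by
    intro q q' hqq hpt hmem
    apply c.dir q q' hqq hpt
    rw [derivative_Mf, vev_Mf, vev_Mf, Submodule.mem_span_pair] at hmem
    obtain ⟨x, y, hxy⟩ := hmem
    rw [Submodule.mem_span_pair]
    exact ⟨x, y, mulVec_inj h' (by
      rw [Matrix.mulVec_add, Matrix.mulVec_smul, Matrix.mulVec_smul, hxy])⟩
  H0 := by
    intro ξ hξ hc
    obtain ⟨B₀, B₁, h0, h1, hB⟩ := c.H0 (Mf g' ξ)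
      (fun i => natDegree_sum_le_of_forall_le _ _ fun j _ =>
        (natDegree_C_mul_le _ _).trans (hξ j)) (fun q => by
        have := hc q
        rw [derivative_Mf, vev_Mf, vev_Mf, Submodule.mem_span_pair] at this
        obtain ⟨x, y, hxy⟩ := this
        rw [vev_Mf, Submodule.mem_span_pair]
        refine ⟨x, y, mulVec_inj h' ?_⟩
        rw [Matrix.mulVec_add, Matrix.mulVec_smul, Matrix.mulVec_smul, hxy,
          Matrix.mulVec_mulVec, h, Matrix.one_mulVec])
    refine ⟨B₀, B₁, h0, h1, fun j => ?_⟩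
    have e1 : Mf g (Mf g' ξ) j = ξ j := by rw [Mf_Mf g g' h]
    have e2 : Mf g' ξ = fun j => B₀ * der0 δ (c.f j) + B₁ * derivative (c.f j) := by
      funext j; exact hB j
    rw [← e1, e2, Mf_add_mul]
    have e3 : der0 δ (Mf g c.f j) = Mf g (fun j => der0 δ (c.f j)) j :=
      congrFun (der0_Mf δ g c.f) j
    have e4 : derivative (Mf g c.f j) = Mf g (fun j => derivative (c.f j)) j :=
      congrFun (derivative_Mf g c.f) j
    rw [e3, e4]
  num := c.num
  hn := c.hn

/-- rescaling of the points -/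
def rescale {κ : Fin s → ℂ} (hκ : ∀ i, κ i ≠ 0)
    (c : CurveData (fun i => κ i • p i) Q pt δ) : CurveData p Q pt δ where
  f := c.f
  t := c.t
  u := fun q => c.u q * κ (pt q)
  deg := c.deg
  t_inj := c.t_inj
  contact := fun q => by rw [c.contact, smul_smul]
  surj := c.surj
  mult_lt := c.mult_lt
  imm := c.imm
  inj := c.inj
  dir := by
    intro q q' hqq hpt hmem
    apply c.dir q q' hqq hpt
    rw [Submodule.mem_span_pair] at hmem ⊢
    obtain ⟨x, y, hxy⟩ := hmem
    refine ⟨x, y / κ (pt q), ?_⟩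
    rw [← hxy, smul_smul, div_mul_cancel₀ _ (hκ _)]
  H0 := c.H0
  num := c.num
  hn := c.hn

lemma rescale_m {κ : Fin s → ℂ} (hκ : ∀ i, κ i ≠ 0)
    (c : CurveData (fun i => κ i • p i) Q pt δ) (i : Fin s) :
    (c.rescale hκ).m i = (Finset.univ.filter (fun q => pt q = i)).card := rfl

lemma m_eq (c : CurveData p Q pt δ) (i : Fin s) :
    c.m i = (Finset.univ.filter (fun q => pt q = i)).card := rfl

end CurveData

end Pool.Agent.H403R3
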