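import Pool.Agent.H403R3.Defs

namespace Pool.Agent.H403R3

/-- The Weyl invariant quadratic form on the classes of curves. -/
def quad (n : ℕ) {s : ℕ} (c : ℤ × (Fin s → ℤ)) : ℤ := c.1 ^ 2 - (n - 1) * ∑ i, c.2 i ^ 2

lemma quad_cremona (n : ℕ) {s : ℕ} (Γ : Finset (Fin s)) (c : ℤ × (Fin s → ℤ))
    (h : Γ.card = n + 1) : quad n (cremona n Γ c) = quad n c := by
  unfold quad cremona
  obtain ⟨d, m⟩ := c
  simp only
  set t : ℤ := d - ∑ i ∈ Γ, m i with ht
  have h1 : ∑ i, (if i ∈ Γ then m i + t else m i) ^ 2 =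
      ∑ i, m i ^ 2 + ∑ i ∈ Γ, (2 * t * m i + t ^ 2) := by
    rw [← Finset.sum_filter_add_sum_filter_not Finset.univ (fun i => i ∈ Γ)
      (fun i => (if i ∈ Γ then m i + t else m i) ^ 2),
      ← Finset.sum_filter_add_sum_filter_not Finset.univ (fun i => i ∈ Γ) (fun i => m i ^ 2)]
    have e1 : Finset.univ.filter (fun i => i ∈ Γ) = Γ := by ext; simp
    rw [e1]
    have e2 : ∑ i ∈ Γ, (if i ∈ Γ then m i + t else m i) ^ 2 = ∑ i ∈ Γ, (m i + t) ^ 2 :=
      Finset.sum_congr rfl fun i hi => by rw [if_pos hi]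
    have e3 : ∑ i ∈ Finset.univ.filter (fun i => i ∉ Γ), (if i ∈ Γ then m i + t else m i) ^ 2 =
        ∑ i ∈ Finset.univ.filter (fun i => i ∉ Γ), m i ^ 2 :=
      Finset.sum_congr rfl fun i hi => by rw [if_neg (Finset.mem_filter.mp hi).2]
    rw [e2, e3]
    have e4 : ∑ i ∈ Γ, (m i + t) ^ 2 = ∑ i ∈ Γ, m i ^ 2 + ∑ i ∈ Γ, (2 * t * m i + t ^ 2) := by
      rw [← Finset.sum_add_distrib]
      exact Finset.sum_congr rfl fun i _ => by ring
    rw [e4]; ring
  rw [h1, Finset.sum_add_distrib, ← Finset.mul_sum, Finset.sum_const, h, nsmul_eq_mul]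
  have h2 : ∑ i ∈ Γ, m i = d - t := by rw [ht]; ring
  rw [h2]
  push_cast
  ring

lemma quad_of_orbit {n s : ℕ} {c : ℤ × (Fin s → ℤ)} (h : InWeylOrbit n s c) :
    quad n c = 3 - 2 * n := by
  induction h with
  | line i j hij =>
    unfold quad
    have : ∑ k : Fin s, (if k = i ∨ k = j then (1 : ℤ) else 0) ^ 2 = 2 := by
      have e : ∀ k : Fin s, (if k = i ∨ k = j then (1 : ℤ) else 0) ^ 2 =
          (if k = i then 1 else 0) + (if k = j then 1 else 0) := by
        intro k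
        by_cases h1 : k = i
        · subst h1; simp [hij]
        · by_cases h2 : k = j
          · subst h2; simp [h1]
          · simp [h1, h2]
      simp only [e, Finset.sum_add_distrib, Finset.sum_ite_eq', Finset.mem_univ, if_true]
      norm_num
    simp only [this]
    ring
  | cremona Γ c hΓ _ ih => rw [quad_cremona n Γ c hΓ, ih]

end Pool.Agent.H403R3
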