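import Pool.Agent.H403R3.Generic
import Pool.Agent.H403R3.Transport
import Pool.Agent.H403R3.Weyl
import Pool.Agent.H403R3.Mult

/-!
# The final statement
-/

namespace Pool.Agent.H403R3

variable {n : ℕ}

/-- the matrix with the columns `p 0, …, p n` -/
def colM {R : Type*} (p : Fin (n + 5) → Fin (n + 1) → R) :
    Matrix (Fin (n + 1)) (Fin (n + 1)) R := Matrix.of fun i j => p (iL j) i

lemma colM_single (p : Fin (n + 5) → Vec n) (m : Fin (n + 1)) :
    (colM p).mulVec (Pi.single m 1) = p (iL m) := by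
  funext i
  simp [colM]

/-- the normalised coordinates of the last four points -/
def lastQ {R : Type*} [CommRing R] (p : Fin (n + 5) → Fin (n + 1) → R) (k : Fin 4) :
    Fin (n + 1) → R := (colM p).adjugate.mulVec (p (iR k))

lemma colM_lastQ (p : Fin (n + 5) → Vec n) (k : Fin 4) :
    (colM p).mulVec (lastQ p k) = (colM p).det • p (iR k) := by
  unfold lastQ
  rw [Matrix.mulVec_mulVec, Matrix.mul_adjugate, Matrix.smul_mulVec, Matrix.one_mulVec]

/-- the factors -/
noncomputable def kap' (p : Fin (n + 5) → Vec n) (i : Fin (n + 5)) : ℂ :=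
  if (i : ℕ) < n + 1 then 1 else (colM p).det

lemma colM_nPts (p : Fin (n + 5) → Vec n) :
    (fun i => (colM p).mulVec (nPts (lastQ p) i)) = fun i => kap' p i • p i := by
  funext i
  rcases iL_or_iR i with ⟨m, rfl⟩ | ⟨k, rfl⟩
  · rw [nPts_iL, colM_single]
    have : ((iL m : Fin (n + 5)) : ℕ) < n + 1 := m.2
    unfold kap'
    rw [if_pos this, one_smul]
  · rw [nPts_iR, colM_lastQ]
    have : ¬ ((iR k : Fin (n + 5)) : ℕ) < n + 1 := by simp only [iR]; omega
    unfold kap'
    rw [if_neg this]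

/-- curve data from normalised data -/
lemma exists_curveData (p : Fin (n + 5) → Vec n) (hdet : (colM p).det ≠ 0)
    (N : Norm n (lastQ p)) : Nonempty (CurveData p (QQ n) (ptQ n) (Norm.dg n)) := by
  have hu : IsUnit (colM p).det := isUnit_iff_ne_zero.mpr hdet
  have h1 : colM p * (colM p)⁻¹ = 1 := Matrix.mul_nonsing_inv _ hu
  have h2 : (colM p)⁻¹ * colM p = 1 := Matrix.nonsing_inv_mul _ hu
  have c := N.curveData.transport h1 h2
  rw [colM_nPts] at c
  refine ⟨c.rescale (κ := kap' p) fun i => ?_⟩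
  unfold kap'
  split
  · exact one_ne_zero
  · exact hdet

/-- the polynomial condition on the points -/
noncomputable def condF (F : MvPolynomial (Fin 4 × Fin (n + 1)) ℂ) :
    MvPolynomial (Fin (n + 5) × Fin (n + 1)) ℂ :=
  (colM (fun i j => (MvPolynomial.X (i, j) : MvPolynomial (Fin (n + 5) × Fin (n + 1)) ℂ))).det *
    MvPolynomial.bind₁ (fun s : Fin 4 × Fin (n + 1) =>
      lastQ (fun i j => (MvPolynomial.X (i, j) : MvPolynomial (Fin (n + 5) × Fin (n + 1)) ℂ))
        s.1 s.2) F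

lemma map_colM {R S : Type*} [CommRing R] [CommRing S] (φ : R →+* S)
    (p : Fin (n + 5) → Fin (n + 1) → R) :
    φ.mapMatrix (colM p) = colM (fun i j => φ (p i j)) := by
  ext i j
  rfl

lemma map_lastQ {R S : Type*} [CommRing R] [CommRing S] (φ : R →+* S)
    (p : Fin (n + 5) → Fin (n + 1) → R) (k : Fin 4) (m : Fin (n + 1)) :
    φ (lastQ p k m) = lastQ (fun i j => φ (p i j)) k m := by
  unfold lastQ
  rw [← map_colM, ← RingHom.map_adjugate]
  simp only [Matrix.mulVec, dotProduct, map_sum, map_mul, RingHom.mapMatrix_apply,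
    Matrix.map_apply]

lemma eval_condF (F : MvPolynomial (Fin 4 × Fin (n + 1)) ℂ) (p : Fin (n + 5) → Vec n) :
    MvPolynomial.eval (fun q : Fin (n + 5) × Fin (n + 1) => p q.1 q.2) (condF F) =
      (colM p).det * MvPolynomial.eval (fun s : Fin 4 × Fin (n + 1) => lastQ p s.1 s.2) F := by
  unfold condF
  rw [map_mul, RingHom.map_det, map_colM]
  simp only [MvPolynomial.eval_X]
  congr 1
  rw [MvPolynomial.eval, MvPolynomial.eval₂Hom_bind₁]
  congr 1
  congr 1
  funext s
  have := map_lastQ (MvPolynomial.eval (fun q : Fin (n + 5) × Fin (n + 1) => p q.1 q.2))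
    (fun i j => (MvPolynomial.X (i, j) : MvPolynomial (Fin (n + 5) × Fin (n + 1)) ℂ)) s.1 s.2
  simp only [MvPolynomial.eval_X] at this
  exact this

lemma colM_nPts_one (P : Fin 4 → Vec n) : colM (nPts P) = 1 := by
  ext i j
  simp only [colM, Matrix.of_apply, nPts_iL]
  rw [Matrix.one_apply, Pi.single_apply]

lemma condF_ne {F : MvPolynomial (Fin 4 × Fin (n + 1)) ℂ} (hF : F ≠ 0) : condF F ≠ 0 := by
  intro h
  apply hF
  refine MvPolynomial.funext fun P => ?_
  rw [map_zero]
  have h1 := eval_condF F (nPts fun i m => P (i, m))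
  rw [h, map_zero, colM_nPts_one, Matrix.det_one, one_mul] at h1
  rw [h1]
  congr 1
  congr 1
  funext s
  unfold lastQ
  rw [colM_nPts_one, Matrix.adjugate_one, Matrix.one_mulVec, nPts_iR]

lemma card_eq_mult (hn : 4 ≤ n) (i : Fin (n + 5)) :
    ((Finset.univ.filter (fun q => ptQ n q = i)).card : ℤ) = mult n i := by
  rcases iL_or_iR i with ⟨m, rfl⟩ | ⟨k, rfl⟩
  · rw [card_fiber_iL]
    have hm : ((iL m : Fin (n + 5)) : ℕ) = m := rfl
    unfold mult mu
    rw [hm]
    have := m.2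
    by_cases h : (m : ℕ) < 5
    · simp [h]
    · have h2 : (m : ℕ) ≤ n := by omega
      simp [h, h2]
  · rw [card_fiber_iR, card_fiber_ix]
    have hk : ((iR k : Fin (n + 5)) : ℕ) = n + 1 + k := rfl
    unfold mult
    rw [hk]
    have h1 : ¬ (n + 1 + (k : ℕ) < 5) := by omega
    have h2 : ¬ (n + 1 + (k : ℕ) ≤ n) := by omega
    rw [if_neg h1, if_neg h2]
    by_cases h3 : k = 3
    · subst h3
      have h4 : ¬ (n + 1 + ((3 : Fin 4) : ℕ) ≤ n + 3) := by
        have : ((3 : Fin 4) : ℕ) = 3 := rfl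
        omega
      rw [if_neg h4, if_pos rfl]
      rfl
    · have h4 : n + 1 + (k : ℕ) ≤ n + 3 := by
        have : (k : ℕ) ≠ 3 := fun h => h3 (Fin.ext h)
        have := k.2
        omega
      rw [if_pos h4, if_neg h3]
      rfl

lemma sum_card (n : ℕ) : ∑ i, (Finset.univ.filter (fun q => ptQ n q = i)).card ^ 2 =
    ∑ m, mu n m ^ 2 + 13 := by
  have e : ∀ F : Fin (n + 5) → ℕ, ∑ i, F i = ∑ m : Fin (n + 1), F (iL m) + ∑ k : Fin 4, F (iR k) := by
    intro F
    have := Fin.sum_univ_add (a := n + 1) (b := 4) F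
    exact this
  rw [e]
  simp only [card_fiber_iL, card_fiber_iR, card_fiber_ix]
  congr 1

lemma sum_mu_sq (hn : 4 ≤ n) : ∑ m, mu n m ^ 2 = 9 * n - 16 := by
  unfold mu
  rw [Fin.sum_univ_eq_sum_range (fun m => (if m < 5 then 2 else 3) ^ 2)]
  induction n, hn using Nat.le_induction with
  | base => decide
  | succ n hn ih =>
    rw [Finset.sum_range_succ, ih]
    simp only [show ¬ (n + 1 < 5) by omega, if_false]
    omega

lemma not_orbit (hn : 4 ≤ n) : ¬ InWeylOrbit n (n + 5) (3 * (n : ℤ) - 2, mult n) := by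
  intro h
  have h1 := quad_of_orbit h
  unfold quad at h1
  have h2 : ∑ i, mult n i ^ 2 = 9 * (n : ℤ) - 3 := by
    have h3 := sum_card n
    rw [sum_mu_sq hn] at h3
    have h4 : ∑ i, mult n i ^ 2 =
        ((∑ i, (Finset.univ.filter (fun q => ptQ n q = i)).card ^ 2 : ℕ) : ℤ) := by
      push_cast
      exact Finset.sum_congr rfl fun i _ => by rw [card_eq_mult hn]
    rw [h4, h3]
    omega
  simp only [h2] at h1
  have h5 : (n : ℤ) ≥ 4 := by exact_mod_cast hn
  nlinarith

/-- **Main theorem.** -/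
theorem main (n : ℕ) (hn : 4 ≤ n) :
    Generally n (n + 5) fun p => Distinct p ∧ ∃ γ : RatCurve p, γ.IsMinusOneCurve ∧
      γ.cls = (3 * (n : ℤ) - 2, mult n) ∧ ¬ InWeylOrbit n (n + 5) γ.cls := by
  obtain ⟨F, hF, hFP⟩ := generic_norm hn
  refine ⟨condF F, condF_ne hF, fun p hp => ?_⟩
  rw [eval_condF] at hp
  obtain ⟨N⟩ := hFP _ (right_ne_zero_of_mul hp)
  obtain ⟨c⟩ := exists_curveData p (left_ne_zero_of_mul hp) N
  refine ⟨fun i j hij => c.p_distinct hij, ?_⟩
  obtain ⟨γ, hγ, hcls⟩ := c.exists_minusOneCurve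
  have hcls' : γ.cls = (3 * (n : ℤ) - 2, mult n) := by
    rw [hcls]
    refine Prod.ext ?_ ?_
    · simp only [dg_eq hn]
      omega
    · funext i
      exact card_eq_mult hn i
  refine ⟨γ, hγ, hcls', ?_⟩
  rw [hcls']
  exact not_orbit hn

end Pool.Agent.H403R3
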