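import Mathlib

/-!
# Solutions for an open set of parameters spread out
-/

open MvPolynomial PrimeSpectrum Topology

namespace Pool.Agent.H403R3

/-- a constructible subset of an irreducible affine scheme is generically everything or nothing -/
lemma constructible_generic {A : Type*} [CommRing A] [IsDomain A] {T : Set (PrimeSpectrum A)}
    (hT : IsConstructible T) :
    ∃ F : A, F ≠ 0 ∧ ((∀ x : PrimeSpectrum A, F ∉ x.asIdeal → x ∈ T) ∨
      (∀ x : PrimeSpectrum A, F ∉ x.asIdeal → x ∉ T)) := by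
  induction hT using IsConstructible.empty_union_induction with
  | open_retrocompact U hU _ =>
    by_cases hne : U = ∅
    · exact ⟨1, one_ne_zero, Or.inr fun x _ => by rw [hne]; exact Set.notMem_empty x⟩
    · obtain ⟨x, hx⟩ := Set.nonempty_iff_ne_empty.mpr hne
      obtain ⟨_, ⟨F, rfl⟩, hxF, hFU⟩ :=
        (isTopologicalBasis_basic_opens (R := A)).exists_subset_of_mem_open hx hU
      refine ⟨F, ?_, Or.inl fun y hy => hFU hy⟩
      rintro rfl
      exact hxF (Ideal.zero_mem _)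
  | union s hs t ht h1 h2 =>
    obtain ⟨F1, hF1, h1⟩ := h1
    obtain ⟨F2, hF2, h2⟩ := h2
    rcases h1 with h1 | h1
    · exact ⟨F1, hF1, Or.inl fun x hx => Or.inl (h1 x hx)⟩
    · rcases h2 with h2 | h2
      · exact ⟨F2, hF2, Or.inl fun x hx => Or.inr (h2 x hx)⟩
      · refine ⟨F1 * F2, mul_ne_zero hF1 hF2, Or.inr fun x hx => ?_⟩
        rintro (h | h)
        · exact h1 x (fun h' => hx (Ideal.mul_mem_right _ _ h')) h
        · exact h2 x (fun h' => hx (Ideal.mul_mem_left _ _ h')) h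
  | compl s hs h1 =>
    obtain ⟨F1, hF1, h1⟩ := h1
    rcases h1 with h1 | h1
    · exact ⟨F1, hF1, Or.inr fun x hx h => h (h1 x hx)⟩
    · exact ⟨F1, hF1, Or.inl fun x hx => h1 x hx⟩

/-- the point of the spectrum given by a point of affine space -/
noncomputable def pointOf {σ : Type*} (P : σ → ℂ) : PrimeSpectrum (MvPolynomial σ ℂ) :=
  ⟨RingHom.ker (eval P), RingHom.ker_isPrime _⟩

lemma mem_pointOf {σ : Type*} (P : σ → ℂ) (F : MvPolynomial σ ℂ) :
    F ∈ (pointOf P).asIdeal ↔ eval P F = 0 := RingHom.mem_ker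

lemma exists_eval_ne {σ : Type*} [Finite σ] {U : Set (σ → ℂ)} (hU : IsOpen U) (hne : U.Nonempty)
    {F : MvPolynomial σ ℂ} (hF : F ≠ 0) : ∃ P ∈ U, eval P F ≠ 0 := by
  by_contra hcon
  push Not at hcon
  obtain ⟨P, hP⟩ := hne
  have := Fintype.ofFinite σ
  obtain ⟨ε, hε, hball⟩ := Metric.isOpen_iff.mp hU P hP
  apply hF
  refine funext_set (fun i => Metric.ball (P i) ε) (fun i => ?_) fun x hx => ?_
  · exact infinite_of_mem_nhds (P i) (Metric.ball_mem_nhds _ hε)
  · rw [map_zero]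
    apply hcon
    apply hball
    rw [ball_pi _ hε]
    exact hx

/-- **Spreading out.** -/
theorem spread {σ ρ ι : Type} [Finite σ] [Finite ρ] [Finite ι]
    (E : ι → MvPolynomial (σ ⊕ ρ) ℂ) (Δ : MvPolynomial (σ ⊕ ρ) ℂ)
    {U : Set (σ → ℂ)} (hU : IsOpen U) (hne : U.Nonempty)
    (h : ∀ P ∈ U, ∃ z : ρ → ℂ, (∀ i, eval (Sum.elim P z) (E i) = 0) ∧
      eval (Sum.elim P z) Δ ≠ 0) :
    ∃ F : MvPolynomial σ ℂ, F ≠ 0 ∧ ∀ P, eval P F ≠ 0 →
      ∃ z : ρ → ℂ, (∀ i, eval (Sum.elim P z) (E i) = 0) ∧ eval (Sum.elim P z) Δ ≠ 0 := by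
  set f : MvPolynomial σ ℂ →+* MvPolynomial (σ ⊕ ρ) ℂ :=
    (rename (R := ℂ) (Sum.inl : σ → σ ⊕ ρ)).toRingHom with hf
  have hfp : f.FinitePresentation := by
    apply RingHom.FinitePresentation.of_finiteType.mp
    refine RingHom.FiniteType.of_comp_finiteType (f := (C : ℂ →+* MvPolynomial σ ℂ)) ?_
    have e : f.comp C = (C : ℂ →+* MvPolynomial (σ ⊕ ρ) ℂ) := by
      ext x : 1
      simp [hf]
    rw [e]
    rw [← MvPolynomial.algebraMap_eq, RingHom.finiteType_algebraMap]
    infer_instance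
  set S : Set (PrimeSpectrum (MvPolynomial (σ ⊕ ρ) ℂ)) :=
    zeroLocus (Set.range E) ∩ (basicOpen Δ : Set _) with hS
  have hSc : IsConstructible S := by
    refine IsConstructible.inter ?_ isConstructible_basicOpen
    rw [← isConstructible_compl]
    exact (isRetrocompact_zeroLocus_compl (Set.finite_range _)).isConstructible
      (isClosed_zeroLocus _).isOpen_compl
  obtain ⟨F, hF, hFT⟩ := constructible_generic (isConstructible_comap_image hfp hSc)
  have hev : ∀ (w : σ ⊕ ρ → ℂ) (p : MvPolynomial σ ℂ), eval w (f p) = eval (w ∘ Sum.inl) p := by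
    intro w p
    simp only [hf, AlgHom.toRingHom_eq_coe, RingHom.coe_coe]
    rw [eval_rename]
  refine ⟨F, hF, ?_⟩
  rcases hFT with hFT | hFT
  · intro P hP
    obtain ⟨y, hy, hyx⟩ := hFT (pointOf P) (by rw [mem_pointOf]; exact hP)
    have hΔ : Δ ∉ y.asIdeal := hy.2
    have hE : ∀ i, E i ∈ y.asIdeal := fun i => hy.1 ⟨i, rfl⟩
    have hprime : y.asIdeal.IsPrime := y.2
    have hnull := MvPolynomial.IsPrime.vanishingIdeal_zeroLocus (K := ℂ) y.asIdeal
    rw [← hnull, mem_vanishingIdeal_iff] at hΔ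
    push Not at hΔ
    obtain ⟨w, hw, hwΔ⟩ := hΔ
    rw [mem_zeroLocus_iff] at hw
    have hwP : w ∘ Sum.inl = P := by
      funext s
      have h1 : (X s - C (P s) : MvPolynomial σ ℂ) ∈ (pointOf P).asIdeal := by
        rw [mem_pointOf]; simp
      rw [← hyx] at h1
      have h2 : f (X s - C (P s)) ∈ y.asIdeal := h1
      have h3 := hw _ h2
      have h4 : eval w (f (X s - C (P s))) = 0 := h3
      rw [hev] at h4
      simpa [sub_eq_zero] using h4
    have hwe : Sum.elim P (w ∘ Sum.inr) = w := by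
      rw [← hwP]
      exact Sum.elim_comp_inl_inr w
    refine ⟨w ∘ Sum.inr, fun i => ?_, ?_⟩
    · rw [hwe]
      exact hw _ (hE i)
    · rw [hwe]
      exact hwΔ
  · obtain ⟨P, hP, hPF⟩ := exists_eval_ne hU hne hF
    obtain ⟨z, hz, hzΔ⟩ := h P hP
    exfalso
    refine hFT (pointOf P) (by rw [mem_pointOf]; exact hPF) ?_
    refine ⟨pointOf (Sum.elim P z), ⟨?_, ?_⟩, ?_⟩
    · rintro _ ⟨i, rfl⟩
      exact (mem_pointOf _ _).mpr (hz i)
    · exact fun h => hzΔ ((mem_pointOf _ _).mp h)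
    · apply PrimeSpectrum.ext
      ext p
      have : p ∈ (comap f (pointOf (Sum.elim P z))).asIdeal ↔
          f p ∈ (pointOf (Sum.elim P z)).asIdeal := Iff.rfl
      rw [this, mem_pointOf, mem_pointOf, hev, Sum.elim_comp_inl]

end Pool.Agent.H403R3
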