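import Pool.Agent.H403R3.Example
import Pool.Agent.H403R3.Spread
import Pool.Agent.H403R3.NormData

/-!
# Normalised curves for general points
-/

open Filter Topology

namespace Pool.Agent.H403R3

variable {n : ℕ}

/-- the equations as polynomials -/
noncomputable def Epoly (n : ℕ) (q : Fin 7 × Fin (n + 1)) :
    MvPolynomial ((Fin 4 × Fin (n + 1)) ⊕ RR n) ℂ :=
  EE (fun s => MvPolynomial.X (Sum.inl s)) (fun s => MvPolynomial.X (Sum.inr s)) q

noncomputable def Dpoly {n : ℕ} (hn : 4 ≤ n) : MvPolynomial ((Fin 4 × Fin (n + 1)) ⊕ RR n) ℂ :=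
  DeltaZ hn (fun s => MvPolynomial.X (Sum.inr s))

noncomputable def Dpoly' {n : ℕ} (hn : 4 ≤ n) : MvPolynomial (RR n) ℂ :=
  DeltaZ hn (fun s => MvPolynomial.X s)

lemma eval_Epoly (P : Fin 4 × Fin (n + 1) → ℂ) (z : RR n → ℂ) (q : Fin 7 × Fin (n + 1)) :
    MvPolynomial.eval (Sum.elim P z) (Epoly n q) = EE P z q := by
  unfold Epoly
  rw [← map_EE (MvPolynomial.eval (Sum.elim P z))]
  simp only [MvPolynomial.eval_X, Sum.elim_inl, Sum.elim_inr]

lemma eval_Dpoly (hn : 4 ≤ n) (P : Fin 4 × Fin (n + 1) → ℂ) (z : RR n → ℂ) :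
    MvPolynomial.eval (Sum.elim P z) (Dpoly hn) = DeltaZ hn z := by
  unfold Dpoly
  rw [← map_DeltaZ (MvPolynomial.eval (Sum.elim P z))]
  simp only [MvPolynomial.eval_X, Sum.elim_inr]

lemma eval_Dpoly' (hn : 4 ≤ n) (z : RR n → ℂ) :
    MvPolynomial.eval z (Dpoly' hn) = DeltaZ hn z := by
  unfold Dpoly'
  rw [← map_DeltaZ (MvPolynomial.eval z)]
  simp only [MvPolynomial.eval_X]

lemma isOpen_good (hn : 4 ≤ n) : IsOpen {z : RR n → ℂ | Good hn z} := by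
  have : {z : RR n → ℂ | Good hn z} = {z | MvPolynomial.eval z (Dpoly' hn) ≠ 0} := by
    ext z
    rw [Set.mem_ofPred_eq, Set.mem_ofPred_eq, good_iff, eval_Dpoly']
  rw [this]
  exact isOpen_ne_fun (MvPolynomial.continuous_eval _) continuous_const

theorem generic_norm (hn : 4 ≤ n) : ∃ F : MvPolynomial (Fin 4 × Fin (n + 1)) ℂ, F ≠ 0 ∧
    ∀ P : Fin 4 × Fin (n + 1) → ℂ, MvPolynomial.eval P F ≠ 0 →
      Nonempty (Norm n (fun i m => P (i, m))) := by
  set j : (Fin 4 × Fin (n + 1) → ℂ) → (Fin 7 × Fin (n + 1) → ℂ) :=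
    fun P q => P (ix q.1, q.2) with hj
  have hjc : Continuous j := continuous_pi fun q => continuous_apply _
  have hj0 : j (P0 n) = Phi (zc n) := by
    funext q
    exact ((EE_iff (good_zc hn) (P0 n) q).mp (EE_zc hn q)).symm
  have hE0 : Filter.map Phi (𝓝 (zc n)) = 𝓝 (Phi (zc n)) :=
    Pool.Agent.H403R3.map_nhds (P := fun i m => P0 n (i, m)) (z := zc n)
      (fun q => EE_zc hn q) (good_zc hn)
  have h1 : Phi '' {z : RR n → ℂ | Good hn z} ∈ 𝓝 (Phi (zc n)) := by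
    rw [← hE0]
    exact image_mem_map ((isOpen_good hn).mem_nhds (good_zc hn))
  have h2 : j ⁻¹' (Phi '' {z : RR n → ℂ | Good hn z}) ∈ 𝓝 (P0 n) := by
    apply hjc.continuousAt
    rw [hj0]
    exact h1
  obtain ⟨U, hUsub, hU, hU0⟩ := mem_nhds_iff.mp h2
  obtain ⟨F, hF, hFP⟩ := spread (Epoly n) (Dpoly hn) hU ⟨_, hU0⟩ (by
    intro P hP
    obtain ⟨z, hz, hzP⟩ := hUsub hP
    refine ⟨z, fun q => ?_, ?_⟩
    · rw [eval_Epoly, EE_iff hz]
      exact congrFun hzP q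
    · rw [eval_Dpoly, ← good_iff]
      exact hz)
  refine ⟨F, hF, fun P hP => ?_⟩
  obtain ⟨z, hz, hzD⟩ := hFP P hP
  rw [eval_Dpoly, ← good_iff] at hzD
  exact ⟨toNorm hn (fun q => by rw [← eval_Epoly P z q]; exact hz q) hzD⟩

end Pool.Agent.H403R3
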