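import Pool.Agent.H403R3.ToNorm
import Pool.Agent.H403R3.NormCurve

/-!
# The deformations of a normalised curve
-/

open Polynomial Module Filter Topology

namespace Pool.Agent.H403R3

variable {n : ℕ}

/-- the images of the contact parameters -/
noncomputable def Phi (z : RR n → ℂ) (q : Fin 7 × Fin (n + 1)) : ℂ :=
  Gev z q.2 (ta z q.1) / (lm z q.1 * Dev z q.2 (ta z q.1))

lemma contDiff_gc (m : Fin (n + 1)) (k : ℕ) : ContDiff ℂ 1 fun z : RR n → ℂ => gc z m k := by
  unfold gc
  split
  · exact contDiff_apply _ _ _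
  · exact contDiff_const

lemma contDiff_rc (m : Fin (n + 1)) (k : ℕ) : ContDiff ℂ 1 fun z : RR n → ℂ => rc z m k := by
  unfold rc
  split
  · exact contDiff_apply _ _ _
  · exact contDiff_const

lemma contDiff_ta (l : Fin 7) : ContDiff ℂ 1 fun z : RR n → ℂ => ta z l := contDiff_apply _ _ _

lemma contDiff_lm (l : Fin 7) : ContDiff ℂ 1 fun z : RR n → ℂ => lm z l := contDiff_apply _ _ _

lemma contDiff_num (q : Fin 7 × Fin (n + 1)) :
    ContDiff ℂ 1 fun z : RR n → ℂ => Gev z q.2 (ta z q.1) := by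
  unfold Gev
  exact ContDiff.sum fun k _ => (contDiff_gc _ _).mul ((contDiff_ta _).pow _)

lemma contDiff_den (q : Fin 7 × Fin (n + 1)) :
    ContDiff ℂ 1 fun z : RR n → ℂ => lm z q.1 * Dev z q.2 (ta z q.1) := by
  unfold Dev
  exact (contDiff_lm _).mul (contDiff_prod fun k _ => (contDiff_ta _).sub (contDiff_rc _ _))

lemma Dev_ne {hn : 4 ≤ n} {z : RR n → ℂ} (hG : Good hn z) (m : Fin (n + 1)) (l : Fin 7) :
    Dev z m (ta z l) ≠ 0 := by
  unfold Dev
  rw [Finset.prod_ne_zero_iff]
  intro k hk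
  have hk' := Finset.mem_range.mp hk
  have := hG.r_τ ⟨m, ⟨k, hk'⟩⟩ l
  unfold rc
  rw [dif_pos hk']
  intro h
  apply this
  linear_combination (-1 : ℂ) * h

lemma den_ne {hn : 4 ≤ n} {z : RR n → ℂ} (hG : Good hn z) (q : Fin 7 × Fin (n + 1)) :
    lm z q.1 * Dev z q.2 (ta z q.1) ≠ 0 :=
  mul_ne_zero (hG.lm_ne _) (Dev_ne hG _ _)

lemma contDiffAt_Phi {hn : 4 ≤ n} {z : RR n → ℂ} (hG : Good hn z) : ContDiffAt ℂ 1 Phi z := by
  rw [contDiffAt_pi]
  intro q
  exact ContDiffAt.fun_div (contDiff_num q).contDiffAt (contDiff_den q).contDiffAt (den_ne hG q)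

lemma EE_iff {hn : 4 ≤ n} {z : RR n → ℂ} (hG : Good hn z) (P : Fin 4 × Fin (n + 1) → ℂ)
    (q : Fin 7 × Fin (n + 1)) : EE P z q = 0 ↔ Phi z q = P (ix q.1, q.2) := by
  unfold EE Phi
  rw [div_eq_iff (den_ne hG q), sub_eq_zero]
  constructor
  · intro h; rw [h]; ring
  · intro h; rw [h]; ring

/-! ### The derivative -/

/-- the derivative of the denominator -/
noncomputable def dp (z v : RR n → ℂ) (m : Fin (n + 1)) : ℂ[X] :=
  -∑ k ∈ Finset.range (mu n m), C (rc v m k) *
    ∏ k' ∈ (Finset.range (mu n m)).erase k, (X - C (rc z m k'))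

lemma gc_line (z v : RR n → ℂ) (m : Fin (n + 1)) (k : ℕ) (t : ℂ) :
    gc (z + t • v) m k = gc z m k + t * gc v m k := by
  unfold gc
  split <;> simp

lemma rc_line (z v : RR n → ℂ) (m : Fin (n + 1)) (k : ℕ) (t : ℂ) :
    rc (z + t • v) m k = rc z m k + t * rc v m k := by
  unfold rc
  split <;> simp

lemma ta_line (z v : RR n → ℂ) (l : Fin 7) (t : ℂ) :
    ta (z + t • v) l = ta z l + t * ta v l := by
  simp [ta]

lemma lm_line (z v : RR n → ℂ) (l : Fin 7) (t : ℂ) :
    lm (z + t • v) l = lm z l + t * lm v l := by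
  simp [lm]

lemma hasDeriv_aff (a b : ℂ) : HasDerivAt (fun t : ℂ => a + t * b) b 0 := by
  have := ((hasDerivAt_id (0 : ℂ)).mul_const b).const_add a
  simpa using! this

lemma hasDeriv_G (z v : RR n → ℂ) (m : Fin (n + 1)) (l : Fin 7) :
    HasDerivAt (fun t : ℂ => Gev (z + t • v) m (ta (z + t • v) l))
      ((Gp v m).eval (ta z l) + (derivative (Gp z m)).eval (ta z l) * ta v l) 0 := by
  have h1 : ∀ k ∈ Finset.range (mu n m + 1), HasDerivAt
      (fun t : ℂ => (gc z m k + t * gc v m k) * (ta z l + t * ta v l) ^ k)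
      (gc v m k * (ta z l) ^ k + gc z m k * ((k : ℂ) * (ta z l) ^ (k - 1) * ta v l)) 0 := by
    intro k _
    have := (hasDeriv_aff (gc z m k) (gc v m k)).fun_mul ((hasDeriv_aff (ta z l) (ta v l)).fun_pow k)
    simpa using! this
  have h2 := HasDerivAt.fun_sum h1
  have h3 : (fun t : ℂ => Gev (z + t • v) m (ta (z + t • v) l)) =
      fun t : ℂ => ∑ k ∈ Finset.range (mu n m + 1),
        (gc z m k + t * gc v m k) * (ta z l + t * ta v l) ^ k := by
    funext t
    unfold Gev
    simp only [gc_line, ta_line]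
  rw [h3]
  refine h2.congr_deriv ?_
  rw [Finset.sum_add_distrib]
  congr 1
  · unfold Gp
    rw [eval_finsetSum]
    simp
  · unfold Gp
    rw [derivative_sum, eval_finsetSum, Finset.sum_mul]
    refine Finset.sum_congr rfl fun k _ => ?_
    simp only [derivative_C_mul, derivative_X_pow, eval_mul, eval_C, eval_pow, eval_X]
    ring

lemma hasDeriv_D (z v : RR n → ℂ) (m : Fin (n + 1)) (l : Fin 7) :
    HasDerivAt (fun t : ℂ => Dev (z + t • v) m (ta (z + t • v) l))
      ((dp z v m).eval (ta z l) +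
        (derivative (∏ k, (X - C (rp z m k)) : ℂ[X])).eval (ta z l) * ta v l) 0 := by
  have h1 : ∀ k ∈ Finset.range (mu n m), HasDerivAt
      (fun t : ℂ => (ta z l + t * ta v l) - (rc z m k + t * rc v m k)) (ta v l - rc v m k) 0 :=
    fun k _ => (hasDeriv_aff (ta z l) (ta v l)).fun_sub (hasDeriv_aff (rc z m k) (rc v m k))
  have h2 := HasDerivAt.fun_finsetProd h1
  have h3 : (fun t : ℂ => Dev (z + t • v) m (ta (z + t • v) l)) =
      fun t : ℂ => ∏ k ∈ Finset.range (mu n m),
        ((ta z l + t * ta v l) - (rc z m k + t * rc v m k)) := by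
    funext t
    unfold Dev
    simp only [rc_line, ta_line]
  rw [h3]
  refine h2.congr_deriv ?_
  rw [Dp_eq, derivative_prod_finset, dp, eval_neg, eval_finsetSum, eval_finsetSum,
    Finset.sum_mul, ← Finset.sum_neg_distrib, ← Finset.sum_add_distrib]
  refine Finset.sum_congr rfl fun k _ => ?_
  simp only [eval_mul, eval_prod, eval_sub, eval_X, eval_C, derivative_sub, derivative_X,
    derivative_C, sub_zero, eval_one, mul_one, zero_mul, add_zero, smul_eq_mul]
  ring

lemma natDegree_dp (z v : RR n → ℂ) (m : Fin (n + 1)) : (dp z v m).natDegree ≤ mu n m := by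
  unfold dp
  rw [natDegree_neg]
  refine natDegree_sum_le_of_forall_le _ _ fun k hk => ?_
  refine (natDegree_C_mul_le _ _).trans ?_
  rw [natDegree_nodes, Finset.card_erase_of_mem hk, Finset.card_range]
  omega

lemma natDegree_Gp (z : RR n → ℂ) (m : Fin (n + 1)) : (Gp z m).natDegree ≤ mu n m := by
  unfold Gp
  refine natDegree_sum_le_of_forall_le _ _ fun k hk => ?_
  exact (natDegree_C_mul_X_pow_le _ _).trans (Nat.lt_succ_iff.mp (Finset.mem_range.mp hk))

section

variable {hn : 4 ≤ n} {P : Fin 4 → Vec n} {z : RR n → ℂ}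
  (hE : ∀ q, EE (fun s => P s.1 s.2) z q = 0) (hG : Good hn z)

include hE hG in
/-- the derivative of `Phi` and the linear conditions -/
lemma kernel_eq {v : RR n → ℂ} (hv : fderiv ℂ Phi z v = 0) (m : Fin (n + 1)) (l : Fin 7) :
    (Gp v m * (toNorm hn hE hG).D m - Gp z m * dp z v m).eval (ta z l) =
      (-ta v l) * ((toNorm hn hE hG).Wr m).eval (ta z l) +
      (lm v l / lm z l) * (Gp z m * (toNorm hn hE hG).D m).eval (ta z l) := by
  set N := toNorm hn hE hG with hN
  have hD : N.D m = ∏ k, (X - C (rp z m k)) := rfl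
  have hWr : N.Wr m = derivative (Gp z m) * N.D m - Gp z m * derivative (N.D m) := rfl
  have hden := den_ne hG (l, m)
  have h1 := (contDiffAt_Phi hG).differentiableAt one_ne_zero
  have h2 : HasDerivAt (fun t : ℂ => z + t • v) v 0 := by
    have := ((hasDerivAt_id (0 : ℂ)).smul_const v).const_add z
    simpa using! this
  have h3 : HasDerivAt (fun t : ℂ => Phi (z + t • v)) 0 0 := by
    have h4 : HasFDerivAt Phi (fderiv ℂ Phi z) (z + (0 : ℂ) • v) := by
      rw [zero_smul, add_zero]; exact h1.hasFDerivAt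
    have := h4.comp_hasDerivAt (0 : ℂ) h2
    rw [hv] at this
    exact this
  have h5 : HasDerivAt (fun t : ℂ => Phi (z + t • v) (l, m)) 0 0 := (hasDerivAt_pi.mp h3) (l, m)
  have hlm : HasDerivAt (fun t : ℂ => lm (z + t • v) l) (lm v l) 0 := by
    simp only [lm_line]
    exact hasDeriv_aff _ _
  have h6 := (hasDeriv_G z v m l).fun_div (hlm.fun_mul (hasDeriv_D z v m l)) (by
    simp only [zero_smul, add_zero]
    exact hden)
  have h7 := h5.unique h6
  simp only [zero_smul, add_zero] at h7
  have h8 := (div_eq_zero_iff.mp h7.symm).resolve_right (pow_ne_zero _ hden)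
  have hev : Gev z m (ta z l) = (Gp z m).eval (ta z l) := (Gp_eval z m _).symm
  have hdv : Dev z m (ta z l) = (N.D m).eval (ta z l) := (Dp_eval z m _).symm
  have hl : lm z l ≠ 0 := hG.lm_ne l
  rw [hWr]
  simp only [eval_mul, eval_sub]
  rw [hev, hdv, ← hD] at h8
  apply mul_left_cancel₀ hl
  have e : lm z l * (lm v l / lm z l) = lm v l := mul_div_cancel₀ _ hl
  linear_combination h8 - (Gp z m).eval (ta z l) * (N.D m).eval (ta z l) * e

/-- the parameters of a kernel element -/
noncomputable def kmap (z : RR n → ℂ) : (RR n → ℂ) →ₗ[ℂ] (Fin 7 → ℂ) × (Fin 7 → ℂ) where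
  toFun v := (fun l => -ta v l, fun l => lm v l / lm z l)
  map_add' u v := by
    refine Prod.ext ?_ ?_
    · funext l; simp [ta]; ring
    · funext l; simp [lm]; ring
  map_smul' c v := by
    refine Prod.ext ?_ ?_
    · funext l; simp [ta]
    · funext l; simp [lm]; ring

include hE hG in
lemma kmap_inj {v : RR n → ℂ} (hv : fderiv ℂ Phi z v = 0) (h0 : kmap z v = 0) : v = 0 := by
  have hy : ∀ l, ta v l = 0 := fun l => neg_eq_zero.mp (congrFun (congrArg Prod.fst h0) l)
  have hz : ∀ l, lm v l = 0 := fun l =>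
    (div_eq_zero_iff.mp (congrFun (congrArg Prod.snd h0) l)).resolve_right (hG.lm_ne l)
  set N := toNorm hn hE hG with hN
  have hpoly : ∀ m, Gp v m * N.D m - Gp z m * dp z v m = 0 := by
    intro m
    refine eq_zero_of_nodes N.τ_inj ?_ fun l => ?_
    · have := mu_le n m
      refine (natDegree_sub_le _ _).trans (max_le ?_ ?_)
      · exact (natDegree_mul_le_of_le (natDegree_Gp v m) (N.natDegree_D m).le).trans (by omega)
      · exact (natDegree_mul_le_of_le (natDegree_Gp z m) (natDegree_dp z v m)).trans (by omega)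
    · have := kernel_eq hE hG hv m l
      rw [hy, hz, neg_zero, zero_mul, zero_div, zero_mul, add_zero] at this
      exact this
  have hr : ∀ m, ∀ k, rc v m k = 0 := by
    intro m k
    by_cases hk : k < mu n m
    · have h1 := congrArg (eval (rc z m k)) (hpoly m)
      have hkm : k ∈ Finset.range (mu n m) := Finset.mem_range.mpr hk
      have hrk : rc z m k = N.r m ⟨k, hk⟩ := by
        unfold rc; rw [dif_pos hk]; rfl
      have hDk : (N.D m).eval (rc z m k) = 0 := by rw [hrk]; exact N.eval_D_r m ⟨k, hk⟩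
      have hGk : (Gp z m).eval (rc z m k) ≠ 0 := by rw [hrk]; exact N.G_ne m ⟨k, hk⟩
      rw [eval_sub, eval_mul, eval_mul, hDk, mul_zero, zero_sub, eval_zero, neg_eq_zero] at h1
      have h2 := (mul_eq_zero.mp h1).resolve_left hGk
      rw [dp, eval_neg, neg_eq_zero, eval_finsetSum, Finset.sum_eq_single k] at h2
      · rw [eval_mul, eval_C, eval_prod] at h2
        refine (mul_eq_zero.mp h2).resolve_right (Finset.prod_ne_zero_iff.mpr ?_)
        intro k' hk'
        obtain ⟨hne, hk'2⟩ := Finset.mem_erase.mp hk'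
        have hk'3 := Finset.mem_range.mp hk'2
        simp only [eval_sub, eval_X, eval_C]
        unfold rc
        rw [dif_pos hk, dif_pos hk'3]
        refine hG.r_r ⟨m, ⟨k, hk⟩⟩ ⟨m, ⟨k', hk'3⟩⟩ ?_
        intro h
        apply hne
        simpa using h
      · intro b _ hb
        rw [eval_mul, eval_prod, Finset.prod_eq_zero (Finset.mem_erase.mpr ⟨hb.symm, hkm⟩),
          mul_zero]
        simp
      · intro h; exact absurd hkm h
    · unfold rc; rw [dif_neg hk]
  have hg : ∀ m, ∀ k, gc v m k = 0 := by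
    intro m k
    have h1 := hpoly m
    have h2 : dp z v m = 0 := by
      unfold dp
      rw [neg_eq_zero]
      exact Finset.sum_eq_zero fun k _ => by rw [hr, C_0, zero_mul]
    rw [h2, mul_zero, sub_zero] at h1
    have h3 := (mul_eq_zero.mp h1).resolve_right (N.monic_D m).ne_zero
    rw [← Gp_coeff, h3, coeff_zero]
  funext s
  rcases s with ⟨m, k⟩ | ⟨m, k⟩ | l | l
  · have := hg m k
    unfold gc at this
    rw [dif_pos k.2] at this
    exact this
  · have := hr m k
    unfold rc at this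
    rw [dif_pos k.2] at this
    exact this
  · exact hy l
  · exact hz l

lemma card_RR (n : ℕ) : Fintype.card (RR n) = 2 * Norm.dg n + (n + 1) + 14 := by
  rw [Fintype.card_sum, Fintype.card_sum, Fintype.card_sum, Fintype.card_sigma,
    Fintype.card_sigma]
  simp only [Fintype.card_fin, Finset.sum_add_distrib, Finset.sum_const, Finset.card_univ,
    smul_eq_mul, mul_one, Norm.dg]
  ring

include hE hG in
lemma range_eq_top : (fderiv ℂ Phi z).range = ⊤ := by
  set N := toNorm hn hE hG with hN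
  set L : (RR n → ℂ) →ₗ[ℂ] (Fin 7 × Fin (n + 1) → ℂ) := (fderiv ℂ Phi z).toLinearMap with hL
  have h1 : finrank ℂ (LinearMap.ker L) ≤ 4 := by
    rw [← N.finrank_ker_AA]
    have hmem : ∀ v : LinearMap.ker L, kmap z v ∈ LinearMap.ker N.AA := by
      intro v
      have hv : fderiv ℂ Phi z (v : RR n → ℂ) = 0 := v.2
      refine N.mem_ker_AA (Nn := fun m => Gp (v : RR n → ℂ) m * N.D m - Gp z m *
        dp z (v : RR n → ℂ) m) (fun m => ?_) fun m l => kernel_eq hE hG hv m l
      have := mu_le n m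
      refine (natDegree_sub_le _ _).trans (max_le ?_ ?_)
      · exact (natDegree_mul_le_of_le (natDegree_Gp _ m) (N.natDegree_D m).le).trans (by omega)
      · exact (natDegree_mul_le_of_le (natDegree_Gp z m) (natDegree_dp z _ m)).trans (by omega)
    refine LinearMap.finrank_le_finrank_of_injective (f := ((kmap z).domRestrict
      (LinearMap.ker L)).codRestrict (LinearMap.ker N.AA) hmem) ?_
    rw [injective_iff_map_eq_zero]
    intro v hv
    apply Subtype.ext
    have hv' : fderiv ℂ Phi z (v : RR n → ℂ) = 0 := v.2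
    exact kmap_inj hE hG hv' (congrArg Subtype.val hv)
  have h2 := L.finrank_range_add_finrank_ker
  rw [finrank_pi, card_RR, dg_eq hn] at h2
  have h3 : LinearMap.range L = ⊤ := by
    apply Submodule.eq_top_of_finrank_eq
    have h4 := Submodule.finrank_le (LinearMap.range L)
    rw [finrank_pi, Fintype.card_prod, Fintype.card_fin, Fintype.card_fin] at h4 ⊢
    omega
  exact h3

include hE hG in
lemma map_nhds : map Phi (𝓝 z) = 𝓝 (Phi z) :=
  ((contDiffAt_Phi hG).hasStrictFDerivAt one_ne_zero).map_nhds_eq_of_surj (range_eq_top hE hG)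

end

end Pool.Agent.H403R3
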