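import Pool.Agent.H403R3.Fields

/-!
# The normal bundle
-/

open Polynomial Module

namespace Pool.Agent.H403R3

section LA

variable {V E : Type*} [AddCommGroup V] [Module ℂ V] [FiniteDimensional ℂ V] [AddCommGroup E]
  [Module ℂ E] [FiniteDimensional ℂ E]

lemma finrank_map_le (T TL : Submodule ℂ E) (ψ : V →ₗ[ℂ] E) (h1 : T ≤ TL ⊔ LinearMap.range ψ)
    (u v : V) (huv : ∀ x y : ℂ, x • u + y • v = 0 → x = 0 ∧ y = 0) (hu : ψ u ∈ TL)
    (hv : ψ v ∈ TL) : finrank ℂ (T.map TL.mkQ) + 2 ≤ finrank ℂ V := by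
  set g : V →ₗ[ℂ] E ⧸ TL := TL.mkQ ∘ₗ ψ with hg
  have h2 : T.map TL.mkQ ≤ LinearMap.range g := by
    refine (Submodule.map_mono h1).trans ?_
    rw [Submodule.map_sup]
    refine sup_le ?_ ?_
    · rintro _ ⟨y, hy, rfl⟩
      have : TL.mkQ y = 0 := by
        rw [Submodule.mkQ_apply]; exact (Submodule.Quotient.mk_eq_zero _).mpr hy
      rw [this]
      exact Submodule.zero_mem _
    · rintro _ ⟨_, ⟨x, rfl⟩, rfl⟩
      exact ⟨x, rfl⟩
  have h3 : finrank ℂ (LinearMap.range g) + finrank ℂ (LinearMap.ker g) = finrank ℂ V :=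
    g.finrank_range_add_finrank_ker
  have h4 : 2 ≤ finrank ℂ (LinearMap.ker g) := by
    have hku : u ∈ LinearMap.ker g := by
      rw [LinearMap.mem_ker, hg, LinearMap.comp_apply, Submodule.mkQ_apply]
      exact (Submodule.Quotient.mk_eq_zero _).mpr hu
    have hkv : v ∈ LinearMap.ker g := by
      rw [LinearMap.mem_ker, hg, LinearMap.comp_apply, Submodule.mkQ_apply]
      exact (Submodule.Quotient.mk_eq_zero _).mpr hv
    have hli : LinearIndependent ℂ ![(⟨u, hku⟩ : LinearMap.ker g), ⟨v, hkv⟩] := by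
      rw [LinearIndependent.pair_iff]
      intro x y h
      apply huv x y
      have := congrArg (Subtype.val) h
      simpa using this
    have := hli.fintype_card_le_finrank
    simpa using this
  have h5 := Submodule.finrank_mono h2
  omega

lemma le_sup_span {r : ℕ} (T TL : Submodule ℂ E) (v : Fin r → E) (hv : ∀ m, v m ∈ T)
    (hli : LinearIndependent ℂ (fun m => TL.mkQ (v m))) (hT : finrank ℂ (T.map TL.mkQ) ≤ r)
    {y : E} (hy : y ∈ T) : ∃ x : Fin r → ℂ, y - ∑ m, x m • v m ∈ TL := by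
  have h1 : Submodule.span ℂ (Set.range fun m => TL.mkQ (v m)) ≤ T.map TL.mkQ := by
    rw [Submodule.span_le]
    rintro _ ⟨m, rfl⟩
    exact ⟨v m, hv m, rfl⟩
  have h2 : finrank ℂ (Submodule.span ℂ (Set.range fun m => TL.mkQ (v m))) = r := by
    rw [finrank_span_eq_card hli, Fintype.card_fin]
  have h3 := Submodule.eq_of_le_of_finrank_le h1 (by rw [h2]; exact hT)
  have h4 : TL.mkQ y ∈ Submodule.span ℂ (Set.range fun m => TL.mkQ (v m)) := by
    rw [h3]; exact ⟨y, hy, rfl⟩
  rw [Submodule.mem_span_range_iff_exists_fun] at h4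
  obtain ⟨x, hx⟩ := h4
  refine ⟨x, ?_⟩
  rw [← Submodule.Quotient.mk_eq_zero, ← Submodule.mkQ_apply, map_sub, map_sum]
  simp only [map_smul]
  rw [hx, sub_self]

end LA

variable {n s : ℕ} {p : Fin s → Vec n} {Q : Type} [Fintype Q] [DecidableEq Q] {pt : Q → Fin s}
  {δ : ℕ}

namespace CurveData

variable {c : CurveData p Q pt δ}

namespace Ext

variable (E : c.Ext)

lemma tangent_iff {a : Fin 2 → ℂ} (ha : a ≠ 0) {v : Vec n × (Fin s → Vec n)}
    (hv : v ∈ tangentCone p (E.curve.x a) (E.curve.dir a)) (i : Fin s) :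
    v.1 - E.hh i a • v.2 i ∈ Submodule.span ℂ {E.W i a, p i} := by
  have := hv i (E.hh i a) (hev δ (E.U i) a) (by rw [E.curve_x, E.curve_dir, E.F_eq i])
  rwa [E.curve_dir] at this

lemma dF0_sub (i : Fin s) (a : Fin 2 → ℂ) :
    c.dF0 a - E.hh i a • E.dW0 i a ∈ Submodule.span ℂ {E.W i a, p i} := by
  rw [E.dF0_eq i]
  have : E.hh0 i a • E.W i a + E.hh i a • E.dW0 i a +
      hev (δ - 1) (der0 δ (E.U i)) a • p i - E.hh i a • E.dW0 i a =
      E.hh0 i a • E.W i a + hev (δ - 1) (der0 δ (E.U i)) a • p i := by module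
  rw [this]
  exact mem_pair _ _

lemma dF1_sub (i : Fin s) (a : Fin 2 → ℂ) :
    c.dF1 a - E.hh i a • E.dW1 i a ∈ Submodule.span ℂ {E.W i a, p i} := by
  rw [E.dF1_eq i]
  have : E.hh1 i a • E.W i a + E.hh i a • E.dW1 i a +
      hev (δ - 1) (derivative (E.U i)) a • p i - E.hh i a • E.dW1 i a =
      E.hh1 i a • E.W i a + hev (δ - 1) (derivative (E.U i)) a • p i := by module
  rw [this]
  exact mem_pair _ _

lemma F_mem (i : Fin s) (a : Fin 2 → ℂ) : c.F a ∈ Submodule.span ℂ {E.W i a, p i} := by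
  rw [E.F_eq i]
  exact mem_pair _ _

lemma finrank_tangent {a : Fin 2 → ℂ} (ha : a ≠ 0) :
    finrank ℂ ((tangentCone p (E.curve.x a) (E.curve.dir a)).map (E.curve.tangentLine a).mkQ) + 2 ≤
      n + 1 := by
  have hvec : finrank ℂ (Vec n) = n + 1 := by
    rw [finrank_pi, Fintype.card_fin]
  have hvert : vertical p (E.curve.x a) (E.curve.dir a) ≤ E.curve.tangentLine a := le_sup_left
  have hder : ∀ k, E.curve.deriv k a ∈ E.curve.tangentLine a := fun k =>
    Submodule.mem_sup_right (Submodule.subset_span ⟨k, rfl⟩)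
  have hd0 := hder 0
  have hd1 := hder 1
  rw [E.curve_deriv0] at hd0
  rw [E.curve_deriv1] at hd1
  have mem_vert : ∀ v : Vec n × (Fin s → Vec n), v.1 ∈ Submodule.span ℂ {c.F a} →
      (∀ i, v.2 i ∈ Submodule.span ℂ {E.W i a, p i}) → v ∈ E.curve.tangentLine a := by
    intro v h1 h2
    apply hvert
    refine ⟨?_, ?_⟩
    · rw [E.curve_x]; exact h1
    · rw [E.curve_dir]; exact h2
  by_cases hA : ∀ i, E.hh i a ≠ 0
  · -- all `hh i a ≠ 0`
    let ψ : Vec n →ₗ[ℂ] Vec n × (Fin s → Vec n) :=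
      LinearMap.prod LinearMap.id (LinearMap.pi fun i => (E.hh i a)⁻¹ • LinearMap.id)
    have hψ : ∀ y, ψ y = (y, fun i => (E.hh i a)⁻¹ • y) := fun y => rfl
    refine (?_ : _ ≤ finrank ℂ (Vec n)).trans hvec.le
    refine finrank_map_le _ _ ψ ?_ (c.dF0 a) (c.dF1 a) (fun x y h => c.dF_indep ha h) ?_ ?_
    · intro v hv
      have h1 := E.tangent_iff ha hv
      have : v = (v - ψ v.1) + ψ v.1 := by abel
      rw [this]
      refine Submodule.add_mem_sup (mem_vert _ ?_ fun i => ?_) ⟨_, rfl⟩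
      · rw [hψ]; simp
      · rw [hψ]
        have h2 : (v - (v.1, fun i => (E.hh i a)⁻¹ • v.1)).2 i =
            -(E.hh i a)⁻¹ • (v.1 - E.hh i a • v.2 i) := by
          simp only [Prod.snd_sub, Pi.sub_apply, smul_sub, smul_smul]
          rw [neg_mul, inv_mul_cancel₀ (hA i), neg_one_smul, neg_smul]
          abel
        rw [h2]
        exact Submodule.smul_mem _ _ (h1 i)
    · have : ψ (c.dF0 a) = (ψ (c.dF0 a) - (c.dF0 a, fun i => E.dW0 i a)) +
        (c.dF0 a, fun i => E.dW0 i a) := by abel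
      rw [this]
      refine Submodule.add_mem _ (mem_vert _ ?_ fun i => ?_) hd0
      · rw [hψ]; simp
      · rw [hψ]
        have h2 : ((c.dF0 a, fun i => (E.hh i a)⁻¹ • c.dF0 a) -
            (c.dF0 a, fun i => E.dW0 i a) : Vec n × (Fin s → Vec n)).2 i =
            (E.hh i a)⁻¹ • (c.dF0 a - E.hh i a • E.dW0 i a) := by
          simp only [Prod.snd_sub, Pi.sub_apply, smul_sub, smul_smul]
          rw [inv_mul_cancel₀ (hA i), one_smul]
        rw [h2]
        exact Submodule.smul_mem _ _ (E.dF0_sub i a)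
    · have : ψ (c.dF1 a) = (ψ (c.dF1 a) - (c.dF1 a, fun i => E.dW1 i a)) +
        (c.dF1 a, fun i => E.dW1 i a) := by abel
      rw [this]
      refine Submodule.add_mem _ (mem_vert _ ?_ fun i => ?_) hd1
      · rw [hψ]; simp
      · rw [hψ]
        have h2 : ((c.dF1 a, fun i => (E.hh i a)⁻¹ • c.dF1 a) -
            (c.dF1 a, fun i => E.dW1 i a) : Vec n × (Fin s → Vec n)).2 i =
            (E.hh i a)⁻¹ • (c.dF1 a - E.hh i a • E.dW1 i a) := by
          simp only [Prod.snd_sub, Pi.sub_apply, smul_sub, smul_smul]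
          rw [inv_mul_cancel₀ (hA i), one_smul]
        rw [h2]
        exact Submodule.smul_mem _ _ (E.dF1_sub i a)
  · -- a contact point
    push Not at hA
    obtain ⟨i₀, hi₀⟩ := hA
    obtain ⟨q, hq, x, hx, hax⟩ := E.hh_eq_zero ha hi₀
    have hne : ∀ i, i ≠ i₀ → E.hh i a ≠ 0 := by
      intro i hi h0
      obtain ⟨q', hq', x', hx', hax'⟩ := E.hh_eq_zero ha h0
      rw [hax] at hax'
      have e0 := congrFun hax' 0
      have e1 := congrFun hax' 1
      simp only [Pi.smul_apply, Matrix.cons_val_zero, Matrix.cons_val_one, smul_eq_mul,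
        mul_one] at e0 e1
      rw [← e0] at e1
      have := c.t_inj (mul_left_cancel₀ hx e1)
      apply hi
      rw [← hq', ← this, hq]
    let ψ : Vec n →ₗ[ℂ] Vec n × (Fin s → Vec n) :=
      LinearMap.prod 0 (LinearMap.single ℂ (fun _ => Vec n) i₀)
    have hψ : ∀ y, ψ y = (0, Pi.single i₀ y) := fun y => rfl
    have hψmem : ∀ y ∈ Submodule.span ℂ {E.W i₀ a, p i₀}, ψ y ∈ E.curve.tangentLine a := by
      intro y hy
      rw [hψ]
      refine mem_vert _ (Submodule.zero_mem _) fun i => ?_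
      by_cases hi : i = i₀
      · subst hi; simpa using hy
      · simp [Pi.single_eq_of_ne hi]
    refine (?_ : _ ≤ finrank ℂ (Vec n)).trans hvec.le
    refine finrank_map_le _ _ ψ ?_ (E.W i₀ a) (p i₀) (fun x y h => E.W_p_indep ha h)
      (hψmem _ (Submodule.subset_span (Set.mem_insert _ _)))
      (hψmem _ (Submodule.subset_span (Set.mem_insert_of_mem _ rfl)))
    intro v hv
    have h1 := E.tangent_iff ha hv
    have h2 := h1 i₀
    rw [hi₀, zero_smul, sub_zero, Submodule.mem_span_pair] at h2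
    obtain ⟨α, β, hαβ⟩ := h2
    have e0 := E.dF0_eq i₀ a
    have e1 := E.dF1_eq i₀ a
    rw [hi₀, zero_smul, add_zero] at e0 e1
    -- one of the derivatives of `hh i₀` does not vanish
    have h3 : ∃ β₀ β₁ : ℂ, β₀ * E.hh0 i₀ a + β₁ * E.hh1 i₀ a = α := by
      by_cases g0 : E.hh0 i₀ a = 0
      · by_cases g1 : E.hh1 i₀ a = 0
        · exfalso
          rw [g0, zero_smul, zero_add] at e0
          rw [g1, zero_smul, zero_add] at e1
          have := c.dF_indep ha (c₀ := hev (δ - 1) (derivative (E.U i₀)) a)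
            (c₁ := -hev (δ - 1) (der0 δ (E.U i₀)) a) (by rw [e0, e1]; module)
          rw [this.1, zero_smul] at e1
          have := c.dF_indep ha (c₀ := 0) (c₁ := 1) (by rw [e1]; simp)
          exact one_ne_zero this.2
        · exact ⟨0, α / E.hh1 i₀ a, by field_simp; ring⟩
      · exact ⟨α / E.hh0 i₀ a, 0, by field_simp; ring⟩
    obtain ⟨β₀, β₁, hβ⟩ := h3
    set d : Vec n × (Fin s → Vec n) := β₀ • (c.dF0 a, fun i => E.dW0 i a) +
      β₁ • (c.dF1 a, fun i => E.dW1 i a) with hd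
    have hdmem : d ∈ E.curve.tangentLine a :=
      Submodule.add_mem _ (Submodule.smul_mem _ _ hd0) (Submodule.smul_mem _ _ hd1)
    have hd1' : d.1 = β₀ • c.dF0 a + β₁ • c.dF1 a := rfl
    have hd2' : ∀ i, d.2 i = β₀ • E.dW0 i a + β₁ • E.dW1 i a := fun i => rfl
    have hFp : p i₀ ∈ Submodule.span ℂ {c.F a} := by
      have : c.F a = (x ^ δ * c.u q) • p i₀ := by
        rw [hax]
        unfold F
        rw [vhev_smul_arg, vhev_one c.deg, c.contact, hq, smul_smul]
      rw [this, Submodule.mem_span_singleton]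
      have hne' : x ^ δ * c.u q ≠ 0 := mul_ne_zero (pow_ne_zero _ hx) (c.u_ne q)
      exact ⟨(x ^ δ * c.u q)⁻¹, by rw [smul_smul, inv_mul_cancel₀ hne', one_smul]⟩
    have h4 : v.1 - d.1 ∈ Submodule.span ℂ {c.F a} := by
      have : v.1 - d.1 = (β - β₀ * hev (δ - 1) (der0 δ (E.U i₀)) a -
          β₁ * hev (δ - 1) (derivative (E.U i₀)) a) • p i₀ := by
        rw [hd1', ← hαβ, e0, e1, ← hβ]
        module
      rw [this]
      exact Submodule.smul_mem _ _ hFp
    have h5 : v = ((v - d - ψ (v.2 i₀ - d.2 i₀)) + d) + ψ (v.2 i₀ - d.2 i₀) := by abel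
    rw [h5]
    refine Submodule.add_mem_sup (Submodule.add_mem _ (mem_vert _ ?_ fun i => ?_) hdmem) ⟨_, rfl⟩
    · rw [hψ]
      simpa using h4
    · rw [hψ]
      by_cases hi : i = i₀
      · subst hi; simp
      · have : (v - d - (0, Pi.single i₀ (v.2 i₀ - d.2 i₀)) : Vec n × (Fin s → Vec n)).2 i =
            v.2 i - d.2 i := by
          simp [Pi.single_eq_of_ne hi]
        rw [this]
        have h6 : E.hh i a • (v.2 i - d.2 i) ∈ Submodule.span ℂ {E.W i a, p i} := by
          have e : E.hh i a • (v.2 i - d.2 i) = (v.1 - d.1) - (v.1 - E.hh i a • v.2 i) +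
              (β₀ • (c.dF0 a - E.hh i a • E.dW0 i a) +
                β₁ • (c.dF1 a - E.hh i a • E.dW1 i a)) := by
            rw [hd1', hd2']
            module
          rw [e]
          refine Submodule.add_mem _ (Submodule.sub_mem _ ?_ (h1 i)) (Submodule.add_mem _
            (Submodule.smul_mem _ _ (E.dF0_sub i a)) (Submodule.smul_mem _ _ (E.dF1_sub i a)))
          have : Submodule.span ℂ {c.F a} ≤ Submodule.span ℂ {E.W i a, p i} := by
            rw [Submodule.span_le, Set.singleton_subset_iff]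
            exact E.F_mem i a
          exact this h4
        exact (Submodule.smul_mem_iff _ (hne i hi)).mp h6

/-- a linear combination of sections -/
noncomputable def Sec.comb {E : c.Ext} {r : ℕ} (S : Fin r → E.Sec) (x : Fin r → ℂ) : E.Sec where
  ξ := fun j => ∑ m, C (x m) * (S m).ξ j
  η := fun i j => ∑ m, C (x m) * (S m).η i j
  H := fun i => ∑ m, C (x m) * (S m).H i
  L := fun i => ∑ m, C (x m) * (S m).L i
  hξ := fun j => natDegree_sum_le_of_forall_le _ _ fun m _ =>
    (natDegree_C_mul_le _ _).trans ((S m).hξ j)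
  hη := fun i j => natDegree_sum_le_of_forall_le _ _ fun m _ =>
    (natDegree_C_mul_le _ _).trans ((S m).hη i j)
  hH := fun i => natDegree_sum_le_of_forall_le _ _ fun m _ =>
    (natDegree_C_mul_le _ _).trans ((S m).hH i)
  hL := fun i => natDegree_sum_le_of_forall_le _ _ fun m _ =>
    (natDegree_C_mul_le _ _).trans ((S m).hL i)
  eq := by
    intro i j
    rw [Finset.mul_sum, Finset.mul_sum, Finset.sum_mul, ← Finset.sum_add_distrib,
      ← Finset.sum_add_distrib]
    refine Finset.sum_congr rfl fun m _ => ?_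
    rw [(S m).eq i j]
    ring

lemma Sec.comb_val {E : c.Ext} {r : ℕ} (S : Fin r → E.Sec) (x : Fin r → ℂ) (a : Fin 2 → ℂ) :
    (Sec.comb S x).val a = ∑ m, x m • (S m).val a := by
  refine Prod.ext ?_ ?_
  · funext j
    rw [Prod.fst_sum, Finset.sum_apply]
    simp only [Sec.val, vhev, Sec.comb, Prod.smul_fst, Pi.smul_apply, smul_eq_mul, hev_sum,
      hev_C_mul]
  · funext i j
    rw [Prod.snd_sum, Finset.sum_apply, Finset.sum_apply]
    simp only [Sec.val, vhev, Sec.comb, Prod.smul_snd, Pi.smul_apply, smul_eq_mul, hev_sum,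
      hev_C_mul]

lemma normalBundle : E.curve.NormalBundleIsMinusOne := by
  obtain ⟨ξ, hξ, hc, hx⟩ := c.exists_fields
  have hS : ∀ m, ∃ S : E.Sec, S.ξ = ξ m := fun m => E.exists_sec (ξ m) (hξ m) (hc m)
  choose S hSe using hS
  refine ⟨fun m j => homog (δ + 1) ((S m).ξ j), fun m i j => homog (δ - c.m i + 1) ((S m).η i j),
    fun m j => homog_isHomogeneous _ _, fun m i j => homog_isHomogeneous _ _, fun a ha => ?_⟩
  have hv1 : (fun m j => MvPolynomial.eval a (homog (δ + 1) ((S m).ξ j)) : Fin (n - 1) → Vec n) =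
      fun m => ((S m).val a).1 := by
    funext m j
    rw [eval_homog]; rfl
  have hv2 : (fun m i j => MvPolynomial.eval a (homog (δ - c.m i + 1) ((S m).η i j)) :
      Fin (n - 1) → Fin s → Vec n) = fun m => ((S m).val a).2 := by
    funext m i j
    rw [eval_homog]; rfl
  rw [hv1, hv2]
  have h1 : ∀ m, (S m).val a ∈ tangentCone p (E.curve.x a) (E.curve.dir a) :=
    fun m => (S m).val_mem ha
  have hcomb : ∀ x : Fin (n - 1) → ℂ, ((comb x fun m => ((S m).val a).1,
      fun i => comb x fun m => ((S m).val a).2 i) : Vec n × (Fin s → Vec n)) =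
        ∑ m, x m • (S m).val a := by
    intro x
    refine Prod.ext ?_ ?_
    · rw [Prod.fst_sum]
      simp only [RatCurve.comb_eq, Prod.smul_fst]
    · rw [Prod.snd_sum]
      funext i
      simp only [RatCurve.comb_eq, Prod.smul_snd, Finset.sum_apply, Pi.smul_apply]
  have h2 : ∀ x : Fin (n - 1) → ℂ, ∑ m, x m • (S m).val a ∈ E.curve.tangentLine a → x = 0 := by
    intro x h0
    rw [← Sec.comb_val] at h0
    obtain ⟨B₀, B₁, hB₀, hB₁, hB⟩ := (Sec.comb S x).trivial_of_mem ha h0
    exact hx x ⟨B₀, B₁, hB₀, hB₁, fun j => by rw [← hB j]; simp only [Sec.comb, hSe]⟩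
  refine ⟨h1, fun x hxa => ?_, fun ζ θ hζ => ?_⟩
  · apply h2
    rw [← hcomb, ← RatCurve.isAlong_iff]
    exact hxa
  · have hli : LinearIndependent ℂ (fun m => (E.curve.tangentLine a).mkQ ((S m).val a)) := by
      rw [Fintype.linearIndependent_iff]
      intro x h0 m
      have h3 : ∑ m, x m • (S m).val a ∈ E.curve.tangentLine a := by
        rw [← Submodule.Quotient.mk_eq_zero, ← Submodule.mkQ_apply, map_sum]
        simp only [map_smul]
        exact h0
      rw [h2 x h3]; rfl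
    obtain ⟨x, hxy⟩ := le_sup_span (tangentCone p (E.curve.x a) (E.curve.dir a)) _ _ h1 hli (by
      have := E.finrank_tangent ha
      have h3 := c.hn
      omega) (y := (ζ, θ)) hζ
    refine ⟨x, ?_⟩
    rw [← hcomb, ← RatCurve.isAlong_iff] at hxy
    exact hxy

end Ext

/-- **Theorem A.** Curve data give a (-1)-curve. -/
theorem exists_minusOneCurve (c : CurveData p Q pt δ) :
    ∃ γ : RatCurve p, γ.IsMinusOneCurve ∧ γ.cls = ((δ : ℤ), fun i => (c.m i : ℤ)) := by
  obtain ⟨E⟩ := c.exists_ext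
  refine ⟨E.curve, ⟨E.curve_isEmbedding, E.normalBundle⟩, ?_⟩
  refine Prod.ext rfl ?_
  funext i
  have := c.m_lt i
  have h1 : E.curve.δ = δ := rfl
  have h2 : E.curve.e i = δ - c.m i := rfl
  simp only [RatCurve.cls]
  rw [h1, h2, Nat.cast_sub this.le]
  ring

end CurveData

end Pool.Agent.H403R3
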