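import Pool.Agent.H403R3.CurveData

/-!
# Normalised data of a rational curve of degree `3 n - 2` with `n + 5` multiple points
-/

open Polynomial Module

namespace Pool.Agent.H403R3

/-- the multiplicities at the coordinate points -/
def mu (n : ℕ) (m : Fin (n + 1)) : ℕ := if (m : ℕ) < 5 then 2 else 3

lemma mu_pos (n : ℕ) (m : Fin (n + 1)) : 2 ≤ mu n m := by unfold mu; split <;> omega

lemma mu_le (n : ℕ) (m : Fin (n + 1)) : mu n m ≤ 3 := by unfold mu; split <;> omega

/-- the first five coordinates -/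
def e5 {n : ℕ} (hn : 4 ≤ n) : Fin 5 → Fin (n + 1) := Fin.castLE (by omega)

lemma mu_e5 {n : ℕ} (hn : 4 ≤ n) (j : Fin 5) : mu n (e5 hn j) = 2 := by
  unfold mu e5
  simp

lemma e5_inj {n : ℕ} (hn : 4 ≤ n) : Function.Injective (e5 hn) := Fin.castLE_injective _

/-- the points of the last seven contacts -/
def ix : Fin 7 → Fin 4 := ![0, 0, 1, 1, 2, 2, 3]

/-- the parameters of the first branches at the double points -/
def la : Fin 3 → Fin 7 := ![0, 2, 4]

/-- the parameters of the second branches at the double points -/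
def lb : Fin 3 → Fin 7 := ![1, 3, 5]

/-- the bilinear form of the coefficients of two quartics -/
noncomputable def cf (K K' : ℂ[X]) (y : Fin 10 → ℂ) : ℂ :=
  (K.coeff 0 * K'.coeff 1 - K.coeff 1 * K'.coeff 0) * y 0 +
  (K.coeff 0 * K'.coeff 2 - K.coeff 2 * K'.coeff 0) * y 1 +
  (K.coeff 0 * K'.coeff 3 - K.coeff 3 * K'.coeff 0) * y 2 +
  (K.coeff 0 * K'.coeff 4 - K.coeff 4 * K'.coeff 0) * y 3 +
  (K.coeff 1 * K'.coeff 2 - K.coeff 2 * K'.coeff 1) * y 4 +
  (K.coeff 1 * K'.coeff 3 - K.coeff 3 * K'.coeff 1) * y 5 +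
  (K.coeff 1 * K'.coeff 4 - K.coeff 4 * K'.coeff 1) * y 6 +
  (K.coeff 2 * K'.coeff 3 - K.coeff 3 * K'.coeff 2) * y 7 +
  (K.coeff 2 * K'.coeff 4 - K.coeff 4 * K'.coeff 2) * y 8 +
  (K.coeff 3 * K'.coeff 4 - K.coeff 4 * K'.coeff 3) * y 9

/-- normalised data -/
structure Norm (n : ℕ) (P : Fin 4 → Vec n) where
  hn : 4 ≤ n
  G : Fin (n + 1) → ℂ[X]
  r : (m : Fin (n + 1)) → Fin (mu n m) → ℂ
  τ : Fin 7 → ℂ
  lam : Fin 7 → ℂ
  degG : ∀ m, (G m).natDegree ≤ mu n m
  contact : ∀ l m, (G m).eval (τ l) = lam l * P (ix l) m * (∏ k, (X - C (r m k))).eval (τ l)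
  τ_inj : Function.Injective τ
  lam_ne : ∀ l, lam l ≠ 0
  r_ne_τ : ∀ m k l, r m k ≠ τ l
  r_inj : ∀ m k m' k', r m k = r m' k' → (⟨m, k⟩ : Σ m, Fin (mu n m)) = ⟨m', k'⟩
  G_ne : ∀ m k, (G m).eval (r m k) ≠ 0
  G_inf : (G (e5 hn 0)).coeff 2 ≠ 0
  star : ∀ c : Fin 5 → Fin 2 → ℂ,
    ∑ j, (C (c j 0) + C (c j 1) * X) *
      (G (e5 hn j) * (∏ k, (X - C (r (e5 hn j) k)))) = 0 →
    ∑ j, (C (c j 0) + C (c j 1) * X) *
      (derivative (G (e5 hn j)) * (∏ k, (X - C (r (e5 hn j) k))) -
        G (e5 hn j) * derivative (∏ k, (X - C (r (e5 hn j) k)))) = 0 → c = 0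
  cubics : ∀ y : Fin 10 → ℂ,
    (∀ j j', cf (G (e5 hn j) * (∏ k, (X - C (r (e5 hn j') k))))
      ((∏ k, (X - C (r (e5 hn j) k))) * G (e5 hn j')) y = 0) →
    y 0 = 0 → y 1 = 0 → y 2 = 0 → y = 0
  dirs : ∀ i : Fin 3, ∀ x y z : ℂ,
    (∀ m, x * (derivative (G m) * (∏ k, (X - C (r m k))) -
          G m * derivative (∏ k, (X - C (r m k)))).eval (τ (la i)) *
          (∏ k, (X - C (r m k))).eval (τ (lb i)) ^ 2 +
        y * (derivative (G m) * (∏ k, (X - C (r m k))) -
          G m * derivative (∏ k, (X - C (r m k)))).eval (τ (lb i)) *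
          (∏ k, (X - C (r m k))).eval (τ (la i)) ^ 2 +
        z * P (ix (la i)) m * (∏ k, (X - C (r m k))).eval (τ (la i)) ^ 2 *
          (∏ k, (X - C (r m k))).eval (τ (lb i)) ^ 2 = 0) → x = 0 ∧ y = 0

/-! ### General lemmas -/

/-- the degree of the Wronskian -/
lemma natDegree_wr {φ ψ : ℂ[X]} {d : ℕ} (hd : 1 ≤ d) (hφ : φ.natDegree ≤ d)
    (hψ : ψ.natDegree ≤ d) : (derivative φ * ψ - φ * derivative ψ).natDegree ≤ 2 * d - 2 := by
  obtain ⟨d, rfl⟩ : ∃ k, d = k + 1 := ⟨d - 1, by omega⟩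
  have h1 : (derivative φ).natDegree ≤ d := (natDegree_derivative_le _).trans (by omega)
  have h2 : (derivative ψ).natDegree ≤ d := (natDegree_derivative_le _).trans (by omega)
  have h3 : (derivative φ * ψ - φ * derivative ψ).natDegree ≤ 2 * d + 1 := by
    refine (natDegree_sub_le _ _).trans (max_le ?_ ?_)
    · exact (natDegree_mul_le_of_le h1 hψ).trans (by omega)
    · exact (natDegree_mul_le_of_le hφ h2).trans (by omega)
  have h4 : (derivative φ * ψ - φ * derivative ψ).coeff (2 * d + 1) = 0 := by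
    rw [coeff_sub]
    have e1 : (derivative φ * ψ).coeff (2 * d + 1) =
        (derivative φ).coeff d * ψ.coeff (d + 1) := by
      have : 2 * d + 1 = d + (d + 1) := by ring
      rw [this]
      exact coeff_mul_add_eq_of_natDegree_le h1 hψ
    have e2 : (φ * derivative ψ).coeff (2 * d + 1) =
        φ.coeff (d + 1) * (derivative ψ).coeff d := by
      have : 2 * d + 1 = (d + 1) + d := by ring
      rw [this]
      exact coeff_mul_add_eq_of_natDegree_le hφ h2
    rw [e1, e2, coeff_derivative, coeff_derivative]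
    ring
  have := natDegree_le_pred h3 h4
  omega

/-- the coefficient of degree `6` of the interpolation polynomial -/
noncomputable def La (τ : Fin 7 → ℂ) : (Fin 7 → ℂ) →ₗ[ℂ] ℂ :=
  (lcoeff ℂ 6) ∘ₗ (Lagrange.interpolate Finset.univ τ)

lemma La_poly {τ : Fin 7 → ℂ} (hτ : Function.Injective τ) {φ : ℂ[X]} (hφ : φ.natDegree ≤ 5) :
    La τ (fun l => φ.eval (τ l)) = 0 := by
  have h1 : φ = Lagrange.interpolate Finset.univ τ (fun l => φ.eval (τ l)) := by
    refine Lagrange.eq_interpolate_of_eval_eq _ hτ.injOn ?_ (fun _ _ => rfl)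
    rw [Finset.card_univ, Fintype.card_fin]
    exact lt_of_le_of_lt (natDegree_le_iff_degree_le.mp hφ) (by norm_num)
  rw [La, LinearMap.comp_apply, ← h1, lcoeff_apply]
  exact coeff_eq_zero_of_natDegree_lt (by omega)

lemma La_single {τ : Fin 7 → ℂ} (hτ : Function.Injective τ) (l : Fin 7) :
    La τ (Pi.single l 1) ≠ 0 := by
  rw [La, LinearMap.comp_apply, Lagrange.interpolate_apply, Finset.sum_eq_single l]
  · rw [Pi.single_eq_same, C_1, one_mul, lcoeff_apply]
    have h1 := Lagrange.natDegree_basis (s := Finset.univ) (v := τ) hτ.injOn (Finset.mem_univ l)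
    rw [Finset.card_univ, Fintype.card_fin] at h1
    have h2 : (Lagrange.basis Finset.univ τ l).coeff 6 =
        (Lagrange.basis Finset.univ τ l).leadingCoeff := by
      rw [leadingCoeff, h1]
    rw [h2]
    exact leadingCoeff_ne_zero.mpr (Lagrange.basis_ne_zero hτ.injOn (Finset.mem_univ l))
  · intro j _ hj
    rw [Pi.single_eq_of_ne hj, C_0, zero_mul]
  · intro h
    exact absurd (Finset.mem_univ l) h

lemma eq_zero_of_nodes {τ : Fin 7 → ℂ} (hτ : Function.Injective τ) {φ : ℂ[X]}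
    (hφ : φ.natDegree ≤ 6) (h : ∀ l, φ.eval (τ l) = 0) : φ = 0 := by
  refine Polynomial.eq_zero_of_degree_lt_of_eval_index_eq_zero (s := Finset.univ) (v := τ)
    hτ.injOn ?_ (fun l _ => h l)
  rw [Finset.card_univ, Fintype.card_fin]
  exact lt_of_le_of_lt (natDegree_le_iff_degree_le.mp hφ) (by norm_num)

namespace Norm

variable {n : ℕ} {P : Fin 4 → Vec n} (N : Norm n P)

noncomputable def D (m : Fin (n + 1)) : ℂ[X] := ∏ k, (X - C (N.r m k))

noncomputable def Wr (m : Fin (n + 1)) : ℂ[X] :=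
  derivative (N.G m) * N.D m - N.G m * derivative (N.D m)

lemma monic_D (m : Fin (n + 1)) : (N.D m).Monic := monic_prod_of_monic _ _ fun _ _ =>
  monic_X_sub_C _

lemma natDegree_D (m : Fin (n + 1)) : (N.D m).natDegree = mu n m := by
  unfold D
  rw [natDegree_prod_of_monic _ _ fun k _ => monic_X_sub_C _]
  simp

lemma natDegree_Wr (m : Fin (n + 1)) : (N.Wr m).natDegree ≤ 2 * mu n m - 2 :=
  natDegree_wr (by have := mu_pos n m; omega) (N.degG m) (N.natDegree_D m).le

lemma eval_D_ne (m : Fin (n + 1)) (l : Fin 7) : (N.D m).eval (N.τ l) ≠ 0 := by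
  unfold D
  rw [eval_prod, Finset.prod_ne_zero_iff]
  intro k _
  simp only [eval_sub, eval_X, eval_C]
  exact sub_ne_zero.mpr (N.r_ne_τ m k l).symm

lemma eval_D_r (m : Fin (n + 1)) (k : Fin (mu n m)) : (N.D m).eval (N.r m k) = 0 := by
  unfold D
  rw [eval_prod]
  exact Finset.prod_eq_zero (Finset.mem_univ k) (by simp)

lemma contact' (l : Fin 7) (m : Fin (n + 1)) :
    (N.G m).eval (N.τ l) = N.lam l * P (ix l) m * (N.D m).eval (N.τ l) := N.contact l m

/-- the linear conditions -/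
noncomputable def AA : (Fin 7 → ℂ) × (Fin 7 → ℂ) →ₗ[ℂ] (Fin 5 × Fin 2 → ℂ) where
  toFun yz := fun mk => La N.τ (fun l => N.τ l ^ (mk.2 : ℕ) *
    (yz.1 l * (N.Wr (e5 N.hn mk.1)).eval (N.τ l) +
      yz.2 l * (N.G (e5 N.hn mk.1) * N.D (e5 N.hn mk.1)).eval (N.τ l)))
  map_add' u v := by
    funext mk
    rw [Pi.add_apply, ← map_add]
    congr 1
    funext l
    simp only [Prod.fst_add, Prod.snd_add, Pi.add_apply]
    ring
  map_smul' c v := by
    funext mk
    rw [Pi.smul_apply, ← map_smul, RingHom.id_apply]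
    congr 1
    funext l
    simp only [Prod.smul_fst, Prod.smul_snd, Pi.smul_apply, smul_eq_mul]
    ring

lemma AA_range : LinearMap.range N.AA = ⊤ := by
  by_contra hne
  obtain ⟨φ, hφ, hle⟩ := Submodule.exists_le_ker_of_lt_top _ (lt_top_iff_ne_top.mpr hne)
  apply hφ
  set c : Fin 5 → Fin 2 → ℂ := fun j k => φ (Pi.single (j, k) 1) with hc
  have hφc : ∀ v, φ v = ∑ j, (c j 0 * v (j, 0) + c j 1 * v (j, 1)) := by
    intro v
    have h1 : v = ∑ mk, v mk • (Pi.single mk (1 : ℂ) : Fin 5 × Fin 2 → ℂ) := by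
      funext mk
      rw [Finset.sum_apply, Finset.sum_eq_single mk]
      · simp
      · intro b _ hb
        simp [Pi.single_eq_of_ne hb.symm]
      · intro h; exact absurd (Finset.mem_univ mk) h
    conv_lhs => rw [h1]
    rw [map_sum, Fintype.sum_prod_type]
    refine Finset.sum_congr rfl fun j _ => ?_
    rw [Fin.sum_univ_two, map_smul, map_smul, smul_eq_mul, smul_eq_mul, hc]
    ring
  have hz : ∀ yz, φ (N.AA yz) = 0 := fun yz => hle ⟨yz, rfl⟩
  have hsc : ∀ (l : Fin 7) (F : Fin 7 → ℂ) (G' : Fin 7 → ℂ),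
      La N.τ (fun l' => G' l' * ((Pi.single l (1 : ℂ) : Fin 7 → ℂ) l' * F l')) =
        G' l * F l * La N.τ (Pi.single l 1) := by
    intro l F G'
    rw [← smul_eq_mul (G' l * F l), ← map_smul]
    congr 1
    funext l'
    by_cases h : l' = l
    · subst h; simp
    · simp [Pi.single_eq_of_ne h]
  have hc0 : c = 0 := by
    apply N.star c
    · refine eq_zero_of_nodes N.τ_inj ?_ fun l => ?_
      · refine natDegree_sum_le_of_forall_le _ _ fun j _ => ?_
        have h1 : (C (c j 0) + C (c j 1) * X : ℂ[X]).natDegree ≤ 1 := by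
          refine natDegree_add_le_of_degree_le (by simp) ?_
          exact (natDegree_C_mul_le _ _).trans natDegree_X_le
        have h2 := N.degG (e5 N.hn j)
        have h3 := (N.natDegree_D (e5 N.hn j)).le
        rw [mu_e5] at h2 h3
        exact (natDegree_mul_le_of_le h1 (natDegree_mul_le_of_le h2 h3)).trans (by omega)
      · have h1 := hz (0, Pi.single l 1)
        rw [hφc] at h1
        have h2 : ∀ j (k : Fin 2), N.AA (0, Pi.single l 1) (j, k) = N.τ l ^ (k : ℕ) *
            (N.G (e5 N.hn j) * N.D (e5 N.hn j)).eval (N.τ l) * La N.τ (Pi.single l 1) := by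
          intro j k
          rw [← hsc l (fun l => (N.G (e5 N.hn j) * N.D (e5 N.hn j)).eval (N.τ l))
            (fun l => N.τ l ^ (k : ℕ))]
          simp only [AA, LinearMap.coe_mk, AddHom.coe_mk]
          congr 1
          funext l'
          simp
        simp only [h2] at h1
        have h3 : (∑ j, (c j 0 + c j 1 * N.τ l) *
            (N.G (e5 N.hn j) * N.D (e5 N.hn j)).eval (N.τ l)) * La N.τ (Pi.single l 1) = 0 := by
          rw [← h1, Finset.sum_mul]
          refine Finset.sum_congr rfl fun j _ => ?_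
          simp only [Fin.val_zero, Fin.val_one, pow_zero, pow_one]
          ring
        have h4 := (mul_eq_zero.mp h3).resolve_right (La_single N.τ_inj l)
        rw [← h4, eval_finsetSum]
        refine Finset.sum_congr rfl fun j _ => ?_
        rw [eval_mul, eval_add, eval_mul, eval_C, eval_C, eval_X]
        rfl
    · refine eq_zero_of_nodes N.τ_inj ?_ fun l => ?_
      · refine natDegree_sum_le_of_forall_le _ _ fun j _ => ?_
        have h1 : (C (c j 0) + C (c j 1) * X : ℂ[X]).natDegree ≤ 1 := by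
          refine natDegree_add_le_of_degree_le (by simp) ?_
          exact (natDegree_C_mul_le _ _).trans natDegree_X_le
        have h2 := N.natDegree_Wr (e5 N.hn j)
        rw [mu_e5] at h2
        exact (natDegree_mul_le_of_le h1 h2).trans (by omega)
      · have h1 := hz (Pi.single l 1, 0)
        rw [hφc] at h1
        have h2 : ∀ j (k : Fin 2), N.AA (Pi.single l 1, 0) (j, k) = N.τ l ^ (k : ℕ) *
            (N.Wr (e5 N.hn j)).eval (N.τ l) * La N.τ (Pi.single l 1) := by
          intro j k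
          rw [← hsc l (fun l => (N.Wr (e5 N.hn j)).eval (N.τ l))
            (fun l => N.τ l ^ (k : ℕ))]
          simp only [AA, LinearMap.coe_mk, AddHom.coe_mk]
          congr 1
          funext l'
          simp
        simp only [h2] at h1
        have h3 : (∑ j, (c j 0 + c j 1 * N.τ l) *
            (N.Wr (e5 N.hn j)).eval (N.τ l)) * La N.τ (Pi.single l 1) = 0 := by
          rw [← h1, Finset.sum_mul]
          refine Finset.sum_congr rfl fun j _ => ?_
          simp only [Fin.val_zero, Fin.val_one, pow_zero, pow_one]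
          ring
        have h4 := (mul_eq_zero.mp h3).resolve_right (La_single N.τ_inj l)
        rw [← h4, eval_finsetSum]
        refine Finset.sum_congr rfl fun j _ => ?_
        rw [eval_mul, eval_add, eval_mul, eval_C, eval_C, eval_X]
        rfl
  apply LinearMap.ext
  intro v
  rw [hφc, hc0]
  simp

lemma finrank_ker_AA : finrank ℂ (LinearMap.ker N.AA) = 4 := by
  have h1 := N.AA.finrank_range_add_finrank_ker
  rw [N.AA_range, finrank_top, finrank_prod, finrank_pi, finrank_pi, Fintype.card_prod,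
    Fintype.card_fin, Fintype.card_fin, Fintype.card_fin] at h1
  omega

/-- the infinitesimal reparametrisations and scalings -/
noncomputable def BB : ℂ × degreeLT ℂ 3 →ₗ[ℂ] (Fin 7 → ℂ) × (Fin 7 → ℂ) where
  toFun kb := (fun l => (kb.2 : ℂ[X]).eval (N.τ l), fun _ => kb.1)
  map_add' u v := by
    refine Prod.ext ?_ ?_
    · funext l; simp
    · funext l; simp
  map_smul' c v := by
    refine Prod.ext ?_ ?_
    · funext l; simp
    · funext l; simp

lemma natDegree_of_mem {d : ℕ} {φ : ℂ[X]} (h : φ ∈ degreeLT ℂ (d + 1)) : φ.natDegree ≤ d := by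
  have := mem_degreeLT.mp h
  by_cases h : φ = 0
  · rw [h]; simp
  · exact Nat.lt_succ_iff.mp ((natDegree_lt_iff_degree_lt h).mpr this)

lemma BB_inj : Function.Injective N.BB := by
  rw [injective_iff_map_eq_zero]
  intro kb h
  have h1 := congrArg Prod.fst h
  have h2 := congrFun (congrArg Prod.snd h) 0
  refine Prod.ext h2 (Subtype.ext ?_)
  refine eq_zero_of_nodes N.τ_inj ((natDegree_of_mem kb.2.2).trans (by omega)) fun l => ?_
  exact congrFun h1 l

lemma BB_range : LinearMap.range N.BB = LinearMap.ker N.AA := by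
  have hle : LinearMap.range N.BB ≤ LinearMap.ker N.AA := by
    rintro _ ⟨kb, rfl⟩
    rw [LinearMap.mem_ker]
    funext mk
    have hβ := natDegree_of_mem kb.2.2
    have h1 : N.AA (N.BB kb) mk = La N.τ (fun l => (X ^ (mk.2 : ℕ) *
      ((kb.2 : ℂ[X]) * N.Wr (e5 N.hn mk.1) +
        C kb.1 * (N.G (e5 N.hn mk.1) * N.D (e5 N.hn mk.1)))).eval (N.τ l)) := by
      simp only [AA, BB, LinearMap.coe_mk, AddHom.coe_mk]
      congr 1
      funext l
      simp
    rw [h1]
    refine La_poly N.τ_inj ?_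
    have h2 : (X ^ (mk.2 : ℕ) : ℂ[X]).natDegree ≤ 1 := by
      rw [natDegree_X_pow]; omega
    have h3 := N.degG (e5 N.hn mk.1)
    have h4 := (N.natDegree_D (e5 N.hn mk.1)).le
    have h5 := N.natDegree_Wr (e5 N.hn mk.1)
    rw [mu_e5] at h3 h4 h5
    refine (natDegree_mul_le_of_le (n := 4) h2 ?_)
    refine natDegree_add_le_of_degree_le ?_ ?_
    · exact (natDegree_mul_le_of_le hβ h5)
    · exact (natDegree_C_mul_le _ _).trans (natDegree_mul_le_of_le h3 h4)
  refine Submodule.eq_of_le_of_finrank_le hle ?_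
  rw [N.finrank_ker_AA, LinearMap.finrank_range_of_inj N.BB_inj, finrank_prod, finrank_self,
    LinearEquiv.finrank_eq (degreeLTEquiv ℂ 3)]
  simp

/-- polynomials with given values give solutions of the linear conditions -/
lemma mem_ker_AA {y z : Fin 7 → ℂ} {Nn : Fin (n + 1) → ℂ[X]}
    (hN : ∀ m, (Nn m).natDegree ≤ 2 * mu n m)
    (h : ∀ m l, (Nn m).eval (N.τ l) = y l * (N.Wr m).eval (N.τ l) +
      z l * (N.G m * N.D m).eval (N.τ l)) : (y, z) ∈ LinearMap.ker N.AA := by
  rw [LinearMap.mem_ker]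
  funext mk
  have h1 : N.AA (y, z) mk = La N.τ (fun l => (X ^ (mk.2 : ℕ) *
      Nn (e5 N.hn mk.1)).eval (N.τ l)) := by
    simp only [AA, LinearMap.coe_mk, AddHom.coe_mk]
    congr 1
    funext l
    have e : (X ^ (mk.2 : ℕ) * Nn (e5 N.hn mk.1)).eval (N.τ l) =
        N.τ l ^ (mk.2 : ℕ) * (Nn (e5 N.hn mk.1)).eval (N.τ l) := by
      rw [eval_mul, eval_pow, eval_X]
    rw [e, h]
  rw [h1]
  refine La_poly N.τ_inj ?_
  have h2 : (X ^ (mk.2 : ℕ) : ℂ[X]).natDegree ≤ 1 := by
    rw [natDegree_X_pow]; omega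
  have h3 := hN (e5 N.hn mk.1)
  rw [mu_e5] at h3
  exact natDegree_mul_le_of_le (n := 4) h2 h3

lemma core {y z : Fin 7 → ℂ} {Nn : Fin (n + 1) → ℂ[X]}
    (hN : ∀ m, (Nn m).natDegree ≤ 2 * mu n m)
    (h : ∀ m l, (Nn m).eval (N.τ l) = y l * (N.Wr m).eval (N.τ l) +
      z l * (N.G m * N.D m).eval (N.τ l)) :
    ∃ (κ : ℂ) (β : ℂ[X]), β.natDegree ≤ 2 ∧ (∀ l, z l = κ) ∧ (∀ l, y l = β.eval (N.τ l)) ∧
      ∀ m, Nn m = C κ * (N.G m * N.D m) + β * N.Wr m := by
  have h1 := N.mem_ker_AA hN h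
  rw [← N.BB_range] at h1
  obtain ⟨⟨κ, β⟩, hkb⟩ := h1
  have hy : ∀ l, y l = (β : ℂ[X]).eval (N.τ l) := fun l =>
    (congrFun (congrArg Prod.fst hkb) l).symm
  have hz : ∀ l, z l = κ := fun l => (congrFun (congrArg Prod.snd hkb) l).symm
  have hβ := natDegree_of_mem β.2
  refine ⟨κ, β, hβ, hz, hy, fun m => ?_⟩
  rw [← sub_eq_zero]
  have hmu := mu_le n m
  refine eq_zero_of_nodes N.τ_inj ?_ fun l => ?_
  · refine (natDegree_sub_le _ _).trans (max_le ((hN m).trans (by omega)) ?_)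
    refine natDegree_add_le_of_degree_le ?_ ?_
    · exact (natDegree_C_mul_le _ _).trans
        ((natDegree_mul_le_of_le (N.degG m) (N.natDegree_D m).le).trans (by omega))
    · have := mu_pos n m
      exact (natDegree_mul_le_of_le hβ (N.natDegree_Wr m)).trans (by omega)
  · rw [eval_sub, h, hy, hz]
    simp only [eval_add, eval_mul, eval_C]
    ring

end Norm

end Pool.Agent.H403R3
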