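import Pool.Agent.H403R3.NormH0

/-!
# The double points of a normalised curve
-/

open Polynomial Module

namespace Pool.Agent.H403R3

/-- cubic monomials -/
noncomputable def vv (e : Fin 3 → ℂ) : Fin 10 → ℂ :=
  ![e 0 ^ 3, e 0 ^ 2 * e 1, e 0 * (e 1 ^ 2 - e 0 * e 2), e 1 ^ 3 - 2 * e 0 * e 1 * e 2,
    e 0 ^ 2 * e 2, e 0 * e 1 * e 2, e 2 * (e 1 ^ 2 - e 0 * e 2), e 0 * e 2 ^ 2,
    e 1 * e 2 ^ 2, e 2 ^ 3]

/-- symmetric functions -/
noncomputable def ee (a b : Fin 2 → ℂ) : Fin 3 → ℂ := ![a 0 * b 0, a 0 * b 1 + a 1 * b 0, a 1 * b 1]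

lemma psi_eq (K K' : ℂ[X]) (a b : Fin 2 → ℂ) :
    hev 4 K a * hev 4 K' b - hev 4 K b * hev 4 K' a =
      (a 0 * b 1 - a 1 * b 0) * cf K K' (vv (ee a b)) := by
  simp only [hev, Finset.sum_range_succ, Finset.sum_range_zero, cf, vv, ee]
  simp
  ring

lemma wr_eq (K K' : ℂ[X]) (a : Fin 2 → ℂ) :
    hev 3 (der0 4 K) a * hev 3 (derivative K') a - hev 3 (derivative K) a * hev 3 (der0 4 K') a =
      4 * cf K K' (vv (ee a a)) := by
  have h0 : ∀ φ : ℂ[X], (der0 4 φ).coeff 0 = 4 * φ.coeff 0 := by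
    intro φ; simp [der0]
  have h1 : ∀ φ : ℂ[X], ∀ k, (der0 4 φ).coeff (k + 1) = (4 - (k + 1)) * φ.coeff (k + 1) := by
    intro φ k
    simp only [der0, coeff_sub, coeff_C_mul, coeff_X_mul, coeff_derivative]
    push_cast
    ring
  simp only [hev, Finset.sum_range_succ, Finset.sum_range_zero, cf, vv, ee, h0, h1,
    coeff_derivative, zero_add, Nat.reduceAdd]
  simp
  ring

lemma cf_lin (K K' : ℂ[X]) {r : ℕ} (α : Fin r → ℂ) (x : Fin r → Fin 10 → ℂ) :
    cf K K' (∑ j, α j • x j) = ∑ j, α j * cf K K' (x j) := by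
  simp only [cf, Finset.sum_apply, Pi.smul_apply, smul_eq_mul, Finset.mul_sum,
    ← Finset.sum_add_distrib]
  refine Finset.sum_congr rfl fun j _ => ?_
  ring

lemma exists_form {x y : Fin 3 → ℂ} (h : x ∉ Submodule.span ℂ {y}) :
    ∃ l : Fin 3 → ℂ, l 0 * x 0 + l 1 * x 1 + l 2 * x 2 ≠ 0 ∧
      l 0 * y 0 + l 1 * y 1 + l 2 * y 2 = 0 := by
  obtain ⟨f, hf, hle⟩ := Submodule.exists_le_ker_of_notMem h
  have hf' : ∀ z : Fin 3 → ℂ, f z = f (Pi.single 0 1) * z 0 + f (Pi.single 1 1) * z 1 +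
      f (Pi.single 2 1) * z 2 := by
    intro z
    have h1 : z = z 0 • (Pi.single 0 (1 : ℂ) : Fin 3 → ℂ) + z 1 • (Pi.single 1 (1 : ℂ) : Fin 3 → ℂ) +
        z 2 • (Pi.single 2 (1 : ℂ) : Fin 3 → ℂ) := by
      funext i
      fin_cases i <;> simp [Pi.single_apply]
    conv_lhs => rw [h1]
    rw [map_add, map_add, map_smul, map_smul, map_smul]
    simp only [smul_eq_mul]
    ring
  refine ⟨fun i => f (Pi.single i 1), ?_, ?_⟩
  · rw [← hf']; exact hf
  · rw [← hf']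
    exact hle (Submodule.mem_span_singleton_self y)

/-- four points of the plane impose independent conditions on cubics -/
lemma four_points (x : Fin 4 → Fin 3 → ℂ) (hx : ∀ i j, i ≠ j → x i ∉ Submodule.span ℂ {x j})
    (α : Fin 4 → ℂ) (h : ∑ j, α j • vv (x j) = 0) : α = 0 := by
  have hc : ∀ s : Fin 10, ∑ j, α j * vv (x j) s = 0 := by
    intro s
    have := congrFun h s
    simpa [Finset.sum_apply] using this
  have h0 := hc 0
  have h1 := hc 1
  have h2 := hc 2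
  have h3 := hc 3
  have h4 := hc 4
  have h5 := hc 5
  have h6 := hc 6
  have h7 := hc 7
  have h8 := hc 8
  have h9 := hc 9
  simp only [vv, Fin.sum_univ_four] at h0 h1 h2 h3 h4 h5 h6 h7 h8 h9
  simp at h0 h1 h2 h3 h4 h5 h6 h7 h8 h9
  funext i
  have hi1 : i ≠ i + 1 := by fin_cases i <;> decide
  have hi2 : i ≠ i + 2 := by fin_cases i <;> decide
  have hi3 : i ≠ i + 3 := by fin_cases i <;> decide
  obtain ⟨l, hl, hl'⟩ := exists_form (hx _ _ hi1)
  obtain ⟨m, hm, hm'⟩ := exists_form (hx _ _ hi2)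
  obtain ⟨k, hk, hk'⟩ := exists_form (hx _ _ hi3)
  have key : ∑ j, α j * ((l 0 * x j 0 + l 1 * x j 1 + l 2 * x j 2) *
      (m 0 * x j 0 + m 1 * x j 1 + m 2 * x j 2) *
      (k 0 * x j 0 + k 1 * x j 1 + k 2 * x j 2)) = 0 := by
    rw [Fin.sum_univ_four]
    linear_combination (l 0 * m 0 * k 0) * h0 +
      (l 1 * m 0 * k 0 + l 0 * m 1 * k 0 + l 0 * m 0 * k 1) * h1 +
      (l 2 * m 0 * k 0 + l 0 * m 2 * k 0 + l 0 * m 0 * k 2) * h4 +
      (l 0 * m 1 * k 1 + l 1 * m 0 * k 1 + l 1 * m 1 * k 0) * (h2 + h4) +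
      (l 0 * m 1 * k 2 + l 0 * m 2 * k 1 + l 1 * m 0 * k 2 + l 1 * m 2 * k 0 +
        l 2 * m 0 * k 1 + l 2 * m 1 * k 0) * h5 +
      (l 1 * m 1 * k 1) * (h3 + 2 * h5) +
      (l 0 * m 2 * k 2 + l 2 * m 0 * k 2 + l 2 * m 2 * k 0) * h7 +
      (l 1 * m 1 * k 2 + l 1 * m 2 * k 1 + l 2 * m 1 * k 1) * (h6 + h7) +
      (l 1 * m 2 * k 2 + l 2 * m 1 * k 2 + l 2 * m 2 * k 1) * h8 +
      (l 2 * m 2 * k 2) * h9
  rw [Finset.sum_eq_single i] at key
  · have hne := mul_ne_zero (mul_ne_zero hl hm) hk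
    simpa using (mul_eq_zero.mp key).resolve_right hne
  · intro j _ hj
    have : j = i + 1 ∨ j = i + 2 ∨ j = i + 3 := by
      revert hj; fin_cases i <;> fin_cases j <;> decide
    rcases this with rfl | rfl | rfl
    · rw [hl']; ring
    · rw [hm']; ring
    · rw [hk']; ring
  · intro h; exact absurd (Finset.mem_univ i) h

lemma exists_dep (x : Fin 4 → Fin 10 → ℂ) : ∃ α : Fin 4 → ℂ, α ≠ 0 ∧
    (∑ j, α j • x j) 0 = 0 ∧ (∑ j, α j • x j) 1 = 0 ∧ (∑ j, α j • x j) 2 = 0 := by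
  let T : (Fin 4 → ℂ) →ₗ[ℂ] (Fin 3 → ℂ) :=
    { toFun := fun α i => (∑ j, α j • x j) (Fin.castLE (by norm_num) i)
      map_add' := fun u v => by
        funext i
        simp [add_mul, Finset.sum_add_distrib]
      map_smul' := fun c v => by
        funext i
        simp [mul_assoc, Finset.mul_sum] }
  have hT : ∃ α ∈ LinearMap.ker T, α ≠ 0 := by
    apply Submodule.exists_mem_ne_zero_of_ne_bot
    intro hbot
    have h1 := T.finrank_range_add_finrank_ker
    rw [hbot, finrank_bot, finrank_pi, Fintype.card_fin] at h1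
    have h2 := Submodule.finrank_le (LinearMap.range T)
    rw [finrank_pi, Fintype.card_fin] at h2
    omega
  obtain ⟨α, hα, hne⟩ := hT
  have h : T α = 0 := hα
  exact ⟨α, hne, congrFun h 0, congrFun h 1, congrFun h 2⟩

lemma ee_ne {a b : Fin 2 → ℂ} (ha : a ≠ 0) (hb : b ≠ 0) : ee a b ≠ 0 := by
  intro h
  have h0 := congrFun h 0
  have h1 := congrFun h 1
  have h2 := congrFun h 2
  simp only [ee, Matrix.cons_val_zero, Matrix.cons_val_one, Matrix.cons_val, Pi.zero_apply] at h0 h1 h2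
  rcases mul_eq_zero.mp h0 with ha0 | hb0
  · have ha1 := a1_ne ha ha0
    have hb1 := (mul_eq_zero.mp h2).resolve_left ha1
    rw [ha0, zero_mul, zero_add] at h1
    have hb0 := (mul_eq_zero.mp h1).resolve_left ha1
    exact hb (by funext i; fin_cases i <;> simp [hb0, hb1])
  · have hb1 := a1_ne hb hb0
    have ha1 := (mul_eq_zero.mp h2).resolve_right hb1
    rw [hb0, mul_zero, add_zero] at h1
    have ha0 := (mul_eq_zero.mp h1).resolve_right hb1
    exact ha (by funext i; fin_cases i <;> simp [ha0, ha1])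

namespace Norm

variable {n : ℕ} {P : Fin 4 → Vec n} (N : Norm n P)

/-- the quartics -/
noncomputable def KK (j j' : Fin 5) : ℂ[X] := N.G (e5 N.hn j) * N.D (e5 N.hn j')

noncomputable def KK' (j j' : Fin 5) : ℂ[X] := N.D (e5 N.hn j) * N.G (e5 N.hn j')

noncomputable def g (j : Fin 5) (a : Fin 2 → ℂ) : ℂ := hev 2 (N.G (e5 N.hn j)) a

noncomputable def d (j : Fin 5) (a : Fin 2 → ℂ) : ℂ := hev 2 (N.D (e5 N.hn j)) a

lemma degG5 (j : Fin 5) : (N.G (e5 N.hn j)).natDegree ≤ 2 := by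
  have := N.degG (e5 N.hn j)
  rwa [mu_e5] at this

lemma degD5 (j : Fin 5) : (N.D (e5 N.hn j)).natDegree ≤ 2 := by
  have := (N.natDegree_D (e5 N.hn j)).le
  rwa [mu_e5] at this

lemma hev_KK (j j' : Fin 5) (a : Fin 2 → ℂ) : hev 4 (N.KK j j') a = N.g j a * N.d j' a :=
  hev_mul' (show 2 + 2 = 4 by norm_num) (N.degG5 j) (N.degD5 j') a

lemma hev_KK' (j j' : Fin 5) (a : Fin 2 → ℂ) : hev 4 (N.KK' j j') a = N.d j a * N.g j' a :=
  hev_mul' (show 2 + 2 = 4 by norm_num) (N.degD5 j) (N.degG5 j') a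

lemma natDegree_KK (j j' : Fin 5) : (N.KK j j').natDegree ≤ 4 :=
  natDegree_mul_le_of_le (N.degG5 j) (N.degD5 j')

lemma natDegree_KK' (j j' : Fin 5) : (N.KK' j j').natDegree ≤ 4 :=
  natDegree_mul_le_of_le (N.degD5 j) (N.degG5 j')

noncomputable def qq (i : Fin 3) : Fin 3 → ℂ :=
  ![1, N.τ (la i) + N.τ (lb i), N.τ (la i) * N.τ (lb i)]

lemma la_ne_lb (i j : Fin 3) : la i ≠ lb j := by revert i j; decide

lemma la_inj {i j : Fin 3} (h : la i = la j) : i = j := by revert i j; decide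

lemma ix_la_lb (i : Fin 3) : ix (la i) = ix (lb i) := by revert i; decide

lemma g_one (j : Fin 5) (t : ℂ) : N.g j ![1, t] = (N.G (e5 N.hn j)).eval t := by
  unfold g
  rw [hev_of_ne (N.degG5 j) (by simp)]
  simp

lemma d_one (j : Fin 5) (t : ℂ) : N.d j ![1, t] = (N.D (e5 N.hn j)).eval t := by
  unfold d
  rw [hev_of_ne (N.degD5 j) (by simp)]
  simp

lemma cf_qq (i : Fin 3) (j j' : Fin 5) : cf (N.KK j j') (N.KK' j j') (vv (N.qq i)) = 0 := by
  have h1 := psi_eq (N.KK j j') (N.KK' j j') ![1, N.τ (la i)] ![1, N.τ (lb i)]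
  rw [N.hev_KK, N.hev_KK, N.hev_KK', N.hev_KK', N.g_one, N.g_one, N.g_one, N.g_one, N.d_one,
    N.d_one, N.d_one, N.d_one] at h1
  have e : ee ![1, N.τ (la i)] ![1, N.τ (lb i)] = N.qq i := by
    funext k
    fin_cases k <;> simp [ee, qq]
    ring
  rw [e] at h1
  have h2 : N.τ (lb i) - N.τ (la i) ≠ 0 := by
    rw [sub_ne_zero]
    exact fun h => la_ne_lb i i (N.τ_inj h).symm
  have c1 := N.contact' (la i) (e5 N.hn j)
  have c2 := N.contact' (la i) (e5 N.hn j')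
  have c3 := N.contact' (lb i) (e5 N.hn j)
  have c4 := N.contact' (lb i) (e5 N.hn j')
  rw [← ix_la_lb i] at c3 c4
  rw [c1, c2, c3, c4] at h1
  simp only [Matrix.cons_val_zero, Matrix.cons_val_one] at h1
  have h3 : (N.τ (lb i) - N.τ (la i)) * cf (N.KK j j') (N.KK' j j') (vv (N.qq i)) = 0 := by
    linear_combination (-1 : ℂ) * h1
  exact (mul_eq_zero.mp h3).resolve_left h2

lemma qq_not_mem {i j : Fin 3} (hij : i ≠ j) : N.qq i ∉ Submodule.span ℂ {N.qq j} := by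
  intro h
  rw [Submodule.mem_span_singleton] at h
  obtain ⟨c, hc⟩ := h
  have h0 := congrFun hc 0
  have h1 := congrFun hc 1
  have h2 := congrFun hc 2
  simp only [qq, Pi.smul_apply, smul_eq_mul, Matrix.cons_val_zero, Matrix.cons_val_one,
    Matrix.cons_val] at h0 h1 h2
  rw [mul_one] at h0
  rw [h0, one_mul] at h1 h2
  have h3 : (N.τ (la i) - N.τ (la j)) * (N.τ (la i) - N.τ (lb j)) = 0 := by
    linear_combination h2 - N.τ (la i) * h1
  rcases mul_eq_zero.mp h3 with h | h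
  · exact hij (la_inj (N.τ_inj (sub_eq_zero.mp h)))
  · exact la_ne_lb i j (N.τ_inj (sub_eq_zero.mp h))

/-- Lemma K -/
lemma lemK {e : Fin 3 → ℂ} (he : e ≠ 0)
    (h : ∀ j j', cf (N.KK j j') (N.KK' j j') (vv e) = 0) :
    ∃ i, e ∈ Submodule.span ℂ {N.qq i} := by
  by_contra hcon
  push Not at hcon
  set x : Fin 4 → Fin 3 → ℂ := ![N.qq 0, N.qq 1, N.qq 2, e] with hx
  have hx1 : ∀ j j' (i : Fin 4), cf (N.KK j j') (N.KK' j j') (vv (x i)) = 0 := by
    intro j j' i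
    fin_cases i
    · exact N.cf_qq 0 j j'
    · exact N.cf_qq 1 j j'
    · exact N.cf_qq 2 j j'
    · exact h j j'
  obtain ⟨α, hα, h0, h1, h2⟩ := exists_dep (fun j => vv (x j))
  have h3 : ∑ j, α j • vv (x j) = 0 := by
    refine N.cubics _ (fun j j' => ?_) h0 h1 h2
    have := cf_lin (N.KK j j') (N.KK' j j') α (fun j => vv (x j))
    refine this.trans ?_
    exact Finset.sum_eq_zero fun i _ => by rw [hx1, mul_zero]
  apply hα
  refine four_points x ?_ α h3
  have hqe : ∀ i, N.qq i ∉ Submodule.span ℂ {e} := by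
    intro i hi
    rw [Submodule.mem_span_singleton] at hi
    obtain ⟨c, hc⟩ := hi
    have hc0 : c ≠ 0 := by
      rintro rfl
      have := congrFun hc 0
      simp [qq] at this
    apply hcon i
    rw [Submodule.mem_span_singleton]
    exact ⟨c⁻¹, by rw [← hc, smul_smul, inv_mul_cancel₀ hc0, one_smul]⟩
  intro i j hij
  fin_cases i <;> fin_cases j
  · exact absurd rfl hij
  · exact N.qq_not_mem (show (0 : Fin 3) ≠ 1 by decide)
  · exact N.qq_not_mem (show (0 : Fin 3) ≠ 2 by decide)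
  · exact hqe 0
  · exact N.qq_not_mem (show (1 : Fin 3) ≠ 0 by decide)
  · exact absurd rfl hij
  · exact N.qq_not_mem (show (1 : Fin 3) ≠ 2 by decide)
  · exact hqe 1
  · exact N.qq_not_mem (show (2 : Fin 3) ≠ 0 by decide)
  · exact N.qq_not_mem (show (2 : Fin 3) ≠ 1 by decide)
  · exact absurd rfl hij
  · exact hqe 2
  · exact hcon 0
  · exact hcon 1
  · exact hcon 2
  · exact absurd rfl hij

/-- pairs of points with the same image -/
lemma pairs {a b : Fin 2 → ℂ} (ha : a ≠ 0) (hb : b ≠ 0)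
    (h : ∀ j j', N.g j a * N.d j' a * (N.d j b * N.g j' b) =
      N.g j b * N.d j' b * (N.d j a * N.g j' a)) :
    a 0 * b 1 - a 1 * b 0 = 0 ∨ ∃ l l', l ≠ l' ∧ ix l = ix l' ∧ (∃ c : ℂ, a = c • ![1, N.τ l]) ∧
      ∃ c : ℂ, b = c • ![1, N.τ l'] := by
  by_cases hab : a 0 * b 1 - a 1 * b 0 = 0
  · exact Or.inl hab
  right
  have h1 : ∀ j j', cf (N.KK j j') (N.KK' j j') (vv (ee a b)) = 0 := by
    intro j j'
    have h2 := psi_eq (N.KK j j') (N.KK' j j') a b
    rw [N.hev_KK, N.hev_KK, N.hev_KK', N.hev_KK', h j j', sub_self] at h2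
    exact (mul_eq_zero.mp h2.symm).resolve_left hab
  obtain ⟨i, hi⟩ := N.lemK (ee_ne ha hb) h1
  rw [Submodule.mem_span_singleton] at hi
  obtain ⟨c, hc⟩ := hi
  have e0 := congrFun hc 0
  have e1 := congrFun hc 1
  have e2 := congrFun hc 2
  simp only [qq, ee, Pi.smul_apply, smul_eq_mul, Matrix.cons_val_zero, Matrix.cons_val_one,
    Matrix.cons_val] at e0 e1 e2
  rw [mul_one] at e0
  have hc0 : c ≠ 0 := by
    rintro rfl
    rw [zero_smul] at hc
    exact ee_ne ha hb hc.symm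
  rw [e0] at hc0
  have ha0 : a 0 ≠ 0 := left_ne_zero_of_mul hc0
  have hb0 : b 0 ≠ 0 := right_ne_zero_of_mul hc0
  rw [e0] at e1 e2
  have ee3 : (a 1 - a 0 * N.τ (la i)) * (a 1 - a 0 * N.τ (lb i)) = 0 := by
    apply mul_left_cancel₀ hb0
    linear_combination (-a 1) * e1 + a 0 * e2
  have form : ∀ (v : Fin 2 → ℂ) (t : ℂ), v 1 = v 0 * t → v = v 0 • ![1, t] := by
    intro v t hv
    funext k
    fin_cases k
    · simp
    · simp [hv]
  have fa : a = a 0 • ![1, a 1 / a 0] := form a _ (by field_simp)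
  rcases mul_eq_zero.mp ee3 with h | h
  · have h5 : b 1 = b 0 * N.τ (lb i) := by
      apply mul_left_cancel₀ ha0
      linear_combination (-1 : ℂ) * e1 - b 0 * h
    exact ⟨la i, lb i, la_ne_lb i i, ix_la_lb i, ⟨a 0, form a _ (by linear_combination h)⟩,
      ⟨b 0, form b _ h5⟩⟩
  · have h5 : b 1 = b 0 * N.τ (la i) := by
      apply mul_left_cancel₀ ha0
      linear_combination (-1 : ℂ) * e1 - b 0 * h
    exact ⟨lb i, la i, (la_ne_lb i i).symm, (ix_la_lb i).symm,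
      ⟨a 0, form a _ (by linear_combination h)⟩, ⟨b 0, form b _ h5⟩⟩

lemma d_root (j : Fin 5) (k : Fin (mu n (e5 N.hn j))) :
    N.d j ![1, N.r (e5 N.hn j) k] = 0 := by
  rw [N.d_one, N.eval_D_r]

/-- the numerators have no common zero, even if one of them is omitted -/
lemma star_G {b : Fin 2 → ℂ} (hb : b ≠ 0) (j₀ : Fin 5) : ∃ j, j ≠ j₀ ∧ N.g j b ≠ 0 := by
  by_contra hcon
  push Not at hcon
  have h2 : 0 < mu n (e5 N.hn j₀) := by rw [mu_e5]; norm_num
  have h2' : 1 < mu n (e5 N.hn j₀) := by rw [mu_e5]; norm_num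
  have key : ∀ k : Fin (mu n (e5 N.hn j₀)), b = b 0 • ![1, N.r (e5 N.hn j₀) k] := by
    intro k
    have hz := N.d_root j₀ k
    set a : Fin 2 → ℂ := ![1, N.r (e5 N.hn j₀) k] with ha
    have hp := N.pairs (a := a) (b := b) (pair_ne_zero _) hb (by
      intro j j'
      by_cases hj : j = j₀
      · subst hj
        by_cases hj' : j' = j
        · subst hj'; ring
        · rw [hz, hcon j' hj']; ring
      · rw [hcon j hj]
        by_cases hj' : j' = j₀
        · subst hj'; rw [hz]; ring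
        · rw [hcon j' hj']; ring)
    rcases hp with h | ⟨l, l', _, _, ⟨c, hc⟩, _⟩
    · have : b 1 = b 0 * N.r (e5 N.hn j₀) k := by
        rw [ha] at h
        simp only [Matrix.cons_val_zero, Matrix.cons_val_one] at h
        linear_combination h
      funext i
      fin_cases i
      · simp [ha]
      · simp [ha, this]
    · exfalso
      rw [ha] at hc
      have e0 := congrFun hc 0
      have e1 := congrFun hc 1
      simp only [Pi.smul_apply, Matrix.cons_val_zero, Matrix.cons_val_one, smul_eq_mul,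
        mul_one] at e0 e1
      rw [← e0, one_mul] at e1
      exact N.r_ne_τ _ _ _ e1
  have k0 := key ⟨0, h2⟩
  have k1 := key ⟨1, h2'⟩
  have hb0 : b 0 ≠ 0 := by
    intro h0
    rw [h0, zero_smul] at k0
    exact hb k0
  have e1 := congrFun (k0.symm.trans k1) 1
  simp only [Pi.smul_apply, Matrix.cons_val_one, smul_eq_mul] at e1
  have e2 := mul_left_cancel₀ hb0 e1
  have e3 := N.r_inj _ _ _ _ e2
  simp at e3

lemma star_G' {b : Fin 2 → ℂ} (hb : b ≠ 0) (m₀ : Fin (n + 1)) :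
    ∃ j, e5 N.hn j ≠ m₀ ∧ N.g j b ≠ 0 := by
  by_cases h : ∃ j₀, e5 N.hn j₀ = m₀
  · obtain ⟨j₀, rfl⟩ := h
    obtain ⟨j, hj, hg⟩ := N.star_G hb j₀
    exact ⟨j, fun h => hj (e5_inj N.hn h), hg⟩
  · push Not at h
    obtain ⟨j, hj, hg⟩ := N.star_G hb 0
    exact ⟨j, h j, hg⟩

end Norm

end Pool.Agent.H403R3
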