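import Pool.Agent.H403R3.Ext

/-!
# The strict transform is an embedded curve in the blow-up
-/

open Polynomial

namespace Pool.Agent.H403R3

variable {n s : ℕ} {p : Fin s → Vec n} {Q : Type} [Fintype Q] [DecidableEq Q] {pt : Q → Fin s}
  {δ : ℕ}

lemma pderiv_zero_homog' {d : ℕ} (hd : 1 ≤ d) (φ : ℂ[X]) :
    MvPolynomial.pderiv 0 (homog d φ) = homog (d - 1) (der0 d φ) := by
  obtain ⟨d, rfl⟩ : ∃ k, d = k + 1 := ⟨d - 1, by omega⟩
  exact pderiv_zero_homog d φ

lemma pderiv_one_homog' {d : ℕ} (hd : 1 ≤ d) (φ : ℂ[X]) :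
    MvPolynomial.pderiv 1 (homog d φ) = homog (d - 1) (derivative φ) := by
  obtain ⟨d, rfl⟩ : ∃ k, d = k + 1 := ⟨d - 1, by omega⟩
  exact pderiv_one_homog d φ

namespace CurveData

variable {c : CurveData p Q pt δ}

namespace Ext

variable (E : c.Ext)

noncomputable def W (i : Fin s) (a : Fin 2 → ℂ) : Vec n := vhev (δ - c.m i) (E.w i) a

noncomputable def dW0 (i : Fin s) (a : Fin 2 → ℂ) : Vec n :=
  vhev (δ - c.m i - 1) (fun j => der0 (δ - c.m i) (E.w i j)) a

noncomputable def dW1 (i : Fin s) (a : Fin 2 → ℂ) : Vec n :=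
  vhev (δ - c.m i - 1) (fun j => derivative (E.w i j)) a

noncomputable def hh (_ : c.Ext) (i : Fin s) (a : Fin 2 → ℂ) : ℂ := hev (c.m i) (c.h i) a

noncomputable def hh0 (_ : c.Ext) (i : Fin s) (a : Fin 2 → ℂ) : ℂ :=
  hev (c.m i - 1) (der0 (c.m i) (c.h i)) a

noncomputable def hh1 (_ : c.Ext) (i : Fin s) (a : Fin 2 → ℂ) : ℂ :=
  hev (c.m i - 1) (derivative (c.h i)) a

lemma F_eq (i : Fin s) (a : Fin 2 → ℂ) :
    c.F a = E.hh i a • E.W i a + hev δ (E.U i) a • p i :=
  vhev_comb (by have := c.m_lt i; omega) (c.natDegree_h i).le (E.hw i) (E.eq i) a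

lemma dF0_eq (i : Fin s) (a : Fin 2 → ℂ) :
    c.dF0 a = E.hh0 i a • E.W i a + E.hh i a • E.dW0 i a +
      hev (δ - 1) (der0 δ (E.U i)) a • p i :=
  vhev_comb_der0 (by have := c.m_lt i; omega) (c.m_pos i) (by have := c.m_lt i; omega)
    (c.natDegree_h i).le (E.hw i) (E.eq i) a

lemma dF1_eq (i : Fin s) (a : Fin 2 → ℂ) :
    c.dF1 a = E.hh1 i a • E.W i a + E.hh i a • E.dW1 i a +
      hev (δ - 1) (derivative (E.U i)) a • p i :=
  vhev_comb_der1 (by have := c.m_lt i; omega) (c.m_pos i) (by have := c.m_lt i; omega)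
    (c.natDegree_h i).le (E.hw i) (E.eq i) a

lemma hh_eq_zero {i : Fin s} {a : Fin 2 → ℂ} (ha : a ≠ 0) (h : E.hh i a = 0) :
    ∃ q, pt q = i ∧ ∃ x : ℂ, x ≠ 0 ∧ a = x • ![1, c.t q] := by
  apply c.mem_span_p ha
  rw [E.F_eq i, h, zero_smul, zero_add]
  exact Submodule.smul_mem _ _ (Submodule.mem_span_singleton_self _)

lemma hh_one (i : Fin s) (t : ℂ) : E.hh i ![1, t] = (c.h i).eval t := by
  unfold hh
  rw [hev_of_ne (c.natDegree_h i).le (by simp)]
  simp

lemma hh1_one (i : Fin s) (t : ℂ) : E.hh1 i ![1, t] = (derivative (c.h i)).eval t := by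
  unfold hh1
  rw [hev_of_ne (natDegree_derivative_le' (c.natDegree_h i).le) (by simp)]
  simp

lemma hh_of {i : Fin s} {q : Q} (hq : pt q = i) (x : ℂ) : E.hh i (x • ![1, c.t q]) = 0 := by
  unfold hh
  rw [hev_smul_arg]
  have := E.hh_one i (c.t q)
  unfold hh at this
  rw [this, ← hq, c.eval_h_nd, mul_zero]

lemma W_smul (i : Fin s) (x : ℂ) (a : Fin 2 → ℂ) :
    E.W i (x • a) = x ^ (δ - c.m i) • E.W i a := vhev_smul_arg x a

lemma notMem (i : Fin s) {a : Fin 2 → ℂ} (ha : a ≠ 0) :
    E.W i a ∉ Submodule.span ℂ {p i} := by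
  intro h
  have hF : c.F a ∈ Submodule.span ℂ {p i} := by
    rw [E.F_eq i]
    exact Submodule.add_mem _ (Submodule.smul_mem _ _ h)
      (Submodule.smul_mem _ _ (Submodule.mem_span_singleton_self _))
  obtain ⟨q, hq, x, hx, hax⟩ := c.mem_span_p ha hF
  have h1 : E.W i ![1, c.t q] ∈ Submodule.span ℂ {p i} := by
    rw [hax, E.W_smul] at h
    exact (Submodule.smul_mem_iff _ (pow_ne_zero _ hx)).mp h
  have h2 : c.dF1 ![1, c.t q] ∈ Submodule.span ℂ {p i} := by
    rw [E.dF1_eq i]
    have h0 : E.hh i ![1, c.t q] = 0 := by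
      have := E.hh_of hq 1
      rwa [one_smul] at this
    rw [h0, zero_smul, add_zero]
    exact Submodule.add_mem _ (Submodule.smul_mem _ _ h1)
      (Submodule.smul_mem _ _ (Submodule.mem_span_singleton_self _))
  rw [Submodule.mem_span_singleton] at h2
  obtain ⟨y, hy⟩ := h2
  rw [c.dF1_one, ← hq, c.p_mem, smul_smul] at hy
  have := c.indep_one (c.t q) (x := y * (c.u q)⁻¹) (y := -1) (by rw [hy]; module)
  exact absurd this.2 (by norm_num)

lemma W_p_indep {i : Fin s} {a : Fin 2 → ℂ} (ha : a ≠ 0) {x y : ℂ}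
    (h : x • E.W i a + y • p i = 0) : x = 0 ∧ y = 0 := by
  have hx : x = 0 := by
    by_contra hx
    apply E.notMem i ha
    rw [Submodule.mem_span_singleton]
    refine ⟨-(x⁻¹ * y), ?_⟩
    have : E.W i a = x⁻¹ • (x • E.W i a) := by rw [smul_smul, inv_mul_cancel₀ hx, one_smul]
    rw [this, eq_neg_of_add_eq_zero_left h]
    module
  rw [hx, zero_smul, zero_add] at h
  exact ⟨hx, (smul_eq_zero.mp h).resolve_right (c.p_ne_zero i)⟩

/-- the curve in the blow-up -/
noncomputable def curve : RatCurve p where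
  δ := δ
  e := fun i => δ - c.m i
  f := fun j => homog δ (c.f j)
  w := fun i j => homog (δ - c.m i) (E.w i j)
  f_hom := fun j => homog_isHomogeneous _ _
  w_hom := fun i j => homog_isHomogeneous _ _
  isPoint := by
    intro a ha
    simp only [eval_homog]
    refine ⟨c.F_ne_zero ha, fun i => E.notMem i ha, fun i => ?_⟩
    have : (fun j => hev δ (c.f j) a) = c.F a := rfl
    rw [this, E.F_eq i]
    exact Submodule.add_mem _
      (Submodule.smul_mem _ _ (Submodule.subset_span (Set.mem_insert _ _)))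
      (Submodule.smul_mem _ _ (Submodule.subset_span (Set.mem_insert_of_mem _ rfl)))

lemma curve_x (a : Fin 2 → ℂ) : E.curve.x a = c.F a := by
  funext j
  simp only [RatCurve.x, curve, eval_homog, F, vhev]

lemma curve_dir (a : Fin 2 → ℂ) : E.curve.dir a = fun i => E.W i a := by
  funext i j
  simp only [RatCurve.dir, curve, eval_homog, W, vhev]

lemma curve_deriv0 (a : Fin 2 → ℂ) :
    E.curve.deriv 0 a = (c.dF0 a, fun i => E.dW0 i a) := by
  unfold RatCurve.deriv RatCurve.dx RatCurve.ddir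
  refine Prod.ext ?_ ?_
  · funext j
    simp only [curve]
    rw [pderiv_zero_homog' c.δ_pos, eval_homog]
    rfl
  · funext i j
    simp only [curve]
    rw [pderiv_zero_homog' (by have := c.m_lt i; omega), eval_homog]
    rfl

lemma curve_deriv1 (a : Fin 2 → ℂ) :
    E.curve.deriv 1 a = (c.dF1 a, fun i => E.dW1 i a) := by
  unfold RatCurve.deriv RatCurve.dx RatCurve.ddir
  refine Prod.ext ?_ ?_
  · funext j
    simp only [curve]
    rw [pderiv_one_homog' c.δ_pos, eval_homog]
    rfl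
  · funext i j
    simp only [curve]
    rw [pderiv_one_homog' (by have := c.m_lt i; omega), eval_homog]
    rfl

lemma mem_pair {V : Type*} [AddCommGroup V] [Module ℂ V] {u v : V} (x y : ℂ) :
    x • u + y • v ∈ Submodule.span ℂ {u, v} :=
  Submodule.mem_span_pair.mpr ⟨x, y, rfl⟩

lemma curve_isEmbedding : E.curve.IsEmbedding := by
  refine ⟨fun a b ha hb h => ?_, fun a ha => ?_⟩
  · obtain ⟨h1, h2⟩ := h
    rw [E.curve_x, E.curve_x] at h1
    rcases c.inj a b ha hb h1 with h | ⟨q, q', hqq, hpt, ⟨x, hx⟩, ⟨y, hy⟩⟩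
    · exact h
    · exfalso
      have hx0 : x ≠ 0 := by rintro rfl; exact ha (by rw [hx, zero_smul])
      have hy0 : y ≠ 0 := by rintro rfl; exact hb (by rw [hy, zero_smul])
      have h3 := h2 (pt q)
      rw [E.curve_dir, E.curve_dir] at h3
      simp only [hx, hy, E.W_smul] at h3
      have h4 : E.W (pt q) ![1, c.t q'] ∈ Submodule.span ℂ {E.W (pt q) ![1, c.t q], p (pt q)} := by
        rw [Submodule.smul_mem_iff _ (pow_ne_zero _ hy0)] at h3
        rw [Submodule.mem_span_pair] at h3 ⊢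
        obtain ⟨z, z', hz⟩ := h3
        exact ⟨z * x ^ (δ - c.m (pt q)), z', by rw [← hz, smul_smul]⟩
      -- the tangent vector at `t q`
      have h5 : vev (fun j => derivative (c.f j)) (c.t q) =
          (derivative (c.h (pt q))).eval (c.t q) • E.W (pt q) ![1, c.t q] +
            hev (δ - 1) (derivative (E.U (pt q))) ![1, c.t q] • p (pt q) := by
        rw [← c.dF1_one, E.dF1_eq (pt q), E.hh1_one, E.hh_one, c.eval_h_nd]
        module
      have h6 : vev (fun j => derivative (c.f j)) (c.t q') =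
          (derivative (c.h (pt q))).eval (c.t q') • E.W (pt q) ![1, c.t q'] +
            hev (δ - 1) (derivative (E.U (pt q))) ![1, c.t q'] • p (pt q) := by
        rw [← c.dF1_one, E.dF1_eq (pt q), E.hh1_one, E.hh_one]
        have : (c.h (pt q)).eval (c.t q') = 0 := by rw [hpt]; exact c.eval_h_nd
        rw [this]
        module
      have hne := c.eval_derivative_h_nd q
      apply c.dir q q' hqq hpt
      rw [Submodule.mem_span_pair] at h4 ⊢
      obtain ⟨z, z', hz⟩ := h4
      rw [h6, h5, ← hz]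
      set d := (derivative (c.h (pt q))).eval (c.t q) with hd
      set d' := (derivative (c.h (pt q))).eval (c.t q') with hd'
      set A := hev (δ - 1) (derivative (E.U (pt q))) ![1, c.t q]
      set A' := hev (δ - 1) (derivative (E.U (pt q))) ![1, c.t q']
      refine ⟨d' * z / d, d' * z' + A' - d' * z / d * A, ?_⟩
      have e1 : d' * z / d * d = d' * z := div_mul_cancel₀ _ hne
      rw [smul_add, smul_smul, e1]
      module
  · by_contra hcon
    push Not at hcon
    have h0 : (E.curve.deriv 0 a).1 ∈ Submodule.span ℂ {E.curve.x a} := (hcon 0).1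
    have h1 : (E.curve.deriv 1 a).1 ∈ Submodule.span ℂ {E.curve.x a} := (hcon 1).1
    rw [E.curve_deriv0, E.curve_x] at h0
    rw [E.curve_deriv1, E.curve_x] at h1
    rw [Submodule.mem_span_singleton] at h0 h1
    obtain ⟨x, hx⟩ := h0
    obtain ⟨y, hy⟩ := h1
    simp only at hx hy
    have := c.dF_indep ha (c₀ := y) (c₁ := -x) (by rw [← hx, ← hy]; module)
    have hy0 : y = 0 := this.1
    rw [hy0, zero_smul] at hy
    have := c.dF_indep ha (c₀ := 0) (c₁ := 1) (by rw [← hy]; simp)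
    exact one_ne_zero this.2

end Ext

end CurveData

end Pool.Agent.H403R3
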